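import Pool.Agent.W432.TC.Ultra

set_option autoImplicit false

namespace Pool.Agent.W432.HK

open Pool.Agent.W432.TC

variable {I : Type*} [Fintype I] [DecidableEq I]

/-- Dual bases of a group of integer vectors with respect to a set of coordinates. -/
structure Bas (Λ : AddSubgroup (I → ℤ)) (B : Finset I) (P : I → I → ℝ) : Prop where
  one : ∀ b ∈ B, P b b = 1
  zero : ∀ b ∈ B, ∀ c ∈ B, b ≠ c → P b c = 0
  eq : ∀ k ∈ Λ, ∀ i, (k i : ℝ) = ∑ b ∈ B, (k b : ℝ) * P b i

omit [Fintype I] in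
lemma exists_bas [Finite I] (Λ : AddSubgroup (I → ℤ)) : ∃ (B : Finset I) (P : I → I → ℝ), Bas Λ B P ∧
    ∀ b ∈ B, ∃ d : ℤ, d ≠ 0 ∧ ∃ p ∈ Λ, ∀ i, (p i : ℝ) = d * P b i := by
  classical
  have := Fintype.ofFinite I
  let S : Set ℕ := {t | ∃ B : Finset I, B.card = t ∧ ∀ v ∈ Λ, (∀ i ∈ B, v i = 0) → v = 0}
  have hS : S.Nonempty := ⟨_, Finset.univ, rfl, fun v _ h => funext fun i => h i (Finset.mem_univ i)⟩
  obtain ⟨B, hBc, hB⟩ := Nat.sInf_mem hS
  have hmin : ∀ b ∈ B, ∃ p ∈ Λ, (∀ i ∈ B.erase b, p i = 0) ∧ p ≠ 0 := by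
    intro b hb
    by_contra hno
    push Not at hno
    have h1 : (B.erase b).card ∈ S := ⟨B.erase b, rfl, hno⟩
    have h2 := Nat.sInf_le h1
    have h3 := Finset.card_erase_lt_of_mem hb
    omega
  choose! p hp1 hp2 hp3 using hmin
  have hpb : ∀ b ∈ B, p b b ≠ 0 := by
    intro b hb h0
    apply hp3 b hb
    apply hB _ (hp1 b hb)
    intro i hi
    by_cases hib : i = b
    · rw [hib]; exact h0
    · exact hp2 b hb i (Finset.mem_erase.mpr ⟨hib, hi⟩)
  have hpbR : ∀ b ∈ B, (p b b : ℝ) ≠ 0 := fun b hb => by exact_mod_cast hpb b hb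
  refine ⟨B, fun b i => (p b i : ℝ) / p b b, ⟨fun b hb => div_self (hpbR b hb), ?_, ?_⟩, ?_⟩
  · intro b hb c hc hbc
    rw [hp2 b hb c (Finset.mem_erase.mpr ⟨fun h => hbc h.symm, hc⟩)]
    simp
  · intro k hk i
    let D : ℤ := ∏ b ∈ B, p b b
    have hD : D ≠ 0 := Finset.prod_ne_zero_iff.mpr hpb
    let v : I → ℤ := D • k - ∑ b ∈ B, ((∏ c ∈ B.erase b, p c c) * k b) • p b
    have hv : v ∈ Λ := Λ.sub_mem (Λ.zsmul_mem hk _)
      (Λ.sum_mem fun b hb => Λ.zsmul_mem (hp1 b hb) _)
    have hDb : ∀ b ∈ B, (∏ c ∈ B.erase b, p c c) * p b b = D := fun b hb =>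
      Finset.prod_erase_mul _ _ hb
    have hv0 : v = 0 := by
      apply hB v hv
      intro c hc
      simp only [v, Pi.sub_apply, Pi.smul_apply, Finset.sum_apply, smul_eq_mul]
      rw [Finset.sum_eq_single c]
      · rw [← hDb c hc]; ring
      · intro b hb hbc
        rw [hp2 b hb c (Finset.mem_erase.mpr ⟨fun h => hbc h.symm, hc⟩), mul_zero]
      · intro h; exact absurd hc h
    have h1 := congrFun hv0 i
    simp only [v, Pi.sub_apply, Pi.smul_apply, Finset.sum_apply, smul_eq_mul, Pi.zero_apply] at h1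
    have h2 : (D : ℝ) * k i = ∑ b ∈ B, (((∏ c ∈ B.erase b, p c c : ℤ) : ℝ) * k b) * p b i := by
      have h3 : D * k i = ∑ b ∈ B, ((∏ c ∈ B.erase b, p c c) * k b) * p b i := by linarith
      have := congrArg (fun z : ℤ => (z : ℝ)) h3
      push_cast at this
      push_cast
      exact this
    have hDR : (D : ℝ) ≠ 0 := by exact_mod_cast hD
    apply mul_left_cancel₀ hDR
    rw [h2, Finset.mul_sum]
    refine Finset.sum_congr rfl fun b hb => ?_
    have h3 : ((∏ c ∈ B.erase b, p c c : ℤ) : ℝ) * p b b = D := by exact_mod_cast hDb b hb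
    rw [← h3]
    have := hpbR b hb
    field_simp
  · intro b hb
    refine ⟨p b b, hpb b hb, p b, hp1 b hb, fun i => ?_⟩
    have := hpbR b hb
    field_simp

omit [DecidableEq I] in
lemma Bas.card_le {Λ : AddSubgroup (I → ℤ)} {B : Finset I} {P : I → I → ℝ} (h : Bas Λ B P)
    (hint : ∀ b ∈ B, ∃ d : ℤ, d ≠ 0 ∧ ∃ p ∈ Λ, ∀ i, (p i : ℝ) = d * P b i) :
    B.card ≤ Module.finrank ℤ (AddSubgroup.toIntSubmodule Λ) := by
  classical
  choose! d hd p hp hpe using hint
  let v : B → AddSubgroup.toIntSubmodule Λ := fun b => ⟨p b, hp b b.2⟩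
  have hv : LinearIndependent ℤ v := by
    rw [Fintype.linearIndependent_iff]
    intro g hg c
    have h1 := congrArg (fun x : AddSubgroup.toIntSubmodule Λ => (x : I → ℤ) c) hg
    simp only [v] at h1
    rw [AddSubmonoidClass.coe_finsetSum, Finset.sum_apply] at h1
    simp only [SetLike.val_smul, Pi.smul_apply, smul_eq_mul, ZeroMemClass.coe_zero,
      Pi.zero_apply] at h1
    rw [Finset.sum_eq_single c] at h1
    · have h2 : (p c c : ℝ) = d c := by rw [hpe c c.2, h.one c c.2, mul_one]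
      have h3 : p c c = d c := by exact_mod_cast h2
      rw [h3] at h1
      exact (mul_eq_zero.mp h1).resolve_right (hd c c.2)
    · intro b _ hbc
      have h2 : (p b c : ℝ) = 0 := by
        rw [hpe b b.2, h.zero b b.2 c c.2 (fun h => hbc (Subtype.ext h)), mul_zero]
      have h3 : p b c = 0 := by exact_mod_cast h2
      rw [h3, mul_zero]
    · intro h; exact absurd (Finset.mem_univ c) h
  have := hv.fintype_card_le_finrank
  rwa [Fintype.card_coe] at this

omit [DecidableEq I] in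
lemma Bas.mem_coset {Λ : AddSubgroup (I → ℤ)} {B : Finset I} {P : I → I → ℝ} (h : Bas Λ B P)
    (X₀ : I → ℚ) (Z : I → ℝ) (hZ : ∀ b ∈ B, ∃ A : ℤ, ∑ i, P b i * Z i = ∑ i, P b i * X₀ i + A) :
    InCoset Λ X₀ Z := by
  intro k hk
  choose! A hA using hZ
  refine ⟨∑ b ∈ B, k b * A b, ?_⟩
  push_cast
  have h1 : ∀ i, (k i : ℝ) * (Z i - X₀ i) = ∑ b ∈ B, (k b : ℝ) * (P b i * Z i - P b i * X₀ i) := by
    intro i
    rw [h.eq k hk i, Finset.sum_mul]
    exact Finset.sum_congr rfl fun b _ => by ring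
  rw [Finset.sum_congr rfl fun i _ => h1 i, Finset.sum_comm]
  refine Finset.sum_congr rfl fun b hb => ?_
  rw [← Finset.mul_sum, Finset.sum_sub_distrib, hA b hb]
  ring

/-- The point with given coordinates outside `B` and given values of the relations. -/
noncomputable def pt (B : Finset I) (P : I → I → ℝ) (t s : I → ℝ) : I → ℝ := fun i =>
  if i ∈ B then s i - ∑ j ∈ Finset.univ \ B, P i j * t j else t i

lemma Bas.sum_pt {Λ : AddSubgroup (I → ℤ)} {B : Finset I} {P : I → I → ℝ} (h : Bas Λ B P)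
    (t s : I → ℝ) {b : I} (hb : b ∈ B) : ∑ i, P b i * pt B P t s i = s b := by
  rw [← Finset.sum_sdiff (Finset.subset_univ B)]
  have h1 : ∑ i ∈ Finset.univ \ B, P b i * pt B P t s i = ∑ i ∈ Finset.univ \ B, P b i * t i := by
    refine Finset.sum_congr rfl fun i hi => ?_
    rw [pt, if_neg (Finset.mem_sdiff.mp hi).2]
  have h2 : ∑ i ∈ B, P b i * pt B P t s i = s b - ∑ j ∈ Finset.univ \ B, P b j * t j := by
    rw [Finset.sum_eq_single b]
    · rw [h.one b hb, one_mul, pt, if_pos hb]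
    · intro c hc hcb
      rw [h.zero b hb c hc (fun h => hcb h.symm), zero_mul]
    · intro h; exact absurd hb h
  rw [h1, h2]
  ring

lemma Bas.sum_eq {Λ : AddSubgroup (I → ℤ)} {B : Finset I} {P : I → I → ℝ} (h : Bas Λ B P)
    (h1 : (1 : I → ℤ) ∈ Λ) (t s : I → ℝ) : ∑ i, pt B P t s i = ∑ b ∈ B, s b := by
  have h2 : ∀ i, pt B P t s i = ∑ b ∈ B, P b i * pt B P t s i := by
    intro i
    rw [← Finset.sum_mul]
    have := h.eq 1 h1 i
    simp only [Pi.one_apply, Int.cast_one, one_mul] at this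
    rw [← this, one_mul]
  rw [Finset.sum_congr rfl fun i _ => h2 i, Finset.sum_comm]
  exact Finset.sum_congr rfl fun b hb => h.sum_pt t s hb

lemma abs_sum_le {B : Finset I} (P : I → I → ℝ) {t : I → ℝ} {τ : ℝ} (hτ : 0 ≤ τ)
    (ht : ∀ i ∉ B, |t i| ≤ τ) (b : I) :
    |∑ j ∈ Finset.univ \ B, P b j * t j| ≤ τ * ∑ j, |P b j| := by
  calc |∑ j ∈ Finset.univ \ B, P b j * t j| ≤ ∑ j ∈ Finset.univ \ B, |P b j * t j| :=
        Finset.abs_sum_le_sum_abs _ _
    _ ≤ ∑ j ∈ Finset.univ \ B, τ * |P b j| := by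
        refine Finset.sum_le_sum fun j hj => ?_
        rw [abs_mul, mul_comm]
        exact mul_le_mul_of_nonneg_right (ht j (Finset.mem_sdiff.mp hj).2) (abs_nonneg _)
    _ ≤ ∑ j, τ * |P b j| :=
        Finset.sum_le_sum_of_subset_of_nonneg Finset.sdiff_subset fun j _ _ => by positivity
    _ = τ * ∑ j, |P b j| := by rw [Finset.mul_sum]

/-- A uniform small scale. -/
lemma exists_scale (B : Finset I) (P : I → I → ℝ) (s : I → ℝ) (hs : ∀ b ∈ B, 0 < s b) :
    ∃ τ : ℝ, 0 < τ ∧ ∀ b ∈ B, τ * ∑ j, |P b j| < s b := by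
  classical
  induction B using Finset.induction_on with
  | empty => exact ⟨1, one_pos, fun b hb => absurd hb (Finset.notMem_empty b)⟩
  | insert c B hc ih =>
    obtain ⟨τ, hτ, h⟩ := ih fun b hb => hs b (Finset.mem_insert_of_mem hb)
    have hM : 0 ≤ ∑ j, |P c j| := Finset.sum_nonneg fun _ _ => abs_nonneg _
    have hsc := hs c (Finset.mem_insert_self c B)
    refine ⟨min τ (s c / (∑ j, |P c j| + 1)), by positivity, fun b hb => ?_⟩
    rcases Finset.mem_insert.mp hb with rfl | hb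
    · calc min τ (s b / (∑ j, |P b j| + 1)) * ∑ j, |P b j| ≤
            s b / (∑ j, |P b j| + 1) * ∑ j, |P b j| := by gcongr; exact min_le_right _ _
        _ < s b := by
          rw [div_mul_eq_mul_div, div_lt_iff₀ (by positivity)]
          nlinarith
    · refine lt_of_le_of_lt ?_ (h b hb)
      have : 0 ≤ ∑ j, |P b j| := Finset.sum_nonneg fun _ _ => abs_nonneg _
      gcongr
      exact min_le_left _ _

section main

variable {Λ : AddSubgroup (I → ℤ)} {X₀ : I → ℚ} {n : ℕ}

lemma Bas.first {B : Finset I} {P : I → I → ℝ} (h : Bas Λ B P) (h1 : (1 : I → ℤ) ∈ Λ)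
    (hH : ∀ Z, InCoset Λ X₀ Z → (∀ i, 0 < Z i) → (n : ℝ) ≤ ∑ i, Z i) :
    n ≤ B.card ∧ (B.card = n → ∀ b ∈ B, ∃ A : ℤ, ∑ i, P b i * X₀ i = A) := by
  let r : I → ℝ := fun b => ∑ i, P b i * X₀ i
  let s : I → ℝ := fun b => r b - ⌈r b⌉ + 1
  have hs0 : ∀ b, 0 < s b := fun b => by
    have := Int.ceil_lt_add_one (r b)
    simp only [s]; linarith
  have hs1 : ∀ b, s b ≤ 1 := fun b => by
    have := Int.le_ceil (r b)
    simp only [s]; linarith
  obtain ⟨τ, hτ, hτs⟩ := exists_scale B P s fun b _ => hs0 b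
  have hsum := hH (pt B P (fun _ => τ) s) (h.mem_coset X₀ _ fun b hb => ⟨-⌈r b⌉ + 1, by
      rw [h.sum_pt _ _ hb]; simp only [s, r]; push_cast; ring⟩) (by
    intro i
    by_cases hi : i ∈ B
    · rw [pt, if_pos hi]
      have h2 := abs_sum_le (B := B) P (t := fun _ => τ) hτ.le
        (fun i _ => by rw [abs_of_pos hτ]) i
      have h3 := le_abs_self (∑ j ∈ Finset.univ \ B, P i j * (fun _ => τ) j)
      have h4 := hτs i hi
      linarith
    · rw [pt, if_neg hi]; exact hτ)
  rw [h.sum_eq h1] at hsum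
  have hle : ∑ b ∈ B, s b ≤ B.card := by
    calc ∑ b ∈ B, s b ≤ ∑ b ∈ B, (1 : ℝ) := Finset.sum_le_sum fun b _ => hs1 b
      _ = B.card := by simp
  refine ⟨by exact_mod_cast hsum.trans hle, fun hcard b hb => ?_⟩
  have h2 : ∑ b ∈ B, (1 - s b) = 0 := by
    have h3 : 0 ≤ ∑ b ∈ B, (1 - s b) := Finset.sum_nonneg fun b _ => by linarith [hs1 b]
    have h4 : ∑ b ∈ B, (1 - s b) = B.card - ∑ b ∈ B, s b := by
      rw [Finset.sum_sub_distrib]; simp
    rw [← hcard] at hsum
    linarith
  have h3 := (Finset.sum_eq_zero_iff_of_nonneg (fun b _ => by linarith [hs1 b])).mp h2 b hb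
  refine ⟨⌈r b⌉, ?_⟩
  simp only [s] at h3
  show r b = _
  linarith

lemma Bas.nonneg {B : Finset I} {P : I → I → ℝ} (h : Bas Λ B P) (h1 : (1 : I → ℤ) ∈ Λ)
    (hH : ∀ Z, InCoset Λ X₀ Z → (∀ i, 0 < Z i) → (n : ℝ) ≤ ∑ i, Z i) (hB : B.card = n) {b i : I}
    (hb : b ∈ B) (hi : i ∉ B) : 0 ≤ P b i := by
  by_contra hneg
  push Not at hneg
  have hint := (h.first h1 hH).2 hB
  obtain ⟨τ, hτ, hτs⟩ := exists_scale B P (fun _ => 1) fun b _ => one_pos
  set M : ℝ := ∑ j, |P b j| with hM
  have hM0 : 0 ≤ M := Finset.sum_nonneg fun _ _ => abs_nonneg _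
  obtain ⟨η, hη, hη1, hηM⟩ : ∃ η : ℝ, 0 < η ∧ η ≤ 1 ∧ η * (2 * M) < -P b i := by
    refine ⟨min 1 (-P b i / (2 * M + 1)), lt_min one_pos (div_pos (by linarith) (by linarith)),
      min_le_left _ _, ?_⟩
    calc min 1 (-P b i / (2 * M + 1)) * (2 * M) ≤ -P b i / (2 * M + 1) * (2 * M) := by
          gcongr; exact min_le_right _ _
      _ < -P b i := by
          rw [div_mul_eq_mul_div, div_lt_iff₀ (by linarith)]
          nlinarith
  let t : I → ℝ := fun j => if j = i then τ else τ * η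
  let s : I → ℝ := fun c => if c = b then 0 else 1
  have ht0 : ∀ j, 0 < t j := fun j => by
    simp only [t]; split_ifs <;> positivity
  have ht1 : ∀ j, |t j| ≤ τ := fun j => by
    rw [abs_of_pos (ht0 j)]
    simp only [t]; split_ifs
    · exact le_refl _
    · nlinarith
  have hsum := hH (pt B P t s) (h.mem_coset X₀ _ fun c hc => by
      obtain ⟨A, hA⟩ := hint c hc
      rw [h.sum_pt _ _ hc, hA]
      by_cases hcb : c = b
      · exact ⟨-A, by simp [s, hcb]⟩
      · exact ⟨1 - A, by simp [s, hcb]⟩) (by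
    intro c
    by_cases hc : c ∈ B
    · rw [pt, if_pos hc]
      by_cases hcb : c = b
      · subst hcb
        have h2 : ∑ j ∈ Finset.univ \ B, P c j * t j =
            τ * (P c i * (1 - η)) + ∑ j ∈ Finset.univ \ B, P c j * (τ * η) := by
          have h3 : ∀ j, P c j * t j = P c j * (τ * η) + if j = i then τ * (P c j * (1 - η)) else 0 := by
            intro j
            simp only [t]
            split_ifs <;> ring
          rw [Finset.sum_congr rfl fun j _ => h3 j, Finset.sum_add_distrib, Finset.sum_ite_eq',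
            if_pos (Finset.mem_sdiff.mpr ⟨Finset.mem_univ _, hi⟩)]
          ring
        have h3 := abs_sum_le (B := B) P (t := fun _ => τ * η) (τ := τ * η) (by positivity)
          (fun i _ => by rw [abs_of_pos (by positivity)]) c
        have h4 := le_abs_self (∑ j ∈ Finset.univ \ B, P c j * (fun _ => τ * η) j)
        have h5 : τ * (P c i * (1 - η)) + τ * η * M < 0 := by
          have h6 : P c i * (1 - η) + η * M < 0 := by
            have h7 : |P c i| ≤ M :=
              Finset.single_le_sum (f := fun j => |P c j|) (fun _ _ => abs_nonneg _)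
                (Finset.mem_univ i)
            have h8 := neg_le_abs (P c i)
            nlinarith
          nlinarith
        simp only [s, if_true]
        rw [h2]
        simp only at h4
        linarith
      · have h3 := abs_sum_le (B := B) P (t := t) hτ.le (fun i _ => ht1 i) c
        have h4 := le_abs_self (∑ j ∈ Finset.univ \ B, P c j * t j)
        have h5 := hτs c hc
        simp only [s, hcb, if_false]
        linarith
    · rw [pt, if_neg hc]; exact ht0 c)
  rw [h.sum_eq h1] at hsum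
  have h2 : ∑ c ∈ B, s c = B.card - 1 := by
    have h3 : ∀ c, s c = 1 - if c = b then 1 else 0 := fun c => by
      simp only [s]; split_ifs <;> ring
    rw [Finset.sum_congr rfl fun c _ => h3 c, Finset.sum_sub_distrib, Finset.sum_ite_eq', if_pos hb]
    simp
  rw [h2, hB] at hsum
  linarith

omit [Fintype I] in
lemma Bas.exchange {B : Finset I} {P : I → I → ℝ} (h : Bas Λ B P) {b i : I} (hb : b ∈ B)
    (hi : i ∉ B) (hne : P b i ≠ 0) :
    Bas Λ (insert i (B.erase b))
      (fun c j => if c = i then P b j / P b i else P c j - P c i / P b i * P b j) := by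
  have hib : i ≠ b := fun h => hi (h ▸ hb)
  have hmem : ∀ c, c ∈ insert i (B.erase b) ↔ c = i ∨ (c ≠ b ∧ c ∈ B) := fun c => by
    rw [Finset.mem_insert, Finset.mem_erase]
  constructor
  · intro c hc
    rcases (hmem c).mp hc with rfl | ⟨hcb, hcB⟩
    · rw [if_pos rfl, div_self hne]
    · have hci : c ≠ i := fun h => hi (h ▸ hcB)
      rw [if_neg hci, h.one c hcB, h.zero b hb c hcB (Ne.symm hcb), mul_zero, sub_zero]
  · intro c hc d hd hcd
    rcases (hmem c).mp hc with rfl | ⟨hcb, hcB⟩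
    · rw [if_pos rfl]
      rcases (hmem d).mp hd with rfl | ⟨hdb, hdB⟩
      · exact absurd rfl hcd
      · rw [h.zero b hb d hdB (Ne.symm hdb), zero_div]
    · have hci : c ≠ i := fun h => hi (h ▸ hcB)
      rw [if_neg hci]
      rcases (hmem d).mp hd with rfl | ⟨hdb, hdB⟩
      · field_simp; ring
      · rw [h.zero c hcB d hdB hcd, h.zero b hb d hdB (Ne.symm hdb), mul_zero, sub_zero]
  · intro k hk j
    have h1 : i ∉ B.erase b := fun h => hi (Finset.mem_of_mem_erase h)
    rw [Finset.sum_insert h1, if_pos rfl]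
    have h2 : ∑ c ∈ B.erase b, (k c : ℝ) * (if c = i then P b j / P b i
        else P c j - P c i / P b i * P b j) =
        ∑ c ∈ B.erase b, (k c : ℝ) * P c j - (∑ c ∈ B.erase b, (k c : ℝ) * P c i) / P b i * P b j := by
      rw [Finset.sum_div, Finset.sum_mul, ← Finset.sum_sub_distrib]
      refine Finset.sum_congr rfl fun c hc => ?_
      have hci : c ≠ i := fun h => h1 (h ▸ hc)
      rw [if_neg hci]
      ring
    rw [h2]
    have h3 : ∀ l, ∑ c ∈ B.erase b, (k c : ℝ) * P c l = k l - k b * P b l := by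
      intro l
      have := Finset.sum_erase_add B (fun c => (k c : ℝ) * P c l) hb
      rw [h.eq k hk l]
      linarith
    rw [h3, h3]
    field_simp
    ring

/-- The structure of the groups of relations of smallest rank. -/
theorem structure_min (hsat : ∀ (d : ℤ) (m : I → ℤ), d ≠ 0 → d • m ∈ Λ → m ∈ Λ)
    (h1 : (1 : I → ℤ) ∈ Λ)
    (hH : ∀ Z, InCoset Λ X₀ Z → (∀ i, 0 < Z i) → (n : ℝ) ≤ ∑ i, Z i) :
    n ≤ Module.finrank ℤ (AddSubgroup.toIntSubmodule Λ) ∧
    (Module.finrank ℤ (AddSubgroup.toIntSubmodule Λ) ≤ n →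
      ∃ (B : Finset I) (c : I → I), B.card = n ∧ (∀ i, c i ∈ B) ∧ (∀ b ∈ B, c b = b) ∧
        (∀ b ∈ B, (fun i => if c i = b then (1 : ℤ) else 0) ∈ Λ) ∧
        (∀ b ∈ B, ∃ A : ℤ, ∑ i, (if c i = b then (X₀ i : ℝ) else 0) = A) ∧
        ∀ Z : I → ℝ, (∀ b ∈ B, ∃ A : ℤ, ∑ i, (if c i = b then Z i else 0) = A) →
          InCoset Λ X₀ Z) := by
  classical
  obtain ⟨B, P, h, hint⟩ := exists_bas Λ
  have hcard := h.card_le hint
  have hfirst := h.first (X₀ := X₀) h1 hH
  refine ⟨hfirst.1.trans hcard, fun hle => ?_⟩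
  have hB : B.card = n := le_antisymm (hcard.trans hle) hfirst.1
  have hX := hfirst.2 hB
  -- each column outside has one nonzero entry
  have hsum1 : ∀ i, ∑ b ∈ B, P b i = 1 := by
    intro i
    have := h.eq 1 h1 i
    simp only [Pi.one_apply, Int.cast_one, one_mul] at this
    exact this.symm
  have huniq : ∀ b ∈ B, ∀ b' ∈ B, ∀ i ∉ B, b ≠ b' → P b i ≠ 0 → P b' i = 0 := by
    intro b hb b' hb' i hi hbb' hne
    have h2 := h.exchange hb hi hne
    have hcard2 : (insert i (B.erase b)).card = n := by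
      rw [Finset.card_insert_of_notMem (fun h => hi (Finset.mem_of_mem_erase h)),
        Finset.card_erase_of_mem hb, hB]
      have : 0 < B.card := Finset.card_pos.mpr ⟨b, hb⟩
      omega
    have hb'i : b' ≠ i := fun h => hi (h ▸ hb')
    have h3 := h2.nonneg (b := b') (i := b) h1 hH hcard2
      (Finset.mem_insert_of_mem (Finset.mem_erase.mpr ⟨Ne.symm hbb', hb'⟩))
      (by
        rw [Finset.mem_insert, Finset.mem_erase]
        rintro (h | h)
        · exact hi (h ▸ hb)
        · exact h.1 rfl)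
    rw [if_neg hb'i, h.zero b' hb' b hb (Ne.symm hbb'), h.one b hb] at h3
    have h4 := h.nonneg h1 hH hB hb hi
    have h5 := h.nonneg h1 hH hB hb' hi
    have h6 : 0 < P b i := lt_of_le_of_ne h4 (Ne.symm hne)
    have h7 : P b' i / P b i ≤ 0 := by linarith
    have h8 : 0 ≤ P b' i / P b i := div_nonneg h5 h6.le
    have h9 : P b' i / P b i = 0 := le_antisymm h7 h8
    exact (div_eq_zero_iff.mp h9).resolve_right hne
  have hex : ∀ i, ∃ b ∈ B, ∀ b' ∈ B, P b' i = if b = b' then 1 else 0 := by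
    intro i
    by_cases hi : i ∈ B
    · refine ⟨i, hi, fun b' hb' => ?_⟩
      split_ifs with hh
      · rw [← hh]; exact h.one i hi
      · exact h.zero b' hb' i hi (fun h => hh h.symm)
    · have : ∃ b ∈ B, P b i ≠ 0 := by
        by_contra hno
        push Not at hno
        have := hsum1 i
        rw [Finset.sum_eq_zero hno] at this
        exact zero_ne_one this
      obtain ⟨b, hb, hne⟩ := this
      have h0 : ∀ b' ∈ B, b ≠ b' → P b' i = 0 := fun b' hb' hbb' => huniq b hb b' hb' i hi hbb' hne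
      have h2 : P b i = 1 := by
        have := hsum1 i
        rwa [Finset.sum_eq_single b (fun b' hb' hbb' => h0 b' hb' (Ne.symm hbb'))
          (fun h => absurd hb h)] at this
      refine ⟨b, hb, fun b' hb' => ?_⟩
      split_ifs with hh
      · rw [← hh]; exact h2
      · exact h0 b' hb' hh
  choose c hcB hcP using hex
  have hP : ∀ b ∈ B, ∀ i, P b i = if c i = b then 1 else 0 := fun b hb i => hcP i b hb
  refine ⟨B, c, hB, hcB, ?_, ?_, ?_, ?_⟩
  · intro b hb
    have h2 := hP b hb b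
    rw [h.one b hb] at h2
    by_contra hne
    rw [if_neg hne] at h2
    exact one_ne_zero h2
  · intro b hb
    obtain ⟨d, hd, p, hp, hpe⟩ := hint b hb
    refine hsat d _ hd ?_
    convert hp using 1
    ext1 i
    have h2 := hpe i
    rw [hP b hb i] at h2
    have h3 : ((d * (if c i = b then 1 else 0) : ℤ) : ℝ) = p i := by
      rw [h2]; push_cast; rfl
    simp only [Pi.smul_apply, smul_eq_mul]
    exact_mod_cast h3
  · intro b hb
    obtain ⟨A, hA⟩ := hX b hb
    refine ⟨A, ?_⟩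
    rw [← hA]
    refine Finset.sum_congr rfl fun i _ => ?_
    rw [hP b hb i]
    split_ifs <;> simp
  · intro Z hZ
    refine h.mem_coset X₀ Z fun b hb => ?_
    obtain ⟨A, hA⟩ := hZ b hb
    obtain ⟨A', hA'⟩ := hX b hb
    refine ⟨A - A', ?_⟩
    rw [hA']
    push_cast
    rw [← hA]
    have : ∑ i, P b i * Z i = ∑ i, (if c i = b then Z i else 0) := by
      refine Finset.sum_congr rfl fun i _ => ?_
      rw [hP b hb i]
      split_ifs <;> simp
    rw [this]
    ring

end main

end Pool.Agent.W432.HK
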