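import Pool.Agent.W432.WB.Descent

set_option autoImplicit false

open Polynomial

namespace Pool.Agent.W432.HK

open Pool.Agent.W432.WB
open Pool.Agent.W432.PC (T Tc T_eq T_monic T_ne T_natDegree Tc_monic Tc_eval_ne Tc_eval_eq_zero
  T_eval_ne T_map Tc_map)

section residue

variable {F : Type*} [Field F] {m : ℕ}

/-- The residues of a logarithmic derivative are integers. -/
lemma res_int {α : Fin m → F} (hα : Function.Injective α) (ν : Fin m → F) {A B : F[X]}
    (hA : A ≠ 0) (hB : B ≠ 0)
    (h : T α * (derivative A * B - A * derivative B) = (∑ j, C (ν j) * Tc α j) * (A * B))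
    (j : Fin m) : ∃ z : ℤ, ν j = z := by
  obtain ⟨A₁, hA1, hA2⟩ := exists_eq_pow_rootMultiplicity_mul_and_not_dvd A hA (α j)
  obtain ⟨B₁, hB1, hB2⟩ := exists_eq_pow_rootMultiplicity_mul_and_not_dvd B hB (α j)
  set a := A.rootMultiplicity (α j)
  set b := B.rootMultiplicity (α j)
  set Y : F[X] := X - C (α j) with hY
  have hY0 : Y ≠ 0 := X_sub_C_ne_zero _
  have hdY : derivative Y = 1 := by simp [hY]
  have hder : ∀ (e : ℕ) (P : F[X]), Y * derivative (Y ^ e * P) =
      Y ^ e * ((e : F[X]) * P + Y * derivative P) := by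
    intro e P
    rw [derivative_mul, derivative_pow, hdY, mul_one]
    rcases e with _ | e
    · simp
    · rw [Nat.add_sub_cancel, C_eq_natCast]
      ring
  have h1 : Tc α j * ((((a : F[X]) * A₁ + Y * derivative A₁) * B₁) -
      A₁ * ((b : F[X]) * B₁ + Y * derivative B₁)) = (∑ j, C (ν j) * Tc α j) * (A₁ * B₁) := by
    have h2 : Y ^ a * Y ^ b ≠ 0 := mul_ne_zero (pow_ne_zero _ hY0) (pow_ne_zero _ hY0)
    apply mul_left_cancel₀ h2
    rw [T_eq j, ← hY] at h
    have h3 := hder a A₁
    have h4 := hder b B₁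
    rw [← hA1] at h3
    rw [← hB1] at h4
    calc Y ^ a * Y ^ b * (Tc α j * ((((a : F[X]) * A₁ + Y * derivative A₁) * B₁) -
        A₁ * ((b : F[X]) * B₁ + Y * derivative B₁)))
        = Tc α j * ((Y ^ a * ((a : F[X]) * A₁ + Y * derivative A₁)) * (Y ^ b * B₁) -
          (Y ^ a * A₁) * (Y ^ b * ((b : F[X]) * B₁ + Y * derivative B₁))) := by ring
      _ = Tc α j * ((Y * derivative A) * B - A * (Y * derivative B)) := by
          rw [← h3, ← h4, ← hA1, ← hB1]
      _ = Y * Tc α j * (derivative A * B - A * derivative B) := by ring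
      _ = (∑ j, C (ν j) * Tc α j) * (A * B) := h
      _ = Y ^ a * Y ^ b * ((∑ j, C (ν j) * Tc α j) * (A₁ * B₁)) := by
          rw [hA1, hB1]
          ring
  have h2 := congrArg (Polynomial.eval (α j)) h1
  simp only [eval_mul, eval_sub, eval_add, eval_natCast, eval_finsetSum, eval_C] at h2
  have hYe : Y.eval (α j) = 0 := by simp [hY]
  rw [hYe] at h2
  have h3 : ∑ i, ν i * (Tc α i).eval (α j) = ν j * (Tc α j).eval (α j) := by
    rw [Finset.sum_eq_single j]
    · intro i _ hij
      rw [Tc_eval_eq_zero hij, mul_zero]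
    · intro h; exact absurd (Finset.mem_univ j) h
  rw [h3] at h2
  have hA3 : A₁.eval (α j) ≠ 0 := fun h0 => hA2 (dvd_iff_isRoot.mpr h0)
  have hB3 : B₁.eval (α j) ≠ 0 := fun h0 => hB2 (dvd_iff_isRoot.mpr h0)
  have hT := Tc_eval_ne hα j
  refine ⟨(a : ℤ) - b, ?_⟩
  push_cast
  have h4 : (Tc α j).eval (α j) * (A₁.eval (α j) * B₁.eval (α j)) * (ν j - (a - b)) = 0 := by
    linear_combination -h2
  have h5 := (mul_eq_zero.mp h4).resolve_left (mul_ne_zero hT (mul_ne_zero hA3 hB3))
  linear_combination h5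

end residue

section abstract

variable {F L : Type*} [Field F] [Field L] [CharZero F] {m n : ℕ} (D : L →+ L)
  (hD : ∀ x y, D (x * y) = x * D y + y * D x) (ι : F →+* L) (x : L) (hx : D x = 1)
  (hι : ∀ c, D (ι c) = 0)

include hD hx hι

omit [CharZero F] in
lemma D_eval (f : F[X]) : D (f.eval₂ ι x) = (derivative f).eval₂ ι x := by
  induction f using Polynomial.induction_on' with
  | add f g hf hg => rw [eval₂_add, map_add, hf, hg, derivative_add, eval₂_add]
  | monomial t a =>
    induction t generalizing a with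
    | zero => simp [hι]
    | succ t ih =>
      have h1 : (monomial (t + 1) a : F[X]) = monomial t a * X := by rw [monomial_mul_X]
      rw [h1, eval₂_mul, eval₂_X, hD, hx, mul_one, ih, derivative_mul, derivative_X, mul_one,
        eval₂_add, eval₂_mul, eval₂_X]
      ring

lemma eval_inj {f : F[X]} (hf : f.eval₂ ι x = 0) : f = 0 := by
  by_contra hne
  induction hd : f.natDegree using Nat.strong_induction_on generalizing f with
  | _ d ih =>
    subst hd
    by_cases h0 : f.natDegree = 0
    · rw [eq_C_of_natDegree_eq_zero h0, eval₂_C] at hf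
      apply hne
      rw [eq_C_of_natDegree_eq_zero h0, (map_eq_zero ι).mp hf, map_zero]
    · have h1 : derivative f ≠ 0 := fun h => h0 (derivative_eq_zero.mp h)
      refine ih _ (natDegree_derivative_lt h0) ?_ h1 rfl
      rw [← D_eval D hD ι x hx hι, hf, map_zero]

/-- Independence of monomial functions over rational functions. -/
lemma indep {α : Fin m → F} (hα : Function.Injective α) (ν : Fin n → Fin m → F) (j₀ : Fin m)
    (hν : ∀ s s', s ≠ s' → ∀ z : ℤ, ν s j₀ - ν s' j₀ ≠ z) (e : Fin n → L)
    (he : ∀ s, (T α).eval₂ ι x * D (e s) = (∑ j, C (ν s j) * Tc α j).eval₂ ι x * e s)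
    (A : Fin n → F[X]) (hA : ∑ s, (A s).eval₂ ι x * e s = 0) : ∀ s, A s = 0 ∨ e s = 0 := by
  classical
  by_contra hcon
  push Not at hcon
  induction hd : (Finset.univ.filter fun s => A s ≠ 0 ∧ e s ≠ 0).card using
    Nat.strong_induction_on generalizing A with
  | _ d ih =>
    subst hd
    obtain ⟨s₁, hs1, hs1'⟩ := hcon
    by_cases h2 : ∃ s₂, s₂ ≠ s₁ ∧ A s₂ ≠ 0 ∧ e s₂ ≠ 0
    · obtain ⟨s₂, h21, hs2, hs2'⟩ := h2
      let P : Fin n → F[X] := fun s => T α * derivative (A s) + (∑ j, C (ν s j) * Tc α j) * A s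
      let A' : Fin n → F[X] := fun s => A s₁ * P s - P s₁ * A s
      have hrel : ∑ s, (A' s).eval₂ ι x * e s = 0 := by
        have h3 := congrArg D hA
        rw [map_zero, map_sum] at h3
        simp only [hD, D_eval D hD ι x hx hι] at h3
        have h4 : ∑ s, (P s).eval₂ ι x * e s = 0 := by
          have h5 : (T α).eval₂ ι x * ∑ s, ((A s).eval₂ ι x * D (e s) +
              e s * (derivative (A s)).eval₂ ι x) = 0 := by rw [h3, mul_zero]
          rw [Finset.mul_sum] at h5
          rw [← h5]
          refine Finset.sum_congr rfl fun s _ => ?_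
          simp only [P, eval₂_add, eval₂_mul]
          linear_combination (-(A s).eval₂ ι x) * he s
        simp only [A', eval₂_sub, eval₂_mul, sub_mul, Finset.sum_sub_distrib, mul_assoc,
          ← Finset.mul_sum]
        rw [h4, hA, mul_zero, mul_zero, sub_zero]
      have hA'1 : A' s₁ = 0 := by simp only [A']; ring
      have hsub : (Finset.univ.filter fun s => A' s ≠ 0 ∧ e s ≠ 0) ⊆
          (Finset.univ.filter fun s => A s ≠ 0 ∧ e s ≠ 0).erase s₁ := by
        intro s hs
        obtain ⟨-, hs3, hs4⟩ := Finset.mem_filter.mp hs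
        refine Finset.mem_erase.mpr ⟨?_, Finset.mem_filter.mpr ⟨Finset.mem_univ _, ?_, hs4⟩⟩
        · rintro rfl; exact hs3 hA'1
        · intro h0
          apply hs3
          simp [A', P, h0]
      have hlt : (Finset.univ.filter fun s => A' s ≠ 0 ∧ e s ≠ 0).card <
          (Finset.univ.filter fun s => A s ≠ 0 ∧ e s ≠ 0).card :=
        lt_of_le_of_lt (Finset.card_le_card hsub) (Finset.card_erase_lt_of_mem
          (Finset.mem_filter.mpr ⟨Finset.mem_univ _, hs1, hs1'⟩))
      have hA'2 : A' s₂ = 0 := by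
        by_contra hne
        exact ih _ hlt A' hrel ⟨s₂, hne, hs2'⟩ rfl
      have h3 : T α * (derivative (A s₂) * A s₁ - A s₂ * derivative (A s₁)) =
          (∑ j, C (ν s₁ j - ν s₂ j) * Tc α j) * (A s₂ * A s₁) := by
        have h4 : ∑ j, C (ν s₁ j - ν s₂ j) * Tc α j =
            ∑ j, C (ν s₁ j) * Tc α j - ∑ j, C (ν s₂ j) * Tc α j := by
          rw [← Finset.sum_sub_distrib]
          exact Finset.sum_congr rfl fun j _ => by rw [C_sub, sub_mul]
        rw [h4]
        simp only [A', P] at hA'2
        linear_combination hA'2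
      obtain ⟨z, hz⟩ := res_int hα _ hs2 hs1 h3 j₀
      exact hν s₁ s₂ (Ne.symm h21) z hz
    · push Not at h2
      have h3 : ∑ s, (A s).eval₂ ι x * e s = (A s₁).eval₂ ι x * e s₁ := by
        rw [Finset.sum_eq_single s₁]
        · intro s _ hs
          by_cases h4 : A s = 0
          · rw [h4, eval₂_zero, zero_mul]
          · rw [h2 s hs h4, mul_zero]
        · intro h; exact absurd (Finset.mem_univ _) h
      rw [h3] at hA
      rcases mul_eq_zero.mp hA with h4 | h4
      · exact hs1 (eval_inj D hD ι x hx hι h4)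
      · exact hs1' h4

/-- Iterated derivatives of monomial functions. -/
lemma iter_mon {α : Fin m → F} (ν : Fin m → ℚ) (E : L)
    (hE : (T α).eval₂ ι x * D E = (∑ j, C ((ν j : ℚ) : F) * Tc α j).eval₂ ι x * E)
    (z : F[X]) (k : ℕ) :
    (T α).eval₂ ι x ^ k * (⇑D)^[k] (E * z.eval₂ ι x) = E * (twist α ν k z).eval₂ ι x := by
  induction k with
  | zero => simp [twist]
  | succ k ih =>
    set t := (T α).eval₂ ι x with htdef
    set Y := (⇑D)^[k] (E * z.eval₂ ι x) with hY
    rw [Function.iterate_succ_apply', ← hY, twist]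
    have h1 := congrArg D ih
    rw [hD, hD, D_eval D hD ι x hx hι] at h1
    have hDt : D (t ^ k) = k * t ^ (k - 1) * (derivative (T α)).eval₂ ι x := by
      rw [htdef, ← eval₂_pow, D_eval D hD ι x hx hι, derivative_pow, eval₂_mul, eval₂_mul,
        eval₂_pow, C_eq_natCast, eval₂_natCast]
    rw [hDt] at h1
    have h2 : t * (k * t ^ (k - 1)) = k * t ^ k := by
      rcases k with _ | k
      · simp
      · rw [Nat.add_sub_cancel]; ring
    simp only [eval₂_add, eval₂_mul, eval₂_sub, eval₂_natCast]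
    rw [← htdef]
    linear_combination t * h1 - (derivative (T α)).eval₂ ι x * Y * h2 +
      (twist α ν k z).eval₂ ι x * hE - k * (derivative (T α)).eval₂ ι x * ih

end abstract

end Pool.Agent.W432.HK
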