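import Pool.Agent.W432.HK.Alg
import Mathlib.RingTheory.Etale.Kaehler
import Mathlib.RingTheory.Etale.Field

set_option autoImplicit false

open Polynomial TensorProduct

namespace Pool.Agent.W432.HK

open Pool.Agent.W432.WB
open Pool.Agent.W432.PC (T Tc T_eq T_monic T_ne T_natDegree Tc_monic Tc_eval_ne Tc_eval_eq_zero
  T_eval_ne T_map Tc_map)

/-- Derivations extend along formally étale algebras. -/
lemma exists_extend (R S T : Type*) [CommRing R] [CommRing S] [CommRing T]
    [Algebra R S] [Algebra R T] [Algebra S T] [IsScalarTower R S T] [Algebra.FormallyEtale S T]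
    (d : Derivation R S T) : ∃ D : Derivation R T T, ∀ s, D (algebraMap S T s) = d s := by
  let f : T ⊗[S] Ω[S⁄R] →ₗ[T] T := LinearMap.liftBaseChange T d.liftKaehlerDifferential
  let g : Ω[T⁄R] →ₗ[T] T :=
    f.comp (KaehlerDifferential.tensorKaehlerEquivOfFormallyEtale R S T).symm.toLinearMap
  refine ⟨g.compDer (KaehlerDifferential.D R T), fun s => ?_⟩
  show g (KaehlerDifferential.D R T (algebraMap S T s)) = d s
  simp only [g, LinearMap.comp_apply, LinearEquiv.coe_coe]
  rw [KaehlerDifferential.tensorKaehlerEquivOfFormallyEtale_symm_D_algebraMap]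
  simp [f]

lemma exists_derivation : ∃ D : Derivation ℚ (AlgebraicClosure (RatFunc ℚ))
    (AlgebraicClosure (RatFunc ℚ)),
    D (algebraMap (RatFunc ℚ) (AlgebraicClosure (RatFunc ℚ)) RatFunc.X) = 1 := by
  have h1 : Algebra.FormallyEtale ℚ[X] (RatFunc ℚ) :=
    Algebra.FormallyEtale.of_isLocalization (nonZeroDivisors ℚ[X])
  have h2 : Algebra.FormallyEtale (RatFunc ℚ) (AlgebraicClosure (RatFunc ℚ)) :=
    Algebra.FormallyEtale.of_isSeparable _ _
  let d : Derivation ℚ ℚ[X] (RatFunc ℚ) :=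
    (Algebra.linearMap ℚ[X] (RatFunc ℚ)).compDer (Polynomial.derivative' (R := ℚ))
  obtain ⟨D₁, hD₁⟩ := exists_extend ℚ ℚ[X] (RatFunc ℚ) d
  let d₂ : Derivation ℚ (RatFunc ℚ) (AlgebraicClosure (RatFunc ℚ)) :=
    (Algebra.linearMap (RatFunc ℚ) (AlgebraicClosure (RatFunc ℚ))).compDer D₁
  obtain ⟨D, hD⟩ := exists_extend ℚ (RatFunc ℚ) (AlgebraicClosure (RatFunc ℚ)) d₂
  refine ⟨D, ?_⟩
  rw [hD]
  show algebraMap _ _ (D₁ RatFunc.X) = 1
  rw [← RatFunc.algebraMap_X, hD₁]
  show algebraMap _ _ (algebraMap ℚ[X] (RatFunc ℚ) (derivative X)) = 1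
  simp

lemma deriv_algebraic {A L : Type*} [Field A] [Algebra ℚ A] [Algebra.IsAlgebraic ℚ A] [Field L]
    [Algebra ℚ L] (D : Derivation ℚ L L) (ι : A →ₐ[ℚ] L) (c : A) : D (ι c) = 0 := by
  have halg : IsIntegral ℚ c := Algebra.IsIntegral.isIntegral c
  have h1 : aeval (ι c) (minpoly ℚ c) = 0 := by
    rw [aeval_algHom_apply, minpoly.aeval, map_zero]
  have h2 := D.map_aeval (minpoly ℚ c) (ι c)
  rw [h1, map_zero, smul_eq_mul] at h2
  have h3 : aeval (ι c) (derivative (minpoly ℚ c)) ≠ 0 := by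
    rw [aeval_algHom_apply]
    intro h0
    have h4 : aeval c (derivative (minpoly ℚ c)) = 0 := (map_eq_zero ι).mp h0
    have h5 := (minpoly.irreducible halg).separable
    exact h5.aeval_derivative_ne_zero (minpoly.aeval ℚ c) h4
  exact (mul_eq_zero.mp h2.symm).resolve_left h3

theorem fullAlg_of_mon {m n : ℕ} (b : Fin (n + 1) → ℤ[X])
    (α : Fin m → AlgebraicClosure ℚ) (Q : Fin (n + 1) → (AlgebraicClosure ℚ)[X])
    (hF : IsFuchs b α Q) (ν : Fin n → Fin m → ℚ) (hmon : ∀ s, HasMonSol α Q (ν s)) (j₀ : Fin m)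
    (hν : ∀ s s', s ≠ s' → ∀ z : ℤ, ν s j₀ - ν s' j₀ ≠ z) : FullAlg b := by
  classical
  obtain ⟨D, hD1⟩ := exists_derivation
  let L := AlgebraicClosure (RatFunc ℚ)
  let F := AlgebraicClosure ℚ
  have halg : Algebra.IsAlgebraic ℚ F := by
    convert AlgebraicClosure.isAlgebraic ℚ
    · rfl
    · exact Subsingleton.elim _ _
  let ι' : F →ₐ[ℚ] L := IsAlgClosed.lift
  let ι : F →+* L := ι'.toRingHom
  let x : L := algebraMap (RatFunc ℚ) L RatFunc.X
  let D' : L →+ L := D.toLinearMap.toAddMonoidHom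
  have hD : ∀ u v, D' (u * v) = u * D' v + v * D' u := fun u v => D.leibniz u v
  have hx : D' x = 1 := hD1
  have hD'1 : D' 1 = 0 := D.map_one_eq_zero
  let Dz : Derivation ℤ (AlgebraicClosure (RatFunc ℚ)) (AlgebraicClosure (RatFunc ℚ)) :=
    { toFun := fun y => D' y
      map_add' := fun u v => D'.map_add u v
      map_smul' := by
        intro z y
        rw [Algebra.smul_def, hD, zsmul_eq_mul, eq_intCast,
          show D' ((z : ℤ) : L) = 0 from D.map_intCast z, mul_zero, add_zero]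
        rfl
      map_one_eq_zero' := hD'1
      leibniz' := fun u v => hD u v }
  have hι : ∀ c, D' (ι c) = 0 := fun c => deriv_algebraic D ι' c
  -- the fractional powers
  choose N hN hNν using fun s : Fin n => (show ∃ N : ℕ, 0 < N ∧ ∀ j, ∃ z : ℤ, (N : ℚ) * ν s j = z by
    refine ⟨∏ j, (ν s j).den, Finset.prod_pos fun j _ => (ν s j).den_pos, fun j => ?_⟩
    refine ⟨(∏ i ∈ Finset.univ.erase j, ((ν s i).den : ℤ)) * (ν s j).num, ?_⟩
    have h1 : (∏ j, (ν s j).den) = (∏ i ∈ Finset.univ.erase j, (ν s i).den) * (ν s j).den :=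
      (Finset.prod_erase_mul _ _ (Finset.mem_univ j)).symm
    rw [h1]
    push_cast
    rw [mul_assoc, Rat.den_mul_eq_num])
  choose μ hμ using hNν
  have hne : ∀ c, x - ι c ≠ 0 := by
    intro c h0
    have h1 := congrArg D' h0
    rw [map_sub, hx, hι, sub_zero, map_zero] at h1
    exact one_ne_zero h1
  have hroot : ∀ s : Fin n, ∀ j, ∃ u : L, u ^ N s = x - ι (α j) := fun s j =>
    IsAlgClosed.exists_pow_nat_eq _ (hN s)
  choose u hu using hroot
  have hu0 : ∀ s j, u s j ≠ 0 := by
    intro s j h0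
    have h1 := hu s j
    rw [h0, zero_pow (hN s).ne'] at h1
    exact hne _ h1.symm
  have hNL : ∀ s, (N s : L) ≠ 0 := fun s => by exact_mod_cast (hN s).ne'
  have hDu : ∀ s j, (x - ι (α j)) * D' (u s j) = u s j / N s := by
    intro s j
    have h1 := congrArg D' (hu s j)
    rw [map_sub, hx, hι, sub_zero] at h1
    have h2 : D' (u s j ^ N s) = N s • u s j ^ (N s - 1) • D' (u s j) :=
      D.leibniz_pow (u s j) (N s)
    rw [h2, nsmul_eq_mul, smul_eq_mul] at h1
    have h3 : u s j ^ N s = u s j * u s j ^ (N s - 1) := by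
      rw [← pow_succ']; congr 1; have := hN s; omega
    rw [← hu s j, h3]
    rw [eq_div_iff (hNL s)]
    linear_combination u s j * h1
  let E : Fin n → L := fun s => ∏ j, u s j ^ μ s j
  have hE0 : ∀ s, E s ≠ 0 := fun s => Finset.prod_ne_zero_iff.mpr fun j _ => zpow_ne_zero _ (hu0 s j)
  -- derivative of the product
  have hDz : ∀ s j, (x - ι (α j)) * D' (u s j ^ μ s j) = ι ((ν s j : ℚ) : F) * u s j ^ μ s j := by
    intro s j
    have h1 : D' (u s j ^ μ s j) = μ s j • u s j ^ (μ s j - 1) • D' (u s j) :=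
      D.leibniz_zpow (u s j) (μ s j)
    rw [h1, zsmul_eq_mul, smul_eq_mul]
    have h2 : ι ((ν s j : ℚ) : F) = (μ s j : L) / N s := by
      rw [map_ratCast]
      rw [eq_div_iff (hNL s)]
      have h3 := hμ s j
      have h4 : ((N s * ν s j : ℚ) : L) = ((μ s j : ℚ) : L) := by rw [h3]
      push_cast at h4
      linear_combination h4
    rw [h2]
    have h3 : u s j ^ μ s j = u s j ^ (μ s j - 1) * u s j := by
      rw [← zpow_add_one₀ (hu0 s j), sub_add_cancel]
    rw [h3]
    linear_combination ((μ s j : L) * u s j ^ (μ s j - 1)) * hDu s j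
  have hTx : (T α).eval₂ ι x = ∏ j, (x - ι (α j)) := by
    unfold T
    rw [eval₂_finsetProd]
    simp
  have hTcx : ∀ j, (Tc α j).eval₂ ι x = ∏ i ∈ Finset.univ.erase j, (x - ι (α i)) := by
    intro j
    unfold Tc
    rw [eval₂_finsetProd]
    simp
  have hT0 : (T α).eval₂ ι x ≠ 0 := by
    rw [hTx]
    exact Finset.prod_ne_zero_iff.mpr fun j _ => hne _
  have hDE : ∀ s, (T α).eval₂ ι x * D' (E s) =
      (∑ j, C ((ν s j : ℚ) : F) * Tc α j).eval₂ ι x * E s := by
    intro s
    have h1 : ∀ S : Finset (Fin m), D' (∏ j ∈ S, u s j ^ μ s j) =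
        (∏ j ∈ S, u s j ^ μ s j) * ∑ j ∈ S, ι ((ν s j : ℚ) : F) / (x - ι (α j)) := by
      intro S
      induction S using Finset.induction_on with
      | empty =>
        simp only [Finset.prod_empty, Finset.sum_empty, mul_zero]
        exact D.map_one_eq_zero
      | insert j S hj ih =>
        rw [Finset.prod_insert hj, Finset.sum_insert hj, hD, ih]
        have h2 : D' (u s j ^ μ s j) = ι ((ν s j : ℚ) : F) * u s j ^ μ s j / (x - ι (α j)) := by
          rw [eq_div_iff (hne _), mul_comm, hDz]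
        rw [h2]
        ring
    rw [h1, eval₂_finsetSum, Finset.sum_mul, Finset.mul_sum, Finset.mul_sum]
    refine Finset.sum_congr rfl fun j _ => ?_
    rw [eval₂_mul, eval₂_C, hTx, hTcx, ← Finset.prod_erase_mul _ _ (Finset.mem_univ j)]
    have h3 := mul_inv_cancel₀ (hne (α j))
    rw [div_eq_mul_inv]
    linear_combination ((∏ i ∈ Finset.univ.erase j, (x - ι (α i))) * (∏ j, u s j ^ μ s j) *
      ι ((ν s j : ℚ) : F)) * h3
  choose z hz0 hz using hmon
  refine ⟨Dz, hD1, fun s => E s * (z s).eval₂ ι x, fun s => ?_, fun c hc hsum => ?_⟩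
  · -- the equation
    have h1 : ∀ k : ℕ, (⇑Dz)^[k] (E s * (z s).eval₂ ι x) =
        E s * (twist α (ν s) k (z s)).eval₂ ι x / (T α).eval₂ ι x ^ k := by
      intro k
      rw [eq_div_iff (pow_ne_zero _ hT0), mul_comm]
      exact iter_mon D' hD ι x hx hι (ν s) (E s) (hDE s) (z s) k
    have h2 : ∀ k : Fin (n + 1), Polynomial.aeval x (b k) =
        ((b k).map (Int.castRingHom F)).eval₂ ι x := by
      intro k
      rw [eval₂_map, aeval_def]
      congr 1
      exact RingHom.ext_int _ _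
    have h3 : ∀ k : Fin (n + 1), (T α).eval₂ ι x ^ (n - (k : ℕ)) *
        ((b k).map (Int.castRingHom F)).eval₂ ι x =
        ((b (Fin.last n)).map (Int.castRingHom F)).eval₂ ι x * (Q k).eval₂ ι x := by
      intro k
      have := congrArg (Polynomial.eval₂ ι x) (hF.eq k)
      rwa [eval₂_mul, eval₂_mul, eval₂_pow] at this
    have h4 : ∑ k : Fin (n + 1), (Q k).eval₂ ι x * (twist α (ν s) k (z s)).eval₂ ι x = 0 := by
      have := congrArg (Polynomial.eval₂ ι x) (hz s)
      rw [eval₂_finsetSum, eval₂_zero] at this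
      simpa only [eval₂_mul] using this
    apply mul_left_cancel₀ (pow_ne_zero n hT0)
    rw [mul_zero, Finset.mul_sum]
    have h5 : ∀ k : Fin (n + 1), (T α).eval₂ ι x ^ n * (Polynomial.aeval x (b k) *
        (⇑Dz)^[(k : ℕ)] (E s * (z s).eval₂ ι x)) =
        E s * ((b (Fin.last n)).map (Int.castRingHom F)).eval₂ ι x *
          ((Q k).eval₂ ι x * (twist α (ν s) k (z s)).eval₂ ι x) := by
      intro k
      rw [h1, h2]
      have h6 : (T α).eval₂ ι x ^ n = (T α).eval₂ ι x ^ (n - (k : ℕ)) *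
          (T α).eval₂ ι x ^ (k : ℕ) := by
        rw [← pow_add]; congr 1; have := k.isLt; omega
      rw [h6]
      have h7 := mul_inv_cancel₀ (pow_ne_zero (k : ℕ) hT0)
      rw [div_eq_mul_inv]
      linear_combination (E s * (twist α (ν s) k (z s)).eval₂ ι x) * h3 k +
        ((T α).eval₂ ι x ^ (n - (k : ℕ)) * ((b k).map (Int.castRingHom F)).eval₂ ι x * E s *
          (twist α (ν s) k (z s)).eval₂ ι x) * h7
    rw [Finset.sum_congr rfl fun k _ => h5 k, ← Finset.mul_sum, h4, mul_zero]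
  · -- independence
    have h1 := indep D' hD ι x hx hι hF.inj (fun s j => ((ν s j : ℚ) : F)) j₀
      (fun s s' hss w hw => hν s s' hss w (by exact_mod_cast hw)) (fun s => c s * E s)
      (fun s => by
        rw [hD, show D' (c s) = 0 from hc s, mul_zero, add_zero]
        linear_combination c s * hDE s) z (by
        rw [← hsum]
        exact Finset.sum_congr rfl fun s _ => by ring)
    intro s
    rcases h1 s with h2 | h2
    · exact absurd h2 (hz0 s)
    · exact (mul_eq_zero.mp h2).resolve_right (hE0 s)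

end Pool.Agent.W432.HK
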