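import Pool.Agent.W432.HK.Abs
import Pool.Agent.W432.TC.Final

set_option autoImplicit false

namespace Pool.Agent.W432.HK

open Pool.Agent.W432.TC

variable {m n : ℕ}

lemma tr_sq (i : ExponentIndex m n) : traceRelation m n i * traceRelation m n i = 1 := by
  rcases i with i | i <;> simp [traceRelation]

lemma tr_sqR (i : ExponentIndex m n) :
    (traceRelation m n i : ℝ) * traceRelation m n i = 1 := by
  exact_mod_cast tr_sq i

/-- Twisting by signs. -/
def twE (m n : ℕ) : (ExponentIndex m n → ℤ) ≃ₗ[ℤ] (ExponentIndex m n → ℤ) where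
  toFun k := fun i => traceRelation m n i * k i
  invFun k := fun i => traceRelation m n i * k i
  map_add' k k' := by ext1 i; simp [mul_add]
  map_smul' c k := by ext1 i; simp only [Pi.smul_apply, smul_eq_mul, RingHom.id_apply]; ring
  left_inv k := by ext1 i; simp only [← mul_assoc, tr_sq, one_mul]
  right_inv k := by ext1 i; simp only [← mul_assoc, tr_sq, one_mul]

/-- The twisted group of relations. -/
def twΛ (Λ : AddSubgroup (ExponentIndex m n → ℤ)) : AddSubgroup (ExponentIndex m n → ℤ) :=
  (Submodule.map (twE m n).toLinearMap (AddSubgroup.toIntSubmodule Λ)).toAddSubgroup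

lemma mem_twΛ {Λ : AddSubgroup (ExponentIndex m n → ℤ)} {k : ExponentIndex m n → ℤ} :
    k ∈ twΛ Λ ↔ twE m n k ∈ Λ := by
  unfold twΛ
  rw [Submodule.mem_toAddSubgroup, Submodule.mem_map]
  constructor
  · rintro ⟨k', hk', rfl⟩
    have : twE m n ((twE m n).toLinearMap k') = k' := (twE m n).left_inv k'
    rw [this]
    exact hk'
  · intro h
    exact ⟨twE m n k, h, (twE m n).left_inv k⟩

lemma finrank_twΛ (Λ : AddSubgroup (ExponentIndex m n → ℤ)) :
    Module.finrank ℤ (AddSubgroup.toIntSubmodule (twΛ Λ)) =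
      Module.finrank ℤ (AddSubgroup.toIntSubmodule Λ) := by
  have h1 : AddSubgroup.toIntSubmodule (twΛ Λ) =
      Submodule.map (twE m n).toLinearMap (AddSubgroup.toIntSubmodule Λ) := by
    ext x; rfl
  rw [h1]
  exact LinearEquiv.finrank_map_eq (twE m n) _

lemma inCoset_tw {Λ : AddSubgroup (ExponentIndex m n → ℤ)} {x₀ : ExponentIndex m n → ℚ}
    {Z : ExponentIndex m n → ℝ} :
    InCoset (twΛ Λ) (fun i => traceRelation m n i * x₀ i) Z ↔
      InCoset Λ x₀ (fun i => traceRelation m n i * Z i) := by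
  constructor
  · intro h k hk
    obtain ⟨z, hz⟩ := h (twE m n k) (mem_twΛ.mpr (by
      have : twE m n (twE m n k) = k := (twE m n).left_inv k
      rw [this]; exact hk))
    refine ⟨z, ?_⟩
    rw [← hz]
    refine Finset.sum_congr rfl fun i _ => ?_
    simp only [twE, LinearEquiv.coe_mk, LinearMap.coe_mk, AddHom.coe_mk]
    push_cast
    linear_combination ((k i : ℝ) * x₀ i) * tr_sqR i
  · intro h k hk
    obtain ⟨z, hz⟩ := h (twE m n k) (mem_twΛ.mp hk)
    refine ⟨z, ?_⟩
    rw [← hz]
    refine Finset.sum_congr rfl fun i _ => ?_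
    simp only [twE, LinearEquiv.coe_mk, LinearMap.coe_mk, AddHom.coe_mk]
    push_cast
    linear_combination (-(k i : ℝ) * Z i) * tr_sqR i

/-- A consequence of the Weyl inequalities. -/
lemma weyl_low (z : ExponentIndex m n → ℝ) (θ : Fin m → ℝ)
    (h1 : ∀ j l, θ j ≤ z (Sum.inl (j, l))) (h2 : ∀ l, z (Sum.inr l) < ∑ j, θ j)
    (hW : Weyl (fun j l => z (Sum.inl (j, l))) (fun l => z (Sum.inr l))) :
    (n : ℝ) ≤ ∑ i, (traceRelation m n i : ℝ) * z i := by
  rw [tr_sum]
  rcases Nat.eq_zero_or_pos n with rfl | hn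
  · simp
  have : Nonempty (Fin n) := ⟨⟨0, hn⟩⟩
  obtain ⟨s, hs⟩ := Finite.exists_max (fun l : Fin n => z (Sum.inr l))
  have h3 := hW θ (z (Sum.inr s)) (h2 s)
  have h4 : ∑ j, ∑ l, nextGe (θ j) (z (Sum.inl (j, l))) ≤ ∑ j, ∑ l, z (Sum.inl (j, l)) := by
    refine Finset.sum_le_sum fun j _ => Finset.sum_le_sum fun l _ => ?_
    unfold nextGe
    have : ⌈θ j - z (Sum.inl (j, l))⌉ ≤ 0 := Int.ceil_le.mpr (by
      have := h1 j l
      push_cast; linarith)
    have h5 : (⌈θ j - z (Sum.inl (j, l))⌉ : ℝ) ≤ 0 := by exact_mod_cast this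
    linarith
  have h5 : ∑ l, (z (Sum.inr l) + 1) ≤ ∑ l, nextGt (z (Sum.inr s)) (z (Sum.inr l)) := by
    refine Finset.sum_le_sum fun l _ => ?_
    unfold nextGt
    have : 0 ≤ ⌊z (Sum.inr s) - z (Sum.inr l)⌋ := Int.floor_nonneg.mpr (by
      have := hs l
      linarith)
    have h5 : (0 : ℝ) ≤ ⌊z (Sum.inr s) - z (Sum.inr l)⌋ := by exact_mod_cast this
    linarith
  rw [Finset.sum_add_distrib, Finset.sum_const, Finset.card_univ, Fintype.card_fin,
    nsmul_eq_mul, mul_one] at h5
  linarith

theorem rank_ge {Λ : AddSubgroup (ExponentIndex m n → ℤ)} {x₀ : ExponentIndex m n → ℚ}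
    (hsat : ∀ (d : ℤ) (k : ExponentIndex m n → ℤ), d ≠ 0 → d • k ∈ Λ → k ∈ Λ)
    (hτ : traceRelation m n ∈ Λ)
    (hW : ∀ z, InCoset Λ x₀ z → WeylBoth z) :
    n ≤ Module.finrank ℤ (AddSubgroup.toIntSubmodule Λ) ∧
    (Module.finrank ℤ (AddSubgroup.toIntSubmodule Λ) ≤ n →
      ∃ σ : Fin m → Fin n → Fin n, (∀ j, Function.Injective (σ j)) ∧
        (∀ l, (Sum.elim (fun p => if p.2 = σ p.1 l then (1 : ℤ) else 0)
          (fun l' => if l' = l then -1 else 0) : ExponentIndex m n → ℤ) ∈ Λ) ∧
        (∀ l, ∃ A : ℤ, ∑ j, (x₀ (Sum.inl (j, σ j l)) : ℝ) - x₀ (Sum.inr l) = A) ∧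
        ∀ z : ExponentIndex m n → ℝ,
          (∀ l, ∃ A : ℤ, ∑ j, z (Sum.inl (j, σ j l)) - z (Sum.inr l) = A) → InCoset Λ x₀ z) := by
  classical
  have hsat' : ∀ (d : ℤ) (k : ExponentIndex m n → ℤ), d ≠ 0 → d • k ∈ twΛ Λ → k ∈ twΛ Λ := by
    intro d k hd h
    rw [mem_twΛ, map_smul] at h
    exact mem_twΛ.mpr (hsat d _ hd h)
  have hone : (1 : ExponentIndex m n → ℤ) ∈ twΛ Λ := by
    rw [mem_twΛ]
    convert hτ using 1
    ext1 i
    simp [twE]
  have hH : ∀ Z, InCoset (twΛ Λ) (fun i => traceRelation m n i * x₀ i) Z → (∀ i, 0 < Z i) →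
      (n : ℝ) ≤ ∑ i, Z i := by
    intro Z hZ hpos
    have h1 := (hW _ (inCoset_tw.mp hZ)).1
    have h2 := weyl_low (fun i => traceRelation m n i * Z i) (fun _ => 0)
      (fun j l => by
        have := hpos (Sum.inl (j, l))
        simp only [traceRelation, Sum.elim_inl, Int.cast_one, one_mul]
        exact this.le)
      (fun l => by
        have := hpos (Sum.inr l)
        simp only [traceRelation, Sum.elim_inr, Finset.sum_const_zero]
        push_cast
        linarith) h1
    refine h2.trans (le_of_eq ?_)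
    refine Finset.sum_congr rfl fun i _ => ?_
    rw [← mul_assoc, tr_sqR, one_mul]
  obtain ⟨hge, hmin⟩ := structure_min hsat' hone hH
  rw [finrank_twΛ] at hge hmin
  refine ⟨hge, fun hle => ?_⟩
  obtain ⟨B, c, hBn, hcB, hcb, hcl, hX, hcos⟩ := hmin hle
  -- the sizes of the classes
  let Nj : Fin m → ExponentIndex m n → ℕ := fun j b =>
    (Finset.univ.filter fun l : Fin n => c (Sum.inl (j, l)) = b).card
  let Ni : ExponentIndex m n → ℕ := fun b =>
    (Finset.univ.filter fun l : Fin n => c (Sum.inr l) = b).card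
  let Nk : ExponentIndex m n → ℕ := fun b =>
    (Finset.univ.filter fun i : ExponentIndex m n => c i = b).card
  have hNjle : ∀ j b, Nj j b ≤ n := fun j b => by
    calc Nj j b ≤ (Finset.univ : Finset (Fin n)).card := Finset.card_le_card (Finset.filter_subset _ _)
      _ = n := by simp
  have hNile : ∀ b, Ni b ≤ n := fun b => by
    calc Ni b ≤ (Finset.univ : Finset (Fin n)).card := Finset.card_le_card (Finset.filter_subset _ _)
      _ = n := by simp
  have hNk : ∀ b ∈ B, 0 < Nk b := fun b hb =>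
    Finset.card_pos.mpr ⟨b, Finset.mem_filter.mpr ⟨Finset.mem_univ b, hcb b hb⟩⟩
  have hsumNj : ∀ j, ∑ b ∈ B, Nj j b = n := by
    intro j
    have := Finset.card_eq_sum_card_fiberwise (s := (Finset.univ : Finset (Fin n))) (t := B)
      (f := fun l => c (Sum.inl (j, l))) (fun l _ => hcB _)
    rw [Finset.card_univ, Fintype.card_fin] at this
    exact this.symm
  have hsumNi : ∑ b ∈ B, Ni b = n := by
    have := Finset.card_eq_sum_card_fiberwise (s := (Finset.univ : Finset (Fin n))) (t := B)
      (f := fun l => c (Sum.inr l)) (fun l _ => hcB _)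
    rw [Finset.card_univ, Fintype.card_fin] at this
    exact this.symm
  have hbal : ∀ j₀, ∀ b ∈ B, Nj j₀ b = Ni b := by
    intro j₀
    set θ : ℝ := 1 / (n + 1) with hθ
    have hn0 : (0 : ℝ) ≤ n := Nat.cast_nonneg _
    have hθ0 : 0 < θ := by positivity
    let g : ExponentIndex m n → ℤ := fun b => (Nj j₀ b : ℤ) - Ni b
    let s : ExponentIndex m n → ℝ := fun b => -(θ * g b) - ⌈-(θ * g b)⌉ + 1
    have hs0 : ∀ b, 0 < s b := fun b => by
      have := Int.ceil_lt_add_one (-(θ * g b))
      simp only [s]; linarith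
    have hs1 : ∀ b, s b ≤ 1 := fun b => by
      have := Int.le_ceil (-(θ * g b))
      simp only [s]; linarith
    let sh : ExponentIndex m n → ℝ :=
      Sum.elim (fun p => if p.1 = j₀ then θ else 0) (fun _ => -θ)
    let Z : ExponentIndex m n → ℝ := fun i => s (c i) / Nk (c i) + sh i
    have hclass : ∀ b ∈ B, ∑ i, (if c i = b then Z i else 0) = s b + θ * g b := by
      intro b hb
      have h1 : ∀ i, (if c i = b then Z i else 0) =
          (if c i = b then s b / Nk b else 0) + (if c i = b then sh i else 0) := by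
        intro i
        split_ifs with h
        · simp only [Z, h]
        · ring
      rw [Finset.sum_congr rfl fun i _ => h1 i, Finset.sum_add_distrib]
      congr 1
      · rw [← Finset.sum_filter, Finset.sum_const, nsmul_eq_mul]
        have : (Nk b : ℝ) ≠ 0 := by exact_mod_cast (hNk b hb).ne'
        show (Nk b : ℝ) * (s b / Nk b) = s b
        field_simp
      · rw [Fintype.sum_sum_type, Fintype.sum_prod_type]
        simp only [sh, Sum.elim_inl, Sum.elim_inr]
        have h2 : ∀ j, ∑ l, (if c (Sum.inl (j, l)) = b then (if j = j₀ then θ else 0) else 0) =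
            if j = j₀ then (Nj j₀ b : ℝ) * θ else 0 := by
          intro j
          by_cases hj : j = j₀
          · subst hj
            simp only [if_true]
            rw [← Finset.sum_filter, Finset.sum_const, nsmul_eq_mul]
          · simp [hj]
        rw [Finset.sum_congr rfl fun j _ => h2 j, Finset.sum_ite_eq', if_pos (Finset.mem_univ _),
          ← Finset.sum_filter, Finset.sum_const, nsmul_eq_mul]
        simp only [g]
        push_cast
        show (Nj j₀ b : ℝ) * θ + (Ni b : ℝ) * -θ = _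
        ring
    have hZc : InCoset (twΛ Λ) (fun i => traceRelation m n i * x₀ i) Z := by
      refine hcos Z fun b hb => ⟨-⌈-(θ * g b)⌉ + 1, ?_⟩
      rw [hclass b hb]
      simp only [s]
      push_cast
      ring
    have hW1 := (hW _ (inCoset_tw.mp hZc)).1
    have hpos : ∀ i, 0 < s (c i) / Nk (c i) := fun i =>
      div_pos (hs0 _) (by exact_mod_cast hNk _ (hcB i))
    have h2 := weyl_low (fun i => traceRelation m n i * Z i) (fun j => if j = j₀ then θ else 0)
      (fun j l => by
        have := hpos (Sum.inl (j, l))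
        simp only [traceRelation, Sum.elim_inl, Int.cast_one, one_mul, Z, sh]
        linarith)
      (fun l => by
        have := hpos (Sum.inr l)
        simp only [traceRelation, Sum.elim_inr, Z, sh, Finset.sum_ite_eq', Finset.mem_univ, if_true]
        push_cast
        linarith) hW1
    have h3 : ∑ i, (traceRelation m n i : ℝ) * (fun i => traceRelation m n i * Z i) i =
        ∑ b ∈ B, s b := by
      have h4 : ∀ i, (traceRelation m n i : ℝ) * (fun i => traceRelation m n i * Z i) i =
          ∑ b ∈ B, (if c i = b then Z i else 0) := by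
        intro i
        rw [Finset.sum_ite_eq, if_pos (hcB i)]
        simp only
        rw [← mul_assoc, tr_sqR, one_mul]
      rw [Finset.sum_congr rfl fun i _ => h4 i, Finset.sum_comm,
        Finset.sum_congr rfl fun b hb => hclass b hb, Finset.sum_add_distrib, ← Finset.mul_sum]
      have h5 : (∑ b ∈ B, (g b : ℝ)) = 0 := by
        have h6 : ∑ b ∈ B, g b = 0 := by
          simp only [g, Finset.sum_sub_distrib]
          have h7 : (∑ b ∈ B, (Nj j₀ b : ℤ)) = n := by exact_mod_cast hsumNj j₀
          have h8 : (∑ b ∈ B, (Ni b : ℤ)) = n := by exact_mod_cast hsumNi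
          rw [h7, h8, sub_self]
        exact_mod_cast h6
      rw [h5, mul_zero, add_zero]
    rw [h3] at h2
    have h4 : ∑ b ∈ B, (1 - s b) = 0 := by
      have h5 : 0 ≤ ∑ b ∈ B, (1 - s b) := Finset.sum_nonneg fun b _ => by linarith [hs1 b]
      have h6 : ∑ b ∈ B, (1 - s b) = B.card - ∑ b ∈ B, s b := by
        rw [Finset.sum_sub_distrib]; simp
      rw [hBn] at h6
      linarith
    intro b hb
    have h5 := (Finset.sum_eq_zero_iff_of_nonneg (fun b _ => by linarith [hs1 b])).mp h4 b hb
    have h6 : θ * g b = ((-⌈-(θ * g b)⌉ : ℤ) : ℝ) := by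
      simp only [s] at h5
      push_cast
      linarith
    set A : ℤ := -⌈-(θ * g b)⌉ with hA
    have h7 : (g b : ℝ) = (n + 1) * A := by
      rw [← h6, hθ]
      field_simp
    have h8 : g b = (n + 1) * A := by exact_mod_cast h7
    have h9 : |g b| ≤ n := by
      have e1 := hNjle j₀ b
      have e2 := hNile b
      rw [abs_le]
      simp only [g]
      constructor <;> omega
    have h10 : A = 0 := by
      by_contra hne
      have h11 : 1 ≤ |A| := Int.one_le_abs hne
      rw [h8, abs_mul] at h9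
      have h12 : |(n : ℤ) + 1| = n + 1 := abs_of_nonneg (by omega)
      rw [h12] at h9
      nlinarith
    rw [h10, mul_zero] at h8
    simp only [g] at h8
    omega
  have hpos : ∀ b ∈ B, 0 < Ni b := by
    intro b hb
    rcases b with ⟨j, l⟩ | l
    · rw [← hbal j _ hb]
      exact Finset.card_pos.mpr ⟨l, Finset.mem_filter.mpr ⟨Finset.mem_univ _, hcb _ hb⟩⟩
    · exact Finset.card_pos.mpr ⟨l, Finset.mem_filter.mpr ⟨Finset.mem_univ _, hcb _ hb⟩⟩
  -- the maps to the classes are bijective
  have hbij : ∀ f : Fin n → ExponentIndex m n, (∀ l, f l ∈ B) →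
      (∀ b ∈ B, ∃ l, f l = b) → Function.Injective f := by
    intro f hf hsurj
    have h1 : Finset.univ.image f = B := by
      ext b
      constructor
      · intro h
        obtain ⟨l, -, rfl⟩ := Finset.mem_image.mp h
        exact hf l
      · intro h
        obtain ⟨l, rfl⟩ := hsurj b h
        exact Finset.mem_image_of_mem f (Finset.mem_univ l)
    have h2 : (Finset.univ.image f).card = (Finset.univ : Finset (Fin n)).card := by
      rw [h1, hBn]; simp
    have h3 := Finset.card_image_iff.mp h2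
    rwa [Finset.coe_univ, Set.injOn_univ] at h3
  have hinf := hbij (fun l => c (Sum.inr l)) (fun l => hcB _) (fun b hb => by
    obtain ⟨l, hl⟩ := Finset.card_pos.mp (hpos b hb)
    exact ⟨l, (Finset.mem_filter.mp hl).2⟩)
  have hfs : ∀ j, ∀ b ∈ B, ∃ l, c (Sum.inl (j, l)) = b := fun j b hb => by
    have h1 : 0 < Nj j b := by rw [hbal j b hb]; exact hpos b hb
    obtain ⟨l, hl⟩ := Finset.card_pos.mp h1
    exact ⟨l, (Finset.mem_filter.mp hl).2⟩
  have hfin := fun j => hbij (fun l => c (Sum.inl (j, l))) (fun l => hcB _) (hfs j)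
  choose σ hσ using fun j l => hfs j (c (Sum.inr l)) (hcB _)
  have hiff : ∀ j l l', c (Sum.inl (j, l')) = c (Sum.inr l) ↔ l' = σ j l := by
    intro j l l'
    constructor
    · intro h
      exact hfin j (h.trans (hσ j l).symm)
    · rintro rfl
      exact hσ j l
  have hiff' : ∀ l l', c (Sum.inr l') = c (Sum.inr l) ↔ l' = l := fun l l' =>
    ⟨fun h => hinf h, fun h => by rw [h]⟩
  have hsumcl : ∀ (Z : ExponentIndex m n → ℝ) (l : Fin n),
      ∑ i, (if c i = c (Sum.inr l) then Z i else 0) =
        ∑ j, Z (Sum.inl (j, σ j l)) + Z (Sum.inr l) := by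
    intro Z l
    rw [Fintype.sum_sum_type, Fintype.sum_prod_type]
    simp only [hiff, hiff', Finset.sum_ite_eq', Finset.mem_univ, if_true]
  refine ⟨σ, fun j l l' h => ?_, fun l => ?_, fun l => ?_, fun z hz => ?_⟩
  · have h1 := hσ j l
    rw [h, hσ j l'] at h1
    exact hinf h1.symm
  · have h1 := hcl (c (Sum.inr l)) (hcB _)
    rw [mem_twΛ] at h1
    convert h1 using 1
    ext1 i
    rcases i with ⟨j, l'⟩ | l'
    · simp [twE, traceRelation, hiff]
    · simp only [twE, traceRelation, hiff', Sum.elim_inr, LinearEquiv.coe_mk, LinearMap.coe_mk,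
        AddHom.coe_mk]
      split_ifs <;> simp
  · obtain ⟨A, hA⟩ := hX (c (Sum.inr l)) (hcB _)
    refine ⟨A, ?_⟩
    rw [← hA, hsumcl (fun i => (((traceRelation m n i : ℚ) * x₀ i : ℚ) : ℝ))]
    simp only [traceRelation, Sum.elim_inl, Sum.elim_inr]
    push_cast
    simp only [one_mul]
    ring
  · have h1 : InCoset (twΛ Λ) (fun i => traceRelation m n i * x₀ i)
        (fun i => traceRelation m n i * z i) := by
      refine hcos _ fun b hb => ?_
      obtain ⟨l, hl⟩ := Finset.card_pos.mp (hpos b hb)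
      obtain ⟨-, hl⟩ := Finset.mem_filter.mp hl
      obtain ⟨A, hA⟩ := hz l
      refine ⟨A, ?_⟩
      rw [← hA, ← hl, hsumcl]
      simp only [traceRelation, Sum.elim_inl, Sum.elim_inr]
      push_cast
      simp only [one_mul]
      ring
    rw [inCoset_tw] at h1
    convert h1 using 1
    ext1 i
    rw [← mul_assoc, tr_sqR, one_mul]

end Pool.Agent.W432.HK
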