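import Pool.Agent.W401.Cheb.Main

set_option autoImplicit false

open Polynomial NumberField

namespace Pool.Agent.W432.HK

open Pool.Agent.W401.Cheb (HasFrob xp infinite_frob)

/-- An irrational algebraic number is not fixed by Frobenius at infinitely many primes, at some
geometric point of any given finitely generated ring. -/
theorem exists_frob_point (S : Finset (AlgebraicClosure ℚ)) (r : AlgebraicClosure ℚ)
    (hr : ∀ q : ℚ, (q : AlgebraicClosure ℚ) ≠ r) (B : ℕ) :
    ∃ (p : ℕ) (_ : Fact p.Prime) (R : Type) (_ : CommRing R) (ι : R →+* AlgebraicClosure ℚ)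
      (φ : R →+* AlgebraicClosure (ZMod p)), B < p ∧ Function.Injective ι ∧
      (∀ x ∈ S, ∃ y, ι y = x) ∧ ∃ r', ι r' = r ∧ φ r' ^ p ≠ φ r' := by
  classical
  have halg : Algebra.IsAlgebraic ℚ (AlgebraicClosure ℚ) := AlgebraicClosure.isAlgebraic ℚ
  have hgal0 : IsGalois ℚ (AlgebraicClosure ℚ) :=
    { to_isSeparable := inferInstance
      to_normal := normal_iff.mpr fun x =>
        ⟨Algebra.IsIntegral.isIntegral x, IsAlgClosed.splits _⟩ }
  let S' : Finset (AlgebraicClosure ℚ) := insert r S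
  let E₀ := FiniteGaloisIntermediateField.adjoin ℚ (S' : Set (AlgebraicClosure ℚ))
  let E : IntermediateField ℚ (AlgebraicClosure ℚ) := E₀.toIntermediateField
  have hmem : ∀ x ∈ S', x ∈ E := fun x hx =>
    FiniteGaloisIntermediateField.subset_adjoin ℚ (S' : Set (AlgebraicClosure ℚ)) hx
  have hfd : FiniteDimensional ℚ E := E₀.finiteDimensional
  have hgal : IsGalois ℚ E := E₀.isGalois
  have hnf : NumberField E := { to_charZero := inferInstance, to_finiteDimensional := hfd }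
  let rE : E := ⟨r, hmem r (Finset.mem_insert_self r S)⟩
  -- a Galois element moving `r`
  obtain ⟨g, hg⟩ : ∃ g : Gal(E/ℚ), g rE ≠ rE := by
    by_contra hno
    push Not at hno
    have h1 : rE ∈ IntermediateField.fixedField (⊤ : Subgroup Gal(E/ℚ)) := by
      rintro ⟨g, -⟩
      exact hno g
    rw [IsGalois.fixedField_top, IntermediateField.mem_bot] at h1
    obtain ⟨q, hq⟩ := h1
    apply hr q
    have h3 := congrArg (fun x : E => (x : AlgebraicClosure ℚ)) hq
    simpa [rE] using h3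
  -- common denominators
  have hden : ∀ x : AlgebraicClosure ℚ, ∃ d : ℤ, d ≠ 0 ∧ IsIntegral ℤ ((d : AlgebraicClosure ℚ) * x) := by
    intro x
    have hx : IsAlgebraic ℚ x := Algebra.IsAlgebraic.isAlgebraic x
    have hx' : IsAlgebraic ℤ x := (IsFractionRing.isAlgebraic_iff ℤ ℚ _).mpr hx
    obtain ⟨d, hd, h⟩ := hx'.exists_integral_multiple
    exact ⟨d, hd, by rwa [zsmul_eq_mul] at h⟩
  choose den hden0 hdeni using hden
  let D : ℤ := ∏ x ∈ S', den x
  have hD0 : D ≠ 0 := Finset.prod_ne_zero_iff.mpr fun x _ => hden0 x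
  have hDi : ∀ x ∈ S', IsIntegral ℤ ((D : AlgebraicClosure ℚ) * x) := by
    intro x hx
    have h1 : (D : AlgebraicClosure ℚ) * x =
        ((∏ y ∈ S'.erase x, den y : ℤ) : AlgebraicClosure ℚ) * ((den x : AlgebraicClosure ℚ) * x) := by
      simp only [D]
      rw [← Finset.mul_prod_erase S' den hx]
      push_cast
      ring
    rw [h1]
    exact (isIntegral_algebraMap (R := ℤ) (x := ∏ y ∈ S'.erase x, den y)).mul (hdeni x)
  have hint : ∀ x (hx : x ∈ S'), ∃ o : 𝓞 E, (o : E) = (D : E) * ⟨x, hmem x hx⟩ := by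
    intro x hx
    have h1 : IsIntegral ℤ ((D : E) * (⟨x, hmem x hx⟩ : E)) := by
      have h2 := hDi x hx
      have h3 : IsIntegral ℤ (algebraMap E (AlgebraicClosure ℚ) ((D : E) * (⟨x, hmem x hx⟩ : E))) := by
        rw [map_mul, map_intCast]
        exact h2
      exact (isIntegral_algebraMap_iff (algebraMap E (AlgebraicClosure ℚ)).injective).mp h3
    exact ⟨⟨_, h1⟩, rfl⟩
  obtain ⟨oR, hoR⟩ := hint r (Finset.mem_insert_self r S)
  -- the difference
  let δ : 𝓞 E := g • oR - oR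
  have hδ : δ ≠ 0 := by
    intro h0
    have h1 : ((g • oR : 𝓞 E) : E) = (oR : E) := by
      have := congrArg (fun x : 𝓞 E => (x : E)) (sub_eq_zero.mp h0)
      exact this
    have h2 : ((g • oR : 𝓞 E) : E) = g ((oR : 𝓞 E) : E) := rfl
    rw [h2, hoR, map_mul, map_intCast] at h1
    have h3 : (D : E) ≠ 0 := by exact_mod_cast hD0
    exact hg (mul_left_cancel₀ h3 h1)
  obtain ⟨M, hM0, hM⟩ : ∃ M : ℤ, M ≠ 0 ∧ ∃ δ' : 𝓞 E, (M : 𝓞 E) = δ * δ' := by
    have h1 : IsAlgebraic ℤ δ := (Algebra.IsIntegral.isIntegral (R := ℤ) δ).isAlgebraic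
    obtain ⟨M, hM0, hM⟩ := h1.exists_nonzero_dvd (mem_nonZeroDivisors_of_ne_zero hδ)
    refine ⟨M, hM0, ?_⟩
    obtain ⟨δ', h⟩ := hM
    exact ⟨δ', by simpa using h⟩
  -- a large prime
  have hinf := infinite_frob E g
  obtain ⟨p, ⟨hp, hxp⟩, hpB⟩ := hinf.exists_gt (max B (max D.natAbs M.natAbs))
  simp only [max_lt_iff] at hpB
  obtain ⟨hpB, hpD, hpM⟩ := hpB
  have hfact : Fact p.Prime := ⟨hp⟩
  have hndvd : ∀ z : ℤ, z ≠ 0 → z.natAbs < p → (z : AlgebraicClosure (ZMod p)) ≠ 0 := by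
    intro z hz hlt h0
    have hch : CharP (AlgebraicClosure (ZMod p)) p :=
      charP_of_injective_algebraMap (algebraMap (ZMod p) _).injective p
    have h1 := (CharP.intCast_eq_zero_iff (AlgebraicClosure (ZMod p)) p z).mp h0
    have h2 := Int.natAbs_dvd_natAbs.mpr h1
    rw [Int.natAbs_natCast] at h2
    have := Nat.le_of_dvd (Int.natAbs_pos.mpr hz) h2
    omega
  obtain ⟨⟨φ₀, hφ₀⟩⟩ : Nonempty {φ : 𝓞 E →+* AlgebraicClosure (ZMod p) // HasFrob p φ g} := by
    unfold xp at hxp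
    rw [dif_pos hp] at hxp
    exact (Nat.card_ne_zero.mp hxp).1
  -- the ring
  let R := Localization.Away (D : 𝓞 E)
  have hDO : (D : 𝓞 E) ≠ 0 := by exact_mod_cast hD0
  have hle : Submonoid.powers (D : 𝓞 E) ≤ nonZeroDivisors (𝓞 E) :=
    powers_le_nonZeroDivisors_of_noZeroDivisors hDO
  have hDu : IsUnit ((algebraMap (𝓞 E) E) (D : 𝓞 E)) := by
    rw [isUnit_iff_ne_zero, map_intCast]
    exact_mod_cast hD0
  have hDu' : IsUnit (φ₀ (D : 𝓞 E)) := by
    rw [isUnit_iff_ne_zero, map_intCast]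
    exact hndvd D hD0 hpD
  let ιE : R →+* E := IsLocalization.Away.lift (D : 𝓞 E) hDu
  let ι : R →+* AlgebraicClosure ℚ := (algebraMap E (AlgebraicClosure ℚ)).comp ιE
  let φ : R →+* AlgebraicClosure (ZMod p) := IsLocalization.Away.lift (D : 𝓞 E) hDu'
  have hιE : ∀ x : 𝓞 E, ιE (algebraMap (𝓞 E) R x) = (x : E) := fun x =>
    IsLocalization.Away.lift_eq _ hDu x
  have hφe : ∀ x : 𝓞 E, φ (algebraMap (𝓞 E) R x) = φ₀ x := fun x =>
    IsLocalization.Away.lift_eq _ hDu' x
  have hιEinj : Function.Injective ιE := by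
    unfold ιE IsLocalization.Away.lift
    rw [IsLocalization.lift_injective_iff]
    intro x y
    constructor
    · intro h
      rw [IsLocalization.injective R hle h]
    · intro h
      have h2 : x = y := RingOfIntegers.coe_injective h
      rw [h2]
  have hel : ∀ x (hx : x ∈ S'), ∃ y : R, ι y = x ∧ ∀ o : 𝓞 E, (o : E) = (D : E) * ⟨x, hmem x hx⟩ →
      algebraMap (𝓞 E) R (D : 𝓞 E) * y = algebraMap (𝓞 E) R o := by
    intro x hx
    obtain ⟨o, ho⟩ := hint x hx
    let dd : Submonoid.powers (D : 𝓞 E) := ⟨(D : 𝓞 E), 1, pow_one _⟩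
    let y : R := IsLocalization.mk' R o dd
    have hy : algebraMap (𝓞 E) R (D : 𝓞 E) * y = algebraMap (𝓞 E) R o :=
      IsLocalization.mk'_spec' R o dd
    refine ⟨y, ?_, fun o' ho' => ?_⟩
    · have h1 := congrArg ιE hy
      rw [map_mul, hιE, hιE, ho] at h1
      have h2 : ((D : 𝓞 E) : E) = (D : E) := by simp
      rw [h2] at h1
      have h3 : (D : E) ≠ 0 := by exact_mod_cast hD0
      have h4 := mul_left_cancel₀ h3 h1
      show algebraMap E (AlgebraicClosure ℚ) (ιE y) = x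
      rw [h4]
      rfl
    · have : o' = o := RingOfIntegers.coe_injective (ho'.trans ho.symm)
      rw [this]
      exact hy
  refine ⟨p, hfact, R, inferInstance, ι, φ, hpB, ?_, ?_, ?_⟩
  · exact (algebraMap E (AlgebraicClosure ℚ)).injective.comp hιEinj
  · intro x hx
    obtain ⟨y, hy, -⟩ := hel x (Finset.mem_insert_of_mem hx)
    exact ⟨y, hy⟩
  · obtain ⟨y, hy, hy2⟩ := hel r (Finset.mem_insert_self r S)
    refine ⟨y, hy, fun hfix => ?_⟩
    have h1 := congrArg φ (hy2 oR hoR)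
    rw [map_mul, hφe, hφe, map_intCast] at h1
    -- Frobenius
    have h2 : φ₀ oR ^ p = φ₀ oR := by
      rw [← h1, mul_pow, hfix]
      congr 1
      have hch : CharP (AlgebraicClosure (ZMod p)) p :=
        charP_of_injective_algebraMap (algebraMap (ZMod p) _).injective p
      have h3 : ((D : ℤ) : AlgebraicClosure (ZMod p)) =
          algebraMap (ZMod p) (AlgebraicClosure (ZMod p)) ((D : ℤ) : ZMod p) := by
        rw [map_intCast]
      rw [h3, ← map_pow, ZMod.pow_card]
    have h3 : φ₀ (g • oR) = φ₀ oR := by rw [hφ₀ oR, h2]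
    have h4 : φ₀ δ = 0 := by
      show φ₀ (g • oR - oR) = 0
      rw [map_sub, h3, sub_self]
    obtain ⟨δ', hδ'⟩ := hM
    have h5 : φ₀ (M : 𝓞 E) = 0 := by rw [hδ', map_mul, h4, zero_mul]
    rw [map_intCast] at h5
    exact hndvd M hM0 hpM h5

end Pool.Agent.W432.HK
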