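import Pool.Agent.W432.HK.Fuchs
import Pool.Agent.W432.HK.Frob

set_option autoImplicit false

open Polynomial

namespace Pool.Agent.W432.HK

open Pool.Agent.W432.PC (T Tc T_eq T_monic T_ne T_natDegree Tc_monic Tc_eval_ne T_map Tc_map)
open Pool.Agent.W432.WB

section factor

variable {F : Type*} [Field F] {n : ℕ}

lemma dsum_top (a : Fin (n + 1) → F) (ha : a (Fin.last n) ≠ 0) :
    (dsum a).natDegree = n ∧ (dsum a).leadingCoeff = a (Fin.last n) := by
  have h1 : (dsum a).natDegree ≤ n := dsum_natDegree_le a fun k hk => by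
    have := k.isLt
    omega
  have h2 : (dsum a).coeff n = a (Fin.last n) := by
    have := dsum_coeff a (Fin.last n) (fun k hk => by
      have h3 : (n : ℕ) < (k : ℕ) := hk
      have := k.isLt
      omega)
    rwa [Fin.val_last] at this
  have h3 : (dsum a).natDegree = n :=
    le_antisymm h1 (le_natDegree_of_ne_zero (by rw [h2]; exact ha))
  exact ⟨h3, by rw [leadingCoeff, h3, h2]⟩

lemma split_rat [IsAlgClosed F] [CharZero F] (P : F[X]) (hdeg : P.natDegree = n)
    (hrat : ∀ r, P ≠ 0 → P.eval r = 0 → ∃ q : ℚ, (q : F) = r) :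
    ∃ lam : Fin n → ℚ, P = C P.leadingCoeff * ∏ l, (X - C ((lam l : ℚ) : F)) := by
  by_cases hP : P = 0
  · exact ⟨fun _ => 0, by rw [hP]; simp⟩
  obtain ⟨l, hl⟩ := Quot.exists_rep P.roots
  have hl' : (l : Multiset F) = P.roots := hl
  have hlen : l.length = n := by
    rw [← hdeg, ← splits_iff_card_roots.mp (IsAlgClosed.splits P), ← hl', Multiset.coe_card]
  subst hlen
  have hroot : ∀ i : Fin l.length, ∃ q : ℚ, (q : F) = l.get i := by
    intro i
    apply hrat _ hP
    have h1 : l.get i ∈ P.roots := by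
      rw [← hl', Multiset.mem_coe]
      exact List.get_mem l i
    rwa [mem_roots hP] at h1
  choose lam hlam using hroot
  refine ⟨lam, ?_⟩
  simp only [hlam]
  have h1 := (IsAlgClosed.splits P).eq_prod_roots
  conv_lhs => rw [h1]
  congr 1
  rw [← hl', Multiset.map_coe, Multiset.prod_coe]
  have h2 : (List.map (fun a => X - C a) l) = List.ofFn (fun i : Fin l.length => X - C (l.get i)) := by
    conv_lhs => rw [← List.ofFn_get l, List.map_ofFn]
    rfl
  rw [h2, List.prod_ofFn]

end factor

section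

variable {m n : ℕ} {b : Fin (n + 1) → ℤ[X]} {α : Fin m → AlgebraicClosure ℚ}
  {Q : Fin (n + 1) → (AlgebraicClosure ℚ)[X]}

/-- All the data needed at a geometric point. -/
theorem frob_data (hb : b (Fin.last n) ≠ 0) (hfull : Cond b) (hF : IsFuchs b α Q)
    (r : AlgebraicClosure ℚ) (hr : ¬ ∃ q : ℚ, (q : AlgebraicClosure ℚ) = r) :
    ∃ (p : ℕ) (_ : Fact p.Prime) (R : Type) (_ : CommRing R) (ι : R →+* AlgebraicClosure ℚ)
      (φ : R →+* AlgebraicClosure (ZMod p)) (α' : Fin m → R) (Q' : Fin (n + 1) → R[X]) (r' : R)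
      (f : Fin n → (AlgebraicClosure (ZMod p))[X]),
      Function.Injective ι ∧ (∀ j, ι (α' j) = α j) ∧ (∀ k, (Q' k).map ι = Q k) ∧ ι r' = r ∧
      φ r' ^ p ≠ φ r' ∧ Function.Injective (fun j => φ (α' j)) ∧
      (∀ j, ∑ k : Fin (n + 1), (b k).map (Int.castRingHom (AlgebraicClosure (ZMod p))) *
        derivative^[(k : ℕ)] (f j) = 0) ∧
      (Matrix.of fun j i : Fin n => derivative^[(i : ℕ)] (f j)).det ≠ 0 ∧
      (∀ y : (AlgebraicClosure (ZMod p))[X],
        ∑ k : Fin (n + 1), (b k).map (Int.castRingHom (AlgebraicClosure (ZMod p))) *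
          derivative^[(k : ℕ)] y = 0 →
        ∑ k : Fin (n + 1), (Q' k).map φ * (T (fun j => φ (α' j)) ^ (k : ℕ) *
          derivative^[(k : ℕ)] y) = 0) := by
  classical
  push Not at hr
  let S : Finset (AlgebraicClosure ℚ) := (Finset.univ.image α) ∪
    (Finset.univ.image fun x : Fin m × Fin m => (α x.1 - α x.2)⁻¹) ∪
    (Finset.univ.biUnion fun k : Fin (n + 1) => (Q k).support.image (Q k).coeff)
  obtain ⟨P, hP⟩ := hfull
  obtain ⟨p, hfact, R, _, ι, φ, hpB, hι, hS, r', hr', hφr⟩ :=
    exists_frob_point S r hr (max P (b (Fin.last n)).leadingCoeff.natAbs)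
  simp only [max_lt_iff] at hpB
  have hα' : ∀ j, ∃ x, ι x = α j := fun j => hS _ (by
    simp only [S, Finset.mem_union, Finset.mem_image, Finset.mem_univ, true_and]
    exact Or.inl (Or.inl ⟨j, rfl⟩))
  choose α' hα' using hα'
  have hinv : ∀ i j, ∃ x, ι x = (α i - α j)⁻¹ := fun i j => hS _ (by
    simp only [S, Finset.mem_union, Finset.mem_image, Finset.mem_univ, true_and]
    exact Or.inl (Or.inr ⟨(i, j), rfl⟩))
  have hQl : ∀ k, ∃ P : R[X], P.map ι = Q k := fun k => exists_lift ι (Q k) fun i hi => hS _ (by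
    simp only [S, Finset.mem_union, Finset.mem_biUnion, Finset.mem_univ, true_and]
    exact Or.inr ⟨k, Finset.mem_image.mpr ⟨i, hi, rfl⟩⟩)
  choose Q' hQ' using hQl
  have hαe : (fun j => ι (α' j)) = α := funext hα'
  have hch : CharP (AlgebraicClosure (ZMod p)) p :=
    charP_of_injective_algebraMap (algebraMap (ZMod p) _).injective p
  have hbK := map_ne_of_large (K := AlgebraicClosure (ZMod p)) hb hpB.2
  obtain ⟨f, hf, hdet⟩ := sols (K := AlgebraicClosure (ZMod p)) (hP p hpB.1 hfact) hbK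
  have hinj : Function.Injective (fun j => φ (α' j)) := by
    intro i j hij
    by_contra hne
    obtain ⟨x, hx⟩ := hinv i j
    have h1 : (α' i - α' j) * x = 1 := by
      apply hι
      rw [map_mul, map_sub, hα', hα', hx, map_one]
      exact mul_inv_cancel₀ (sub_ne_zero.mpr fun h => hne (hF.inj h))
    have h2 := congrArg φ h1
    simp only at hij
    rw [map_mul, map_sub, hij, sub_self, zero_mul, map_one] at h2
    exact zero_ne_one h2
  refine ⟨p, hfact, R, inferInstance, ι, φ, α', Q', r', f, hι, hα', hQ', hr', hφr, hinj, hf,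
    hdet, fun y hy => ?_⟩
  have hcast : ι.comp (Int.castRingHom R) = Int.castRingHom (AlgebraicClosure ℚ) :=
    RingHom.ext_int _ _
  have hcast' : φ.comp (Int.castRingHom R) = Int.castRingHom (AlgebraicClosure (ZMod p)) :=
    RingHom.ext_int _ _
  have hbQ : ∀ k : Fin (n + 1), T α' ^ (n - (k : ℕ)) * (b k).map (Int.castRingHom R) =
      (b (Fin.last n)).map (Int.castRingHom R) * Q' k := by
    intro k
    apply map_injective ι hι
    rw [Polynomial.map_mul, Polynomial.map_mul, Polynomial.map_pow, T_map, Polynomial.map_map,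
      Polynomial.map_map, hcast, hQ', hαe]
    exact hF.eq k
  apply mul_left_cancel₀ hbK
  rw [mul_zero, Finset.mul_sum]
  have h2 := congrArg (fun x => T (fun j => φ (α' j)) ^ n * x) hy
  simp only [mul_zero, Finset.mul_sum] at h2
  rw [← h2]
  refine Finset.sum_congr rfl fun k _ => ?_
  have h4 := congrArg (Polynomial.map φ) (hbQ k)
  rw [Polynomial.map_mul, Polynomial.map_mul, Polynomial.map_pow, T_map, Polynomial.map_map,
    Polynomial.map_map, hcast'] at h4
  have h3 : T (fun j => φ (α' j)) ^ n =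
      T (fun j => φ (α' j)) ^ (k : ℕ) * T (fun j => φ (α' j)) ^ (n - (k : ℕ)) := by
    rw [← pow_add]
    congr 1
    have := k.isLt
    omega
  rw [h3]
  linear_combination (-(T (fun j => φ (α' j)) ^ (k : ℕ) * derivative^[(k : ℕ)] y)) * h4

/-- The exponents at the finite points are rational. -/
theorem loc_rat (hb : b (Fin.last n) ≠ 0) (hfull : Cond b) (hF : IsFuchs b α Q) (j : Fin m)
    (r : AlgebraicClosure ℚ) (hr : (indLoc α Q j).eval r = 0) :
    ∃ q : ℚ, (q : AlgebraicClosure ℚ) = r := by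
  by_contra hcon
  obtain ⟨p, hfact, R, _, ι, φ, α', Q', r', f, hι, hα', hQ', hr', hφr, hinj, hf, hdet, hsol⟩ :=
    frob_data hb hfull hF r hcon
  have hch : CharP (AlgebraicClosure (ZMod p)) p :=
    charP_of_injective_algebraMap (algebraMap (ZMod p) _).injective p
  have hQlast : Q' (Fin.last n) = 1 := by
    apply map_injective ι hι
    rw [hQ', hF.last, Polynomial.map_one]
  have hαe : (fun j => ι (α' j)) = α := funext hα'
  have hQe : (fun k => (Q' k).map ι) = Q := funext hQ'
  -- the value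
  have h1 := loc_point (p := p)
    (b := fun k => (b k).map (Int.castRingHom (AlgebraicClosure (ZMod p)))) hf hdet
    (x₀ := φ (α' j)) (c := fun k => (Q' k).map φ * Tc (fun j => φ (α' j)) j ^ (k : ℕ))
    (fun y hy => by
      rw [← hsol y hy]
      refine Finset.sum_congr rfl fun k _ => ?_
      rw [T_eq (α := fun j => φ (α' j)) j, mul_pow]
      ring) (by
      intro h0
      have h2 := congrFun h0 (Fin.last n)
      simp only [Pi.zero_apply, hQlast, Polynomial.map_one, one_mul, eval_pow] at h2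
      exact pow_ne_zero _ (Tc_eval_ne hinj j) h2)
  obtain ⟨-, h2⟩ := h1
  have h3 : dsum (fun k : Fin (n + 1) =>
      ((Q' k).map φ * Tc (fun j => φ (α' j)) j ^ (k : ℕ)).eval (φ (α' j))) =
      (indLoc α' Q' j).map φ := by
    rw [indLoc_map]
    unfold dsum indLoc
    refine Finset.sum_congr rfl fun k _ => ?_
    simp only
    rw [eval_mul, eval_pow, ← derivative_T_eval (fun j => φ (α' j)) j]
  have h4 : (indLoc α' Q' j).eval r' = 0 := by
    apply hι
    rw [map_zero, ← eval_map_apply, indLoc_map, hαe, hQe, hr']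
    exact hr
  obtain ⟨c, hc⟩ := h2 (φ r') (by
    rw [h3, eval_map_apply, h4, map_zero])
  apply hφr
  rw [← hc, ← map_pow, ZMod.pow_card]

/-- The degrees of the solutions at infinity are rational. -/
theorem inf_rat (hb : b (Fin.last n) ≠ 0) (hfull : Cond b) (hF : IsFuchs b α Q) (hm : 0 < m)
    (r : AlgebraicClosure ℚ) (hr : (indInf m Q).eval r = 0) :
    ∃ q : ℚ, (q : AlgebraicClosure ℚ) = r := by
  by_contra hcon
  obtain ⟨p, hfact, R, _, ι, φ, α', Q', r', f, hι, hα', hQ', hr', hφr, hinj, hf, hdet, hsol⟩ :=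
    frob_data hb hfull hF r hcon
  have hch : CharP (AlgebraicClosure (ZMod p)) p :=
    charP_of_injective_algebraMap (algebraMap (ZMod p) _).injective p
  have hQlast : Q' (Fin.last n) = 1 := by
    apply map_injective ι hι
    rw [hQ', hF.last, Polynomial.map_one]
  have hQe : (fun k => (Q' k).map ι) = Q := funext hQ'
  have hQdeg : ∀ k : Fin (n + 1), ((Q' k).map φ).natDegree ≤ (n - (k : ℕ)) * (m - 1) := by
    intro k
    refine natDegree_map_le.trans ?_
    rw [← natDegree_map_eq_of_injective hι, hQ']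
    exact hF.deg k
  have hcoeff : ∀ k : Fin (n + 1), n * m =
      ((n - (k : ℕ)) * (m - 1)) + ((n - (k : ℕ)) + (k : ℕ) * m) := by
    intro k
    have hk := k.isLt
    obtain ⟨m', rfl⟩ : ∃ m', m = m' + 1 := ⟨m - 1, by omega⟩
    obtain ⟨t, ht⟩ : ∃ t, n = t + (k : ℕ) := ⟨n - k, by omega⟩
    have h1 : n - (k : ℕ) = t := by omega
    rw [h1, Nat.add_sub_cancel]
    conv_lhs => rw [ht]
    ring
  have hTd : ∀ k : Fin (n + 1), (X ^ (n - (k : ℕ)) * T (fun j => φ (α' j)) ^ (k : ℕ)).natDegree =
      (n - (k : ℕ)) + (k : ℕ) * m := by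
    intro k
    rw [natDegree_mul (pow_ne_zero _ X_ne_zero) (pow_ne_zero _ T_ne), natDegree_X_pow,
      natDegree_pow, T_natDegree]
  have hTl : ∀ k : Fin (n + 1), (X ^ (n - (k : ℕ)) * T (fun j => φ (α' j)) ^ (k : ℕ)).coeff
      ((n - (k : ℕ)) + (k : ℕ) * m) = 1 := by
    intro k
    have h1 := ((monic_X_pow (n - (k : ℕ))).mul
      ((T_monic (α := fun j => φ (α' j))).pow (k : ℕ))).coeff_natDegree
    rwa [hTd k] at h1
  have hG : ∀ k : Fin (n + 1), ((Q' k).map φ *
      (X ^ (n - (k : ℕ)) * T (fun j => φ (α' j)) ^ (k : ℕ))).coeff (n * m) =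
      ((Q' k).map φ).coeff ((n - (k : ℕ)) * (m - 1)) := by
    intro k
    rw [hcoeff k, coeff_mul_add_eq_of_natDegree_le (hQdeg k) (hTd k).le, hTl, mul_one]
  have h1 := inf_point (p := p)
    (b := fun k => (b k).map (Int.castRingHom (AlgebraicClosure (ZMod p)))) hf hdet
    (g := fun k => (Q' k).map φ * (X ^ (n - (k : ℕ)) * T (fun j => φ (α' j)) ^ (k : ℕ)))
    (D := n * m)
    (fun k => by
      refine natDegree_mul_le.trans ?_
      rw [hTd, hcoeff k]
      have := hQdeg k
      omega)
    (fun y hy => by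
      have h2 := congrArg (fun x => X ^ n * x) (hsol y hy)
      simp only [mul_zero, Finset.mul_sum] at h2
      rw [← h2]
      refine Finset.sum_congr rfl fun k _ => ?_
      have h3 : (X : (AlgebraicClosure (ZMod p))[X]) ^ n = X ^ (n - (k : ℕ)) * X ^ (k : ℕ) := by
        rw [← pow_add]
        congr 1
        have := k.isLt
        omega
      rw [h3]
      ring) (by
      intro h0
      have h2 := congrFun h0 (Fin.last n)
      simp only [Pi.zero_apply] at h2
      rw [hG, hQlast] at h2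
      simp at h2)
  obtain ⟨-, h2⟩ := h1
  have h3 : dsum (fun k : Fin (n + 1) => ((Q' k).map φ *
      (X ^ (n - (k : ℕ)) * T (fun j => φ (α' j)) ^ (k : ℕ))).coeff (n * m)) =
      (indInf m Q').map φ := by
    rw [indInf_map]
    unfold dsum indInf
    refine Finset.sum_congr rfl fun k _ => ?_
    simp only
    rw [hG]
  have h4 : (indInf m Q').eval r' = 0 := by
    apply hι
    rw [map_zero, ← eval_map_apply, indInf_map, hQe, hr']
    exact hr
  obtain ⟨c, hc⟩ := h2 (φ r') (by
    rw [h3, eval_map_apply, h4, map_zero])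
  apply hφr
  rw [← hc, ← map_pow, ZMod.pow_card]

/-- Katz, Honda: an operator with full bases of rational solutions modulo almost all primes has
rational local exponents. -/
theorem hasExps (hb : b (Fin.last n) ≠ 0) (hfull : Cond b) (hF : IsFuchs b α Q) (hm : 0 < m) :
    ∃ (lam : Fin m → Fin n → ℚ) (phi : Fin n → ℚ), HasExps α Q lam phi := by
  have hloc : ∀ j, ∃ lam : Fin n → ℚ, indLoc α Q j =
      C ((derivative (T α)).eval (α j) ^ n) *
        ∏ l, (X - C ((lam l : ℚ) : AlgebraicClosure ℚ)) := by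
    intro j
    have h1 : indLoc α Q j = dsum (fun k : Fin (n + 1) => (Q k).eval (α j) *
        (derivative (T α)).eval (α j) ^ (k : ℕ)) := rfl
    have h2 := dsum_top (fun k : Fin (n + 1) => (Q k).eval (α j) *
        (derivative (T α)).eval (α j) ^ (k : ℕ)) (by
      rw [hF.last, eval_one, one_mul, derivative_T_eval]
      exact pow_ne_zero _ (Tc_eval_ne hF.inj j))
    rw [← h1] at h2
    obtain ⟨lam, hlam⟩ := split_rat (n := n) (indLoc α Q j) h2.1
      (fun r _ hr => loc_rat hb hfull hF j r hr)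
    refine ⟨lam, ?_⟩
    rw [h2.2, hF.last, eval_one, one_mul, Fin.val_last] at hlam
    exact hlam
  have hinf : ∃ phi : Fin n → ℚ, indInf m Q =
      ∏ l, (X - C ((phi l : ℚ) : AlgebraicClosure ℚ)) := by
    have h1 : indInf m Q = dsum (fun k : Fin (n + 1) =>
        (Q k).coeff ((n - (k : ℕ)) * (m - 1))) := rfl
    have h3 : (Q (Fin.last n)).coeff ((n - ((Fin.last n : Fin (n + 1)) : ℕ)) * (m - 1)) = 1 := by
      rw [hF.last]; simp
    have h2 := dsum_top (fun k : Fin (n + 1) => (Q k).coeff ((n - (k : ℕ)) * (m - 1))) (by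
      rw [h3]; exact one_ne_zero)
    rw [← h1] at h2
    obtain ⟨phi, hphi⟩ := split_rat (n := n) (indInf m Q) h2.1
      (fun r _ hr => inf_rat hb hfull hF hm r hr)
    refine ⟨phi, ?_⟩
    rw [h2.2, h3, map_one, one_mul] at hphi
    exact hphi
  choose lam hlam using hloc
  obtain ⟨phi, hphi⟩ := hinf
  exact ⟨lam, phi, hlam, hphi⟩

end

end Pool.Agent.W432.HK
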