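import Pool.Agent.W432.HK.Gen
import Pool.Agent.W432.HK.Rank
import Pool.Agent.W432.HK.NextMon
import Pool.Agent.W432.HK.Full
import Pool.Agent.W432.HK.Rat

set_option autoImplicit false

open Polynomial

namespace Pool.Agent.W432.HK

open Pool.Agent.W432.WB Pool.Agent.W432.TC

/-- No residue class of primes is eventually bad. -/
def NoBad {n : ℕ} (b : Fin (n + 1) → ℤ[X]) (N : ℕ) : Prop :=
  ∀ a : ℤ, IsCoprime a (N : ℤ) → ¬ ∃ P₀ : ℕ, ∀ p : ℕ, P₀ < p → (N : ℤ) ∣ a * p + 1 →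
    ∀ _hp : Fact p.Prime, ¬ FullMod b p

/-- The exponents of the operators in question. -/
def Xset (m n : ℕ) : Set (ExponentIndex m n → ℚ) :=
  {x | ∃ (b : Fin (n + 1) → ℤ[X]) (α : Fin m → AlgebraicClosure ℚ)
    (Q : Fin (n + 1) → (AlgebraicClosure ℚ)[X]) (N : ℕ), b (Fin.last n) ≠ 0 ∧ IsFuchs b α Q ∧
    HasExps α Q (fun j l => x (Sum.inl (j, l))) (fun l => x (Sum.inr l)) ∧ 0 < N ∧
    (∀ i, ∃ z : ℤ, (N : ℚ) * x i = z) ∧ NoBad b N ∧ ¬ FullAlg b}

variable {m n : ℕ}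

lemma trace_int (hm : 1 ≤ m) (hn : 1 ≤ n) {x : ExponentIndex m n → ℚ} (hx : x ∈ Xset m n) :
    ∃ z : ℤ, ∑ i, (traceRelation m n i : ℚ) * x i = z := by
  obtain ⟨b, α, Q, N, hb, hF, hE, -⟩ := hx
  have htr := fuchs (by omega) hm hF.inj hF.last hF.deg hE.1 hE.2
  refine ⟨-(∑ i, ((cw m n i : ℕ) : ℤ)) + ∑ _l : Fin n, (((n - 1) * (m - 1) : ℕ) : ℤ), ?_⟩
  rw [tr_sum]
  rw [Finset.sum_add_distrib] at htr
  push_cast at htr ⊢
  linarith

lemma near_weyl {y : ExponentIndex m n → ℝ} (he : ∃ e : ℤ, ∑ i, (traceRelation m n i : ℝ) * y i = e)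
    (hW : ¬ WeylBoth y) : ∃ δ : ℝ, 0 < δ ∧ ∀ x : ExponentIndex m n → ℝ,
      (∀ i, ∃ z : ℤ, |x i - y i - z| < δ) → ¬ WeylBoth x := by
  obtain ⟨e, he⟩ := he
  rw [tr_sum] at he
  unfold WeylBoth at hW
  rw [not_and_or] at hW
  rcases hW with hW | hW
  · obtain ⟨δ, hδ, h⟩ := weyl_open _ _ ⟨e, he⟩ hW
    exact ⟨δ, hδ, fun x hx h2 => h _ _ (fun j l => hx _) (fun l => hx _) h2.1⟩
  · obtain ⟨δ, hδ, h⟩ := weyl_open _ _ ⟨-e, by
      simp only [Finset.sum_neg_distrib]; push_cast; rw [← he]; ring⟩ hW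
    refine ⟨δ, hδ, fun x hx h2 => ?_⟩
    refine h _ _ (fun j l => ?_) (fun l => ?_) h2.2
    · obtain ⟨z', hz'⟩ := hx (Sum.inl (j, l))
      refine ⟨-z', ?_⟩
      push_cast
      rw [← abs_neg]
      convert hz' using 2
      ring
    · obtain ⟨z', hz'⟩ := hx (Sum.inr l)
      refine ⟨-z', ?_⟩
      push_cast
      rw [← abs_neg]
      convert hz' using 2
      ring

/-- Conjugates of exponents in the set satisfy the Weyl inequalities. -/
lemma conj_weyl (hm : 1 ≤ m) {x : ExponentIndex m n → ℚ} (hx : x ∈ Xset m n) :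
    ∃ N : ℕ, 0 < N ∧ (∀ i, ∃ z : ℤ, (N : ℚ) * x i = z) ∧
      ∀ a : ℤ, IsCoprime a (N : ℤ) → WeylBoth (fun i => (a : ℝ) * x i) := by
  obtain ⟨b, α, Q, N, hb, hF, hE, hN, hNx, hbad, -⟩ := hx
  refine ⟨N, hN, hNx, ?_⟩
  have key : ∀ a : ℤ, IsCoprime a (N : ℤ) → Weyl (fun j l => (a : ℝ) * x (Sum.inl (j, l)))
      (fun l => (a : ℝ) * x (Sum.inr l)) := by
    intro a ha
    by_contra hW
    unfold Weyl at hW
    push Not at hW
    obtain ⟨v, w, hvw, hlt⟩ := hW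
    exact hbad a ha (weyl_next_op hm b hb α Q hF _ _ hE N hN (fun j l => hNx _)
      (fun l => hNx _) a v w hvw hlt)
  intro a ha
  refine ⟨key a ha, ?_⟩
  have h1 := key (-a) ha.neg_left
  push_cast at h1
  simp only [neg_mul] at h1
  exact h1

/-- A point of a coset of rank `n` at which the rank one part number `s` is forced. -/
lemma mon_at (hm : 1 ≤ m) {x : ExponentIndex m n → ℚ}
    {b : Fin (n + 1) → ℤ[X]} {α : Fin m → AlgebraicClosure ℚ}
    {Q : Fin (n + 1) → (AlgebraicClosure ℚ)[X]} {N : ℕ} (hb : b (Fin.last n) ≠ 0)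
    (hF : IsFuchs b α Q)
    (hE : HasExps α Q (fun j l => x (Sum.inl (j, l))) (fun l => x (Sum.inr l))) (hN : 0 < N)
    (hNx : ∀ i, ∃ z : ℤ, (N : ℚ) * x i = z) (hbad : NoBad b N)
    (σ : Fin m → Fin n → Fin n) (hσ : ∀ j, Function.Injective (σ j))
    (hx : ∀ l, ∃ A : ℤ, ∑ j, (x (Sum.inl (j, σ j l)) : ℝ) - x (Sum.inr l) = A) (s : Fin n)
    (y : ExponentIndex m n → ℝ) (δ : ℝ) (hδ1 : (m + 1 : ℕ) * δ ≤ 1)
    (hy0 : ∀ j, y (Sum.inl (j, σ j s)) = 0) (hy0' : y (Sum.inr s) = 0)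
    (hy1 : ∀ j l, l ≠ σ j s → 2 * δ ≤ y (Sum.inl (j, l)) ∧ y (Sum.inl (j, l)) + 2 * δ ≤ 1)
    (hy2 : ∀ l, l ≠ s → y (Sum.inr l) + 2 * δ ≤ 0)
    (hy3 : ∀ l, l ≠ s → ∑ j, y (Sum.inl (j, σ j l)) - y (Sum.inr l) = 1)
    (a : ℤ) (ha : IsCoprime a (N : ℤ)) (hnear : ∀ i, ∃ z : ℤ, |(a : ℝ) * x i - y i - z| < δ) :
    HasMonSol α Q (fun j => x (Sum.inl (j, σ j s))) ∧
      ∀ j l, l ≠ σ j s → ∀ z : ℤ, x (Sum.inl (j, l)) - x (Sum.inl (j, σ j s)) ≠ z := by
  classical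
  choose e he using hnear
  let Z : ExponentIndex m n → ℝ := fun i => (a : ℝ) * x i - e i
  have hZ : ∀ i, |Z i - y i| < δ := fun i => by
    have := he i
    simp only [Z]
    rwa [show (a : ℝ) * x i - e i - y i = (a : ℝ) * x i - y i - e i by ring]
  -- the class sums
  have hcls : ∀ l, ∑ j, Z (Sum.inl (j, σ j l)) - Z (Sum.inr l) = if l = s then 0 else 1 := by
    intro l
    obtain ⟨A, hA⟩ := hx l
    have h1 : ∑ j, Z (Sum.inl (j, σ j l)) - Z (Sum.inr l) =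
        ((a * A - ∑ j, e (Sum.inl (j, σ j l)) + e (Sum.inr l) : ℤ) : ℝ) := by
      simp only [Z, Finset.sum_sub_distrib, ← Finset.mul_sum]
      push_cast
      rw [← hA]
      ring
    have h2 : ∑ j, y (Sum.inl (j, σ j l)) - y (Sum.inr l) = (((if l = s then 0 else 1 : ℤ)) : ℝ) := by
      split_ifs with h
      · subst h; simp [hy0, hy0']
      · rw [hy3 l h]; simp
    have h3 : |(∑ j, Z (Sum.inl (j, σ j l)) - Z (Sum.inr l)) -
        (∑ j, y (Sum.inl (j, σ j l)) - y (Sum.inr l))| < 1 := by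
      have h4 : (∑ j, Z (Sum.inl (j, σ j l)) - Z (Sum.inr l)) -
          (∑ j, y (Sum.inl (j, σ j l)) - y (Sum.inr l)) =
          ∑ j, (Z (Sum.inl (j, σ j l)) - y (Sum.inl (j, σ j l))) -
            (Z (Sum.inr l) - y (Sum.inr l)) := by
        have h5 : ∑ j, (Z (Sum.inl (j, σ j l)) - y (Sum.inl (j, σ j l))) =
            ∑ j, Z (Sum.inl (j, σ j l)) - ∑ j, y (Sum.inl (j, σ j l)) :=
          Finset.sum_sub_distrib _ _
        rw [h5]; ring
      rw [h4]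
      calc |∑ j, (Z (Sum.inl (j, σ j l)) - y (Sum.inl (j, σ j l))) -
            (Z (Sum.inr l) - y (Sum.inr l))|
          ≤ |∑ j, (Z (Sum.inl (j, σ j l)) - y (Sum.inl (j, σ j l)))| +
            |Z (Sum.inr l) - y (Sum.inr l)| := abs_sub _ _
        _ < ∑ _j : Fin m, δ + δ := by
            refine add_lt_add_of_le_of_lt ?_ (hZ _)
            refine (Finset.abs_sum_le_sum_abs _ _).trans (Finset.sum_le_sum fun j _ => (hZ _).le)
        _ ≤ 1 := by
            rw [Finset.sum_const, Finset.card_univ, Fintype.card_fin, nsmul_eq_mul]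
            push_cast at hδ1
            linarith
    rw [h1, h2] at h3
    rw [h1]
    have h4 : |(a * A - ∑ j, e (Sum.inl (j, σ j l)) + e (Sum.inr l)) -
        (if l = s then 0 else 1 : ℤ)| < 1 := by exact_mod_cast h3
    have h5 := Int.abs_lt_one_iff.mp h4
    have h6 : (a * A - ∑ j, e (Sum.inl (j, σ j l)) + e (Sum.inr l)) =
        (if l = s then 0 else 1 : ℤ) := by linarith
    rw [h6]
    split_ifs <;> simp
  have hδ0 : 0 < δ := lt_of_le_of_lt (abs_nonneg _) (hZ (Sum.inr s))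
  have hv : ∀ j l, Z (Sum.inl (j, σ j s)) ≤ Z (Sum.inl (j, l)) := by
    intro j l
    by_cases h : l = σ j s
    · rw [h]
    · have h1 := abs_lt.mp (hZ (Sum.inl (j, l)))
      have h2 := abs_lt.mp (hZ (Sum.inl (j, σ j s)))
      have h3 := (hy1 j l h).1
      rw [hy0 j] at h2
      linarith
  have hw : ∀ l, Z (Sum.inr l) ≤ Z (Sum.inr s) := by
    intro l
    by_cases h : l = s
    · rw [h]
    · have h1 := abs_lt.mp (hZ (Sum.inr l))
      have h2 := abs_lt.mp (hZ (Sum.inr s))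
      have h3 := hy2 l h
      rw [hy0'] at h2
      linarith
  have hdiff : ∀ j l, l ≠ σ j s → ∀ z : ℤ, Z (Sum.inl (j, l)) - Z (Sum.inl (j, σ j s)) ≠ z := by
    intro j l h z hz
    have h1 := abs_lt.mp (hZ (Sum.inl (j, l)))
    have h2 := abs_lt.mp (hZ (Sum.inl (j, σ j s)))
    have h3 := hy1 j l h
    rw [hy0 j] at h2
    have h4 : (0 : ℝ) < z := by rw [← hz]; linarith
    have h5 : (z : ℝ) < 1 := by rw [← hz]; linarith
    have h6 : 0 < z := by exact_mod_cast h4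
    have h7 : z < 1 := by exact_mod_cast h5
    omega
  have hsub : ∀ j l, l ≠ σ j s → ∀ z : ℤ, x (Sum.inl (j, l)) - x (Sum.inl (j, σ j s)) ≠ z := by
    intro j l h z hz
    apply hdiff j l h (a * z - e (Sum.inl (j, l)) + e (Sum.inl (j, σ j s)))
    simp only [Z]
    push_cast
    have hz' : (x (Sum.inl (j, l)) : ℝ) - x (Sum.inl (j, σ j s)) = z := by
      have := congrArg (fun q : ℚ => (q : ℝ)) hz
      push_cast at this
      exact this
    rw [← hz']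
    ring
  refine ⟨?_, hsub⟩
  have hlt : ∑ j, ∑ l, nextGe (Z (Sum.inl (j, σ j s))) ((a : ℝ) * x (Sum.inl (j, l))) <
      ∑ l, nextGt (Z (Sum.inr s)) ((a : ℝ) * x (Sum.inr l)) := by
    have h1 : ∀ j l, nextGe (Z (Sum.inl (j, σ j s))) ((a : ℝ) * x (Sum.inl (j, l))) ≤
        Z (Sum.inl (j, l)) := by
      intro j l
      have h2 : (a : ℝ) * x (Sum.inl (j, l)) = Z (Sum.inl (j, l)) + (e (Sum.inl (j, l)) : ℤ) := by
        simp only [Z]; ring
      rw [h2, nextGe_add_int]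
      unfold nextGe
      have h3 : ⌈Z (Sum.inl (j, σ j s)) - Z (Sum.inl (j, l))⌉ ≤ 0 := Int.ceil_le.mpr (by
        have := hv j l
        push_cast; linarith)
      have h5 : (⌈Z (Sum.inl (j, σ j s)) - Z (Sum.inl (j, l))⌉ : ℝ) ≤ 0 := by exact_mod_cast h3
      linarith
    have h2 : ∀ l, Z (Sum.inr l) + 1 ≤ nextGt (Z (Sum.inr s)) ((a : ℝ) * x (Sum.inr l)) := by
      intro l
      have h2 : (a : ℝ) * x (Sum.inr l) = Z (Sum.inr l) + (e (Sum.inr l) : ℤ) := by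
        simp only [Z]; ring
      rw [h2, nextGt_add_int]
      unfold nextGt
      have h3 : 0 ≤ ⌊Z (Sum.inr s) - Z (Sum.inr l)⌋ := Int.floor_nonneg.mpr (by
        have := hw l
        linarith)
      have h5 : (0 : ℝ) ≤ ⌊Z (Sum.inr s) - Z (Sum.inr l)⌋ := by exact_mod_cast h3
      linarith
    have h3 : ∑ j, ∑ l, Z (Sum.inl (j, l)) - ∑ l, Z (Sum.inr l) = n - 1 := by
      have h4 : ∀ j, ∑ l, Z (Sum.inl (j, l)) = ∑ l, Z (Sum.inl (j, σ j l)) := by
        intro j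
        have hbij : Function.Bijective (σ j) := Finite.injective_iff_bijective.mp (hσ j)
        exact (Function.Bijective.sum_comp hbij (fun l => Z (Sum.inl (j, l)))).symm
      rw [Finset.sum_congr rfl fun j _ => h4 j, Finset.sum_comm, ← Finset.sum_sub_distrib,
        Finset.sum_congr rfl fun l _ => hcls l]
      have h5 : ∀ l : Fin n, (if l = s then (0 : ℝ) else 1) = 1 - if l = s then 1 else 0 := by
        intro l; split_ifs <;> ring
      rw [Finset.sum_congr rfl fun l _ => h5 l, Finset.sum_sub_distrib, Finset.sum_ite_eq',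
        if_pos (Finset.mem_univ _)]
      simp
    calc ∑ j, ∑ l, nextGe (Z (Sum.inl (j, σ j s))) ((a : ℝ) * x (Sum.inl (j, l)))
        ≤ ∑ j, ∑ l, Z (Sum.inl (j, l)) :=
          Finset.sum_le_sum fun j _ => Finset.sum_le_sum fun l _ => h1 j l
      _ < ∑ l, (Z (Sum.inr l) + 1) := by
          rw [Finset.sum_add_distrib, Finset.sum_const, Finset.card_univ, Fintype.card_fin,
            nsmul_eq_mul, mul_one]
          linarith
      _ ≤ _ := Finset.sum_le_sum fun l _ => h2 l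
  have hsum := hcls s
  rw [if_pos rfl] at hsum
  rcases weyl_next_mon hm b hb α Q hF _ _ hE N hN (fun j l => hNx _)
      (fun l => hNx _) a (fun j => Z (Sum.inl (j, σ j s))) (Z (Sum.inr s)) (by linarith) hlt with
    h | ⟨κ, hκ, hmon⟩
  · exact absurd h (hbad a ha)
  · have hκσ : ∀ j, κ j = σ j s := by
      intro j
      by_contra hne
      obtain ⟨z, hz⟩ := hκ j
      apply hdiff j (κ j) hne (z - e (Sum.inl (j, κ j)))
      simp only [Z] at hz ⊢
      push_cast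
      rw [hz]
      ring
    simpa only [hκσ] using hmon

/-- The torsion coset theorem. -/
theorem cosets_main (hm : 1 ≤ m) (hn : 1 ≤ n) :
    ∃ 𝒟 : Finset (AddSubgroup (ExponentIndex m n → ℤ) × (ExponentIndex m n → ℚ)),
      (∀ C ∈ 𝒟, (∀ (d : ℤ) (k : ExponentIndex m n → ℤ), d ≠ 0 → d • k ∈ C.1 → k ∈ C.1) ∧
        traceRelation m n ∈ C.1 ∧ n + 1 ≤ Module.finrank ℤ (AddSubgroup.toIntSubmodule C.1) ∧
        ∀ z, InCoset C.1 C.2 z → WeylBoth z) ∧
      ∀ x ∈ Xset m n, ∃ C ∈ 𝒟, InCoset C.1 C.2 (fun i => (x i : ℝ)) := by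
  classical
  obtain ⟨𝒟, h𝒟, hcov⟩ := general_cosets (Xset m n)
  refine ⟨𝒟, fun C hC => ?_, hcov⟩
  obtain ⟨hsat, hgen, hCX, happ⟩ := h𝒟 C hC
  have hτ : traceRelation m n ∈ C.1 := hgen _ fun x hx => trace_int hm hn hx
  -- the Weyl inequalities on the whole coset
  have hW : ∀ z, InCoset C.1 C.2 z → WeylBoth z := by
    intro z hz
    by_contra hbad
    have he : ∃ e : ℤ, ∑ i, (traceRelation m n i : ℝ) * z i = e := by
      obtain ⟨e', he'⟩ := hz _ hτ
      obtain ⟨e, he⟩ := trace_int hm hn hCX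
      have he2 : ∑ i, (traceRelation m n i : ℝ) * (C.2 i : ℝ) = e := by
        have := congrArg (fun q : ℚ => (q : ℝ)) he
        push_cast at this
        exact this
      refine ⟨e' + e, ?_⟩
      push_cast
      rw [← he', ← he2, ← Finset.sum_add_distrib]
      exact Finset.sum_congr rfl fun i _ => by ring
    obtain ⟨δ, hδ, hδW⟩ := near_weyl he hbad
    obtain ⟨x, hxX, -, hxa⟩ := happ 1 (fun _ => z) (fun _ => hz) δ hδ
    obtain ⟨N, hN, hNx, hxW⟩ := conj_weyl hm hxX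
    obtain ⟨a, ha, hnear⟩ := hxa 0 N hN hNx
    exact hδW _ hnear (hxW a ha)
  refine ⟨hsat, hτ, ?_, hW⟩
  obtain ⟨hge, hmin⟩ := rank_ge hsat hτ hW
  by_contra hlt
  obtain ⟨σ, hσ, hres, hx0, hmem⟩ := hmin (by omega)
  -- the points
  have hm0 : (0 : ℝ) < m := by exact_mod_cast hm
  have hn0 : (0 : ℝ) < n := by exact_mod_cast hn
  let ρ : Fin m → (Fin n ≃ Fin n) := fun j =>
    Equiv.ofBijective (σ j) (Finite.injective_iff_bijective.mp (hσ j))
  have hρ : ∀ j l, (ρ j).symm (σ j l) = l := fun j l => (ρ j).symm_apply_apply l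
  have hρ' : ∀ j l, σ j ((ρ j).symm l) = l := fun j l => (ρ j).apply_symm_apply l
  let t : Fin n → Fin n → ℝ := fun s l => if l = s then 0 else ((l : ℕ) + 1) / (m * (n + 2))
  let y : Fin n → ExponentIndex m n → ℝ := fun s =>
    Sum.elim (fun p => t s ((ρ p.1).symm p.2)) (fun l => if l = s then 0 else m * t s l - 1)
  set δ : ℝ := 1 / (4 * (m + 1) * (n + 2)) with hδ
  have hδ0 : 0 < δ := by positivity
  have hts : ∀ s, t s s = 0 := fun s => by simp [t]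
  have hmn : (0 : ℝ) < m * (n + 2) := by positivity
  have hm1 : (1 : ℝ) ≤ m := by exact_mod_cast hm
  have h2δ : 2 * δ ≤ 1 / (m * (n + 2)) := by
    rw [hδ, mul_one_div, div_le_div_iff₀ (by positivity) hmn]
    nlinarith
  have h2δ' : 2 * δ ≤ 1 / (n + 2) := by
    rw [hδ, mul_one_div, div_le_div_iff₀ (by positivity) (by positivity)]
    nlinarith
  have ht1 : ∀ s l, l ≠ s → 1 / (m * (n + 2)) ≤ t s l ∧ m * t s l ≤ n / (n + 2) ∧
      t s l ≤ n / (n + 2) := by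
    intro s l h
    have hl : (l : ℝ) + 1 ≤ n := by
      have := l.isLt
      exact_mod_cast this
    have hl0 : (0 : ℝ) ≤ l := Nat.cast_nonneg _
    have h3 : m * t s l ≤ n / (n + 2) := by
      simp only [t, if_neg h]
      rw [mul_div_assoc', div_le_div_iff₀ hmn (by positivity)]
      nlinarith [mul_le_mul_of_nonneg_left hl (by positivity : (0 : ℝ) ≤ m * (n + 2))]
    have h4 : 1 / (m * (n + 2)) ≤ t s l := by
      simp only [t, if_neg h]
      rw [div_le_div_iff_of_pos_right hmn]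
      linarith
    refine ⟨h4, h3, ?_⟩
    have h5 : 0 ≤ t s l := le_trans (by positivity) h4
    nlinarith
  have hy3 : ∀ s l, ∑ j, y s (Sum.inl (j, σ j l)) - y s (Sum.inr l) = if l = s then 0 else 1 := by
    intro s l
    simp only [y, Sum.elim_inl, Sum.elim_inr, hρ, Finset.sum_const, Finset.card_univ,
      Fintype.card_fin, nsmul_eq_mul]
    split_ifs with h
    · rw [h, hts]; ring
    · ring
  have hyC : ∀ s, InCoset C.1 C.2 (y s) := fun s => hmem _ fun l => by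
    rw [hy3]
    exact ⟨if l = s then 0 else 1, by split_ifs <;> simp⟩
  obtain ⟨x, hxX, hxC, hxa⟩ := happ n y hyC δ hδ0
  have hxcl : ∀ l, ∃ A : ℤ, ∑ j, (x (Sum.inl (j, σ j l)) : ℝ) - x (Sum.inr l) = A := by
    intro l
    obtain ⟨A, hA⟩ := hxC _ (hres l)
    obtain ⟨A', hA'⟩ := hx0 l
    refine ⟨A + A', ?_⟩
    push_cast
    rw [← hA, ← hA', Fintype.sum_sum_type, Fintype.sum_prod_type]
    simp only [Sum.elim_inl, Sum.elim_inr]
    push_cast
    simp only [ite_mul, one_mul, zero_mul, neg_mul, Finset.sum_ite_eq', Finset.mem_univ, if_true,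
      Finset.sum_sub_distrib]
    ring
  obtain ⟨b, α, Q, N, hb, hF, hE, hN, hNx, hbad, hnot⟩ := hxX
  have key : ∀ s, HasMonSol α Q (fun j => x (Sum.inl (j, σ j s))) ∧
      ∀ j l, l ≠ σ j s → ∀ z : ℤ, x (Sum.inl (j, l)) - x (Sum.inl (j, σ j s)) ≠ z := by
    intro s
    obtain ⟨a, ha, hnear⟩ := hxa s N hN hNx
    have hl' : ∀ j l, l ≠ σ j s → (ρ j).symm l ≠ s := fun j l h h' => h (by rw [← h', hρ'])
    have hfrac : (n : ℝ) / (n + 2) + 1 / (n + 2) ≤ 1 := by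
      rw [← add_div, div_le_one (by positivity)]
      linarith
    refine mon_at hm hb hF hE hN hNx hbad σ hσ hxcl s (y s) δ ?_ ?_ ?_ ?_ ?_ ?_ a ha hnear
    · rw [hδ]
      push_cast
      rw [mul_one_div, div_le_one (by positivity)]
      nlinarith
    · intro j
      simp only [y, Sum.elim_inl, hρ, hts]
    · simp [y]
    · intro j l h
      have h1 := ht1 s _ (hl' j l h)
      simp only [y, Sum.elim_inl]
      constructor <;> linarith
    · intro l h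
      have h1 := ht1 s l h
      simp only [y, Sum.elim_inr, if_neg h]
      linarith
    · intro l h
      rw [hy3, if_neg h]
  apply hnot
  refine fullAlg_of_mon b α Q hF (fun s j => x (Sum.inl (j, σ j s))) (fun s => (key s).1)
    ⟨0, hm⟩ fun s s' hss z => ?_
  exact (key s').2 _ _ (fun h => hss (hσ _ h)) z

/-- The torsion coset theorem for all operators. -/
theorem cosets_final (hm : 1 ≤ m) (hn : 1 ≤ n) :
    ∃ 𝒟 : Finset (AddSubgroup (ExponentIndex m n → ℤ) × (ExponentIndex m n → ℚ)),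
      (∀ C ∈ 𝒟, (∀ (d : ℤ) (k : ExponentIndex m n → ℤ), d ≠ 0 → d • k ∈ C.1 → k ∈ C.1) ∧
        traceRelation m n ∈ C.1 ∧ n + 1 ≤ Module.finrank ℤ (AddSubgroup.toIntSubmodule C.1) ∧
        ∀ z, InCoset C.1 C.2 z → WeylBoth z) ∧
      (∀ (b : Fin (n + 1) → ℤ[X]) (α : Fin m → AlgebraicClosure ℚ)
        (Q : Fin (n + 1) → (AlgebraicClosure ℚ)[X]) (lam : Fin m → Fin n → ℚ) (phi : Fin n → ℚ)
        (N : ℕ), b (Fin.last n) ≠ 0 → IsFuchs b α Q → HasExps α Q lam phi → 0 < N →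
        (∀ j l, ∃ z : ℤ, (N : ℚ) * lam j l = z) → (∀ l, ∃ z : ℤ, (N : ℚ) * phi l = z) →
        (∃ C ∈ 𝒟, InCoset C.1 C.2 (fun i => ((Sum.elim (fun p => lam p.1 p.2) phi i : ℚ) : ℝ))) ∨
          FullAlg b ∨
          ∃ a : ℤ, IsCoprime a (N : ℤ) ∧ ∃ P₀ : ℕ, ∀ p : ℕ, P₀ < p → (N : ℤ) ∣ a * p + 1 →
            ∀ _hp : Fact p.Prime, ¬ FullMod b p) ∧
      ∀ (b : Fin (n + 1) → ℤ[X]) (α : Fin m → AlgebraicClosure ℚ), b (Fin.last n) ≠ 0 →
        Function.Injective α → (∀ x, ((b (Fin.last n)).map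
          (Int.castRingHom (AlgebraicClosure ℚ))).eval x = 0 → ∃ j, α j = x) →
        (∃ P : ℕ, ∀ p : ℕ, P < p → ∀ _hp : Fact p.Prime, FullMod b p) →
        FullAlg b ∨ ∃ (Q : Fin (n + 1) → (AlgebraicClosure ℚ)[X]) (lam : Fin m → Fin n → ℚ)
          (phi : Fin n → ℚ), IsFuchs b α Q ∧ HasExps α Q lam phi ∧ ∃ C ∈ 𝒟,
            InCoset C.1 C.2 (fun i => ((Sum.elim (fun p => lam p.1 p.2) phi i : ℚ) : ℝ)) := by
  obtain ⟨𝒟, h1, h2⟩ := cosets_main hm hn
  have key : ∀ (b : Fin (n + 1) → ℤ[X]) (α : Fin m → AlgebraicClosure ℚ)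
        (Q : Fin (n + 1) → (AlgebraicClosure ℚ)[X]) (lam : Fin m → Fin n → ℚ) (phi : Fin n → ℚ)
        (N : ℕ), b (Fin.last n) ≠ 0 → IsFuchs b α Q → HasExps α Q lam phi → 0 < N →
        (∀ j l, ∃ z : ℤ, (N : ℚ) * lam j l = z) → (∀ l, ∃ z : ℤ, (N : ℚ) * phi l = z) →
        (∃ C ∈ 𝒟, InCoset C.1 C.2 (fun i => ((Sum.elim (fun p => lam p.1 p.2) phi i : ℚ) : ℝ))) ∨
          FullAlg b ∨
          ∃ a : ℤ, IsCoprime a (N : ℤ) ∧ ∃ P₀ : ℕ, ∀ p : ℕ, P₀ < p → (N : ℤ) ∣ a * p + 1 →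
            ∀ _hp : Fact p.Prime, ¬ FullMod b p := by
    intro b α Q lam phi N hb hF hE hN hNlam hNphi
    by_contra hno
    push Not at hno
    obtain ⟨hno1, hno2, hno3⟩ := hno
    have hx : (Sum.elim (fun p => lam p.1 p.2) phi : ExponentIndex m n → ℚ) ∈ Xset m n := by
      refine ⟨b, α, Q, N, hb, hF, hE, hN, ?_, fun a ha ⟨P₀, hP₀⟩ => ?_, hno2⟩
      · rintro (⟨j, l⟩ | l)
        · exact hNlam j l
        · exact hNphi l
      · obtain ⟨p, hp1, hp2, hp, hp3⟩ := hno3 a ha P₀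
        exact hP₀ p hp1 hp2 hp hp3
    obtain ⟨C, hC, hin⟩ := h2 _ hx
    exact hno1 C hC hin
  refine ⟨𝒟, h1, key, ?_⟩
  intro b α hb hα hroot hfull
  obtain ⟨Q, hF⟩ := isFuchs hb hfull hm hα hroot
  obtain ⟨lam, phi, hE⟩ := hasExps hb hfull hF hm
  refine or_iff_not_imp_left.mpr fun hnot => ⟨Q, lam, phi, hF, hE, ?_⟩
  obtain ⟨N, hN, hNlam, hNphi⟩ : ∃ N : ℕ, 0 < N ∧ (∀ j l, ∃ z : ℤ, (N : ℚ) * lam j l = z) ∧
      ∀ l, ∃ z : ℤ, (N : ℚ) * phi l = z := by
    let x : ExponentIndex m n → ℚ := Sum.elim (fun p => lam p.1 p.2) phi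
    have hx : ∀ i, ∃ z : ℤ, ((∏ i, (x i).den : ℕ) : ℚ) * x i = z := by
      intro i
      refine ⟨(∏ i' ∈ Finset.univ.erase i, ((x i').den : ℤ)) * (x i).num, ?_⟩
      have h1 : (∏ i, (x i).den) = (∏ i' ∈ Finset.univ.erase i, (x i').den) * (x i).den :=
        (Finset.prod_erase_mul _ _ (Finset.mem_univ i)).symm
      rw [h1]
      push_cast
      rw [mul_assoc, Rat.den_mul_eq_num]
    exact ⟨∏ i, (x i).den, Finset.prod_pos fun i _ => (x i).den_pos,
      fun j l => hx (Sum.inl (j, l)), fun l => hx (Sum.inr l)⟩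
  rcases key b α Q lam phi N hb hF hE hN hNlam hNphi with h | h | ⟨a, ha, P₀, hP₀⟩
  · exact h
  · exact absurd h hnot
  · obtain ⟨P, hP⟩ := hfull
    obtain ⟨p, hp1, hp2, hp3⟩ := exists_prime_class hN ha (max P₀ P)
    have hp : Fact p.Prime := ⟨hp2⟩
    exact absurd (hP p (lt_of_le_of_lt (le_max_right _ _) hp1) hp)
      (hP₀ p (lt_of_le_of_lt (le_max_left _ _) hp1) hp3 hp)

end Pool.Agent.W432.HK
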