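import Pool.Agent.W432.HK.Point
import Pool.Agent.W432.WB.Descent

set_option autoImplicit false

open Polynomial

namespace Pool.Agent.W432.HK

open Pool.Agent.W432.PC (T Tc T_eq T_monic T_ne T_natDegree Tc_monic T_map Tc_map
  exists_closed_point prod_dvd_of_dvd)
open Pool.Agent.W432.WB

universe u

/-- (ii): full bases of rational solutions modulo almost all primes. -/
def Cond {n : ℕ} (b : Fin (n + 1) → ℤ[X]) : Prop :=
  ∃ P : ℕ, ∀ p : ℕ, P < p → ∀ _hp : Fact p.Prime, FullMod b p

lemma map_ne_of_large {K : Type*} [Field K] {p : ℕ} [CharP K p] {f : ℤ[X]} (hf : f ≠ 0)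
    (hp : f.leadingCoeff.natAbs < p) : f.map (Int.castRingHom K) ≠ 0 := by
  intro h0
  have h2 := congrArg (fun q => q.coeff f.natDegree) h0
  simp only [coeff_map, coeff_zero, eq_intCast] at h2
  have h3 := (CharP.intCast_eq_zero_iff K p _).mp h2
  have h4 := Int.natAbs_dvd_natAbs.mpr h3
  rw [Int.natAbs_natCast] at h4
  have h5 := Nat.le_of_dvd (Int.natAbs_pos.mpr (by
    rw [coeff_natDegree]; exact leadingCoeff_ne_zero.mpr hf)) h4
  rw [coeff_natDegree] at h5
  omega

/-- Regularity at a finite point. -/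
theorem fuchs_at {F : Type u} [Field F] [CharZero F] {n : ℕ} {b : Fin (n + 1) → ℤ[X]}
    (hb : b (Fin.last n) ≠ 0) (hfull : Cond b) (x₀ : F) (k : Fin (n + 1)) :
    (X - C x₀) ^ (((b (Fin.last n)).map (Int.castRingHom F)).rootMultiplicity x₀) ∣
      (X - C x₀) ^ (n - (k : ℕ)) * (b k).map (Int.castRingHom F) := by
  classical
  set τ : F[X] := X - C x₀ with hτ
  have hτ0 : τ ≠ 0 := X_sub_C_ne_zero x₀
  set bn : F[X] := (b (Fin.last n)).map (Int.castRingHom F) with hbn
  have hbn0 : bn ≠ 0 := (Polynomial.map_ne_zero_iff (Int.cast_injective)).mpr hb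
  set e := bn.rootMultiplicity x₀ with he
  let G : Fin (n + 1) → F[X] := fun k => τ ^ (n - (k : ℕ)) * (b k).map (Int.castRingHom F)
  have hGn : G (Fin.last n) = bn := by simp [G, hbn]
  -- the largest common power
  let S : Set ℕ := {μ | ∀ k, τ ^ μ ∣ G k}
  have hS0 : (0 : ℕ) ∈ S := fun k => by rw [pow_zero]; exact one_dvd _
  have hSb : ∀ μ ∈ S, μ ≤ e := by
    intro μ hμ
    have := hμ (Fin.last n)
    rw [hGn] at this
    exact (le_rootMultiplicity_iff hbn0).mpr this
  have hbdd : BddAbove S := ⟨e, hSb⟩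
  set μ := sSup S with hμdef
  have hμ : μ ∈ S := Nat.sSup_mem ⟨0, hS0⟩ hbdd
  choose c hc using hμ
  have hne : ∃ k₁, (c k₁).eval x₀ ≠ 0 := by
    by_contra hno
    push Not at hno
    have h1 : μ + 1 ∈ S := by
      intro k
      obtain ⟨w, hw⟩ := dvd_iff_isRoot.mpr (hno k)
      rw [hc k, hw, pow_succ]
      exact ⟨w, by ring⟩
    have h2 := le_csSup hbdd h1
    omega
  obtain ⟨k₁, hk₁⟩ := hne
  have hcn : (c (Fin.last n)).eval x₀ ≠ 0 := by
    intro h0
    -- descend
    let S' : Finset F := {x₀} ∪ (Finset.univ.biUnion fun k : Fin (n + 1) =>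
      (c k).support.image (c k).coeff)
    obtain ⟨R, _, _, _, _, ι, hι, hS'⟩ := exists_ring S'
    obtain ⟨y₀, hy₀⟩ := hS' x₀ (by simp [S'])
    have hcl : ∀ k, ∃ P : R[X], P.map ι = c k := fun k => exists_lift ι (c k) fun i hi => hS' _ (by
      simp only [S', Finset.mem_union, Finset.mem_biUnion, Finset.mem_univ, true_and]
      exact Or.inr ⟨k, Finset.mem_image.mpr ⟨i, hi, rfl⟩⟩)
    choose c' hc' using hcl
    have hev : ∀ k, ι ((c' k).eval y₀) = (c k).eval x₀ := by
      intro k
      rw [← hc' k, ← hy₀, eval_map_apply]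
    have hg : (c' k₁).eval y₀ ≠ 0 := by
      intro h1
      apply hk₁
      rw [← hev, h1, map_zero]
    have hz : (c' (Fin.last n)).eval y₀ = 0 := by
      apply hι
      rw [hev, h0, map_zero]
    have hcastR : ι.comp (Int.castRingHom R) = Int.castRingHom F := RingHom.ext_int _ _
    have hrel : ∀ k : Fin (n + 1), (X - C y₀) ^ (n - (k : ℕ)) * (b k).map (Int.castRingHom R) =
        (X - C y₀) ^ μ * c' k := by
      intro k
      apply map_injective ι hι
      rw [Polynomial.map_mul, Polynomial.map_mul, Polynomial.map_pow, Polynomial.map_pow,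
        Polynomial.map_sub, map_X, map_C, hy₀, Polynomial.map_map, hcastR, hc']
      exact hc k
    obtain ⟨P, hP⟩ := hfull
    obtain ⟨P₁, hP₁⟩ := exists_closed_point R hg
    obtain ⟨p, hpge, hpp⟩ := Nat.exists_infinite_primes
      (max (max P P₁) (b (Fin.last n)).leadingCoeff.natAbs + 1)
    have hpgt : max (max P P₁) (b (Fin.last n)).leadingCoeff.natAbs < p := hpge
    simp only [max_lt_iff] at hpgt
    have hfact : Fact p.Prime := ⟨hpp⟩
    obtain ⟨𝔪, h𝔪, hpm, hgm⟩ := hP₁ p hpp hpgt.1.2
    obtain ⟨K, _, _, _, φ, hφ⟩ := geo hpp hpm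
    have hcast : φ.comp (Int.castRingHom R) = Int.castRingHom K := RingHom.ext_int _ _
    obtain ⟨f, hf, hdet⟩ := sols (K := K) (hP p hpgt.1.1 hfact) (map_ne_of_large hb hpgt.2)
    have h1 := loc_point (p := p) (b := fun k => (b k).map (Int.castRingHom K)) hf hdet
      (x₀ := φ y₀) (c := fun k => (c' k).map φ) (fun y hy => by
        have h2 : (X - C (φ y₀)) ^ μ * ∑ k : Fin (n + 1), (c' k).map φ *
            ((X - C (φ y₀)) ^ (k : ℕ) * derivative^[(k : ℕ)] y) = 0 := by
          have h3 := congrArg (fun x => (X - C (φ y₀)) ^ n * x) hy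
          simp only [mul_zero, Finset.mul_sum] at h3
          rw [← h3, Finset.mul_sum]
          refine Finset.sum_congr rfl fun k _ => ?_
          have h4 := congrArg (Polynomial.map φ) (hrel k)
          rw [Polynomial.map_mul, Polynomial.map_mul, Polynomial.map_pow, Polynomial.map_pow,
            Polynomial.map_sub, map_X, map_C, Polynomial.map_map, hcast] at h4
          have h5 : (X - C (φ y₀)) ^ n = (X - C (φ y₀)) ^ (k : ℕ) *
              (X - C (φ y₀)) ^ (n - (k : ℕ)) := by
            rw [← pow_add]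
            congr 1
            have := k.isLt
            omega
          rw [h5]
          linear_combination (-((X - C (φ y₀)) ^ (k : ℕ) * derivative^[(k : ℕ)] y)) * h4
        exact (mul_eq_zero.mp h2).resolve_left (pow_ne_zero _ (X_sub_C_ne_zero _))) (by
        intro h2
        have h3 := congrFun h2 k₁
        simp only [Pi.zero_apply] at h3
        rw [eval_map_apply] at h3
        exact hφ _ hgm h3)
    apply h1.1
    rw [eval_map_apply, hz, map_zero]
  -- conclusion
  have heμ : e = μ := by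
    apply le_antisymm
    · by_contra hlt
      push Not at hlt
      have h1 : τ ^ (μ + 1) ∣ bn := (le_rootMultiplicity_iff hbn0).mp (by rw [← he]; omega)
      rw [← hGn, hc (Fin.last n), pow_succ] at h1
      have h2 := (mul_dvd_mul_iff_left (pow_ne_zero μ hτ0)).mp h1
      exact hcn (dvd_iff_isRoot.mp h2)
    · exact hSb μ (fun k => ⟨c k, hc k⟩)
  rw [heμ]
  exact ⟨c k, hc k⟩

/-- Regularity at infinity. -/
theorem fuchs_inf {n : ℕ} {b : Fin (n + 1) → ℤ[X]} (hb : b (Fin.last n) ≠ 0) (hfull : Cond b)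
    (k : Fin (n + 1)) (hk : b k ≠ 0) :
    (b k).natDegree + (n - (k : ℕ)) ≤ (b (Fin.last n)).natDegree := by
  classical
  let G : Fin (n + 1) → ℤ[X] := fun k => X ^ (n - (k : ℕ)) * b k
  have hGdeg : ∀ k, b k ≠ 0 → (G k).natDegree = (b k).natDegree + (n - (k : ℕ)) := by
    intro k hk
    simp only [G]
    rw [natDegree_mul (pow_ne_zero _ X_ne_zero) hk, natDegree_X_pow, add_comm]
  have hne : (Finset.univ.filter fun k : Fin (n + 1) => b k ≠ 0).Nonempty :=
    ⟨Fin.last n, Finset.mem_filter.mpr ⟨Finset.mem_univ _, hb⟩⟩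
  obtain ⟨k₁, hk₁, hmax⟩ := Finset.exists_max_image _ (fun k => (G k).natDegree) hne
  rw [Finset.mem_filter] at hk₁
  set D := (G k₁).natDegree with hD
  have hDle : ∀ k, (G k).natDegree ≤ D := by
    intro k
    by_cases h0 : b k = 0
    · simp [G, h0]
    · exact hmax k (Finset.mem_filter.mpr ⟨Finset.mem_univ _, h0⟩)
  have hG1 : G k₁ ≠ 0 := mul_ne_zero (pow_ne_zero _ X_ne_zero) hk₁.2
  have ha1 : (G k₁).coeff D ≠ 0 := leadingCoeff_ne_zero.mpr hG1
  have han : (G (Fin.last n)).coeff D ≠ 0 := by
    intro h0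
    obtain ⟨P, hP⟩ := hfull
    obtain ⟨p, hpge, hpp⟩ := Nat.exists_infinite_primes
      (max (max P ((G k₁).coeff D).natAbs) (b (Fin.last n)).leadingCoeff.natAbs + 1)
    have hpgt : max (max P ((G k₁).coeff D).natAbs) (b (Fin.last n)).leadingCoeff.natAbs < p := hpge
    simp only [max_lt_iff] at hpgt
    have hfact : Fact p.Prime := ⟨hpp⟩
    obtain ⟨f, hf, hdet⟩ := sols (K := ZMod p) (hP p hpgt.1.1 hfact) (map_ne_of_large hb hpgt.2)
    have h1 := inf_point (p := p) (b := fun k => (b k).map (Int.castRingHom (ZMod p))) hf hdet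
      (g := fun k => (G k).map (Int.castRingHom (ZMod p))) (D := D)
      (fun k => natDegree_map_le.trans (hDle k)) (fun y hy => by
        have h3 := congrArg (fun x => X ^ n * x) hy
        simp only [mul_zero, Finset.mul_sum] at h3
        rw [← h3]
        refine Finset.sum_congr rfl fun k _ => ?_
        simp only [G]
        rw [Polynomial.map_mul, Polynomial.map_pow, map_X]
        have h5 : (X : (ZMod p)[X]) ^ n = X ^ (k : ℕ) * X ^ (n - (k : ℕ)) := by
          rw [← pow_add]
          congr 1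
          have := k.isLt
          omega
        rw [h5]
        ring) (by
        intro h2
        have h3 := congrFun h2 k₁
        simp only [Pi.zero_apply, coeff_map, eq_intCast] at h3
        have h4 := (ZMod.intCast_zmod_eq_zero_iff_dvd _ p).mp h3
        have h5 := Int.natAbs_dvd_natAbs.mpr h4
        rw [Int.natAbs_natCast] at h5
        have := Nat.le_of_dvd (Int.natAbs_pos.mpr ha1) h5
        omega)
    apply h1.1
    simp only [coeff_map, h0, map_zero]
  have h1 : D ≤ (G (Fin.last n)).natDegree := le_natDegree_of_ne_zero han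
  rw [hGdeg _ hb, Fin.val_last, Nat.sub_self, add_zero] at h1
  rw [← hGdeg k hk]
  exact (hDle k).trans h1

/-- Katz, Honda: an operator with full bases of rational solutions modulo almost all primes is
Fuchsian. -/
theorem isFuchs {F : Type u} [Field F] [CharZero F] [IsAlgClosed F] {m n : ℕ}
    {b : Fin (n + 1) → ℤ[X]} (hb : b (Fin.last n) ≠ 0) (hfull : Cond b) (hm : 0 < m)
    {α : Fin m → F} (hα : Function.Injective α)
    (hroot : ∀ x, ((b (Fin.last n)).map (Int.castRingHom F)).eval x = 0 → ∃ j, α j = x) :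
    ∃ Q : Fin (n + 1) → F[X], IsFuchs b α Q := by
  classical
  set bn : F[X] := (b (Fin.last n)).map (Int.castRingHom F) with hbn
  have hbn0 : bn ≠ 0 := (Polynomial.map_ne_zero_iff (Int.cast_injective)).mpr hb
  let e : Fin m → ℕ := fun j => bn.rootMultiplicity (α j)
  have hprod : bn = C bn.leadingCoeff * ∏ j, (X - C (α j)) ^ e j := by
    have h1 := (IsAlgClosed.splits bn).eq_prod_roots
    conv_lhs => rw [h1]
    congr 1
    rw [Finset.prod_multiset_map_count]
    have h2 : bn.roots.toFinset ⊆ Finset.univ.image α := by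
      intro x hx
      rw [Multiset.mem_toFinset, mem_roots hbn0] at hx
      obtain ⟨j, hj⟩ := hroot x hx
      exact Finset.mem_image.mpr ⟨j, Finset.mem_univ j, hj⟩
    rw [Finset.prod_subset h2, Finset.prod_image fun a _ b _ hab => hα hab]
    · refine Finset.prod_congr rfl fun j _ => ?_
      rw [count_roots]
    · intro x _ hx
      have : bn.roots.count x = 0 := by
        rw [Multiset.count_eq_zero]
        rwa [Multiset.mem_toFinset] at hx
      rw [this, pow_zero]
  have hdvd : ∀ k : Fin (n + 1), bn ∣ T α ^ (n - (k : ℕ)) * (b k).map (Int.castRingHom F) := by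
    intro k
    rw [hprod]
    have hu : IsUnit (C bn.leadingCoeff) :=
      isUnit_C.mpr (isUnit_iff_ne_zero.mpr (leadingCoeff_ne_zero.mpr hbn0))
    rw [hu.mul_left_dvd]
    refine prod_dvd_of_dvd hα e fun j => ?_
    have h1 := fuchs_at hb hfull (α j) k
    have h2 : T α ^ (n - (k : ℕ)) * (b k).map (Int.castRingHom F) =
        Tc α j ^ (n - (k : ℕ)) * ((X - C (α j)) ^ (n - (k : ℕ)) *
          (b k).map (Int.castRingHom F)) := by
      rw [T_eq j, mul_pow]
      ring
    rw [h2]
    exact Dvd.dvd.mul_left h1 _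
  choose Q hQ using hdvd
  refine ⟨Q, hα, ?_, hQ, ?_⟩
  · have h1 := hQ (Fin.last n)
    rw [Fin.val_last, Nat.sub_self, pow_zero, one_mul] at h1
    have h2 : bn * Q (Fin.last n) = bn * 1 := by rw [← h1, mul_one]
    exact mul_left_cancel₀ hbn0 h2
  · intro k
    by_cases h0 : b k = 0
    · have h1 := hQ k
      rw [h0, Polynomial.map_zero, mul_zero] at h1
      have h2 := (mul_eq_zero.mp h1.symm).resolve_left hbn0
      rw [h2]; simp
    · have hbk : (b k).map (Int.castRingHom F) ≠ 0 :=
        (Polynomial.map_ne_zero_iff (Int.cast_injective)).mpr h0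
      have hQ0 : Q k ≠ 0 := by
        intro h1
        have h2 := hQ k
        rw [h1, mul_zero] at h2
        exact (mul_ne_zero (pow_ne_zero _ T_ne) hbk) h2
      have h1 := congrArg natDegree (hQ k)
      rw [natDegree_mul (pow_ne_zero _ T_ne) hbk, natDegree_mul hbn0 hQ0, natDegree_pow,
        T_natDegree, hbn, natDegree_map_eq_of_injective Int.cast_injective,
        natDegree_map_eq_of_injective Int.cast_injective] at h1
      have h2 := fuchs_inf hb hfull k h0
      obtain ⟨m', rfl⟩ : ∃ m', m = m' + 1 := ⟨m - 1, by omega⟩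
      simp only [Nat.add_sub_cancel]
      have h3 : (n - (k : ℕ)) * (m' + 1) = (n - (k : ℕ)) * m' + (n - (k : ℕ)) := by ring
      rw [h3] at h1
      omega

end Pool.Agent.W432.HK
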