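import Pool.Agent.W432.TC.Ultra

set_option autoImplicit false

namespace Pool.Agent.W432.TC

variable {I : Type*} [Fintype I] [DecidableEq I]

/-- Every set of rational points is covered by finitely many torsion cosets, such that for each of
them any finite set of its real points is approximated by Galois conjugates of one point. -/
theorem general_cosets (𝒳 : Set (I → ℚ)) :
    ∃ 𝒟 : Finset (AddSubgroup (I → ℤ) × (I → ℚ)),
      (∀ C ∈ 𝒟, (∀ (d : ℤ) (m : I → ℤ), d ≠ 0 → d • m ∈ C.1 → m ∈ C.1) ∧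
        (∀ m : I → ℤ, (∀ x ∈ 𝒳, ∃ z : ℤ, ∑ i, (m i : ℚ) * x i = z) → m ∈ C.1) ∧ C.2 ∈ 𝒳 ∧
        ∀ (t : ℕ) (y : Fin t → I → ℝ), (∀ s, InCoset C.1 C.2 (y s)) → ∀ δ : ℝ, 0 < δ →
          ∃ x ∈ 𝒳, InCoset C.1 C.2 (fun i => (x i : ℝ)) ∧
            ∀ s, ∀ N : ℕ, 0 < N → (∀ i, ∃ z : ℤ, (N : ℚ) * x i = z) →
              ∃ a : ℤ, IsCoprime a (N : ℤ) ∧ ∀ i, ∃ z : ℤ, |(a : ℝ) * x i - y s i - z| < δ) ∧
      ∀ x ∈ 𝒳, ∃ C ∈ 𝒟, InCoset C.1 C.2 (fun i => (x i : ℝ)) := by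
  classical
  by_contra hcon
  -- admissible cosets
  let 𝒯 : Set (AddSubgroup (I → ℤ) × (I → ℚ)) := {C |
    (∀ (d : ℤ) (m : I → ℤ), d ≠ 0 → d • m ∈ C.1 → m ∈ C.1) ∧
        (∀ m : I → ℤ, (∀ x ∈ 𝒳, ∃ z : ℤ, ∑ i, (m i : ℚ) * x i = z) → m ∈ C.1) ∧ C.2 ∈ 𝒳 ∧
        ∀ (t : ℕ) (y : Fin t → I → ℝ), (∀ s, InCoset C.1 C.2 (y s)) → ∀ δ : ℝ, 0 < δ →
          ∃ x ∈ 𝒳, InCoset C.1 C.2 (fun i => (x i : ℝ)) ∧
            ∀ s, ∀ N : ℕ, 0 < N → (∀ i, ∃ z : ℤ, (N : ℚ) * x i = z) →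
              ∃ a : ℤ, IsCoprime a (N : ℤ) ∧ ∀ i, ∃ z : ℤ, |(a : ℝ) * x i - y s i - z| < δ}
  let B : Finset 𝒯 → Set (I → ℚ) := fun 𝒟 =>
    {x | x ∈ 𝒳 ∧ ∀ C ∈ 𝒟, ¬ InCoset C.1.1 C.1.2 (fun i => (x i : ℝ))}
  have hB : ∀ 𝒟, (B 𝒟).Nonempty := by
    intro 𝒟
    by_contra hne
    rw [Set.not_nonempty_iff_eq_empty] at hne
    apply hcon
    refine ⟨𝒟.image Subtype.val, ?_, ?_⟩
    · intro C hC
      obtain ⟨C', -, rfl⟩ := Finset.mem_image.mp hC
      exact C'.2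
    · intro x hx
      by_contra hno
      have : x ∈ B 𝒟 := by
        refine ⟨hx, fun C hC hin => hno ⟨C.1, Finset.mem_image.mpr ⟨C, hC, rfl⟩, hin⟩⟩
      rw [hne] at this
      exact this
  have hdir : Directed (· ≥ ·) fun 𝒟 => Filter.principal (B 𝒟) := by
    intro 𝒟₁ 𝒟₂
    refine ⟨𝒟₁ ∪ 𝒟₂, ?_, ?_⟩
    · apply Filter.principal_mono.mpr
      intro x hx
      exact ⟨hx.1, fun C hC => hx.2 C (Finset.mem_union_left _ hC)⟩
    · apply Filter.principal_mono.mpr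
      intro x hx
      exact ⟨hx.1, fun C hC => hx.2 C (Finset.mem_union_right _ hC)⟩
  have hne : (⨅ 𝒟, Filter.principal (B 𝒟)).NeBot :=
    Filter.iInf_neBot_of_directed hdir fun 𝒟 => Filter.principal_neBot_iff.mpr (hB 𝒟)
  let F : Ultrafilter (I → ℚ) := Ultrafilter.of (⨅ 𝒟, Filter.principal (B 𝒟))
  have hF : ∀ 𝒟, B 𝒟 ∈ F := fun 𝒟 =>
    Ultrafilter.of_le _ (Filter.mem_iInf_of_mem 𝒟 (Filter.mem_principal_self _))
  have hX : 𝒳 ∈ F := Filter.mem_of_superset (hF ∅) fun x hx => hx.1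
  have hT : ∀ C : 𝒯, {x : I → ℚ | ¬ InCoset C.1.1 C.1.2 (fun i => (x i : ℝ))} ∈ F := fun C =>
    Filter.mem_of_superset (hF {C}) fun x hx => hx.2 C (Finset.mem_singleton_self _)
  -- a finite union of residue conditions
  have hfin : ∀ (m : I → ℤ) (d : ℕ) (c : ℚ), 0 < d →
      {x : I → ℚ | ∃ z : ℤ, (d : ℚ) * ∑ i, (m i : ℚ) * x i - c = z} ∈ F →
      ∃ c' : ℚ, {x : I → ℚ | ∃ z : ℤ, ∑ i, (m i : ℚ) * x i - c' = z} ∈ F := by
    intro m d c hd h
    have hd' : (d : ℚ) ≠ 0 := by exact_mod_cast hd.ne'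
    have hsub : {x : I → ℚ | ∃ z : ℤ, (d : ℚ) * ∑ i, (m i : ℚ) * x i - c = z} ⊆
        ⋃ r ∈ Set.Iio d, {x : I → ℚ | ∃ z : ℤ, ∑ i, (m i : ℚ) * x i - (c + r) / d = z} := by
      rintro x ⟨z, hz⟩
      have hd0 : (d : ℤ) ≠ 0 := by exact_mod_cast hd.ne'
      refine Set.mem_biUnion (x := (z % d).toNat) ?_ ?_
      · rw [Set.mem_Iio]
        have h1 := Int.emod_nonneg z hd0
        have h2 := Int.emod_lt_of_pos z (by exact_mod_cast hd : (0 : ℤ) < d)
        omega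
      · refine ⟨z / d, ?_⟩
        have h1 := Int.emod_nonneg z hd0
        have h2 : (((z % d).toNat : ℕ) : ℤ) = z % d := Int.toNat_of_nonneg h1
        have h3 : (((z % d).toNat : ℕ) : ℚ) = ((z % d : ℤ) : ℚ) := by exact_mod_cast h2
        have h4 : (z : ℚ) = d * ((z / d : ℤ) : ℚ) + ((z % d : ℤ) : ℚ) := by
          exact_mod_cast (Int.mul_ediv_add_emod z d).symm
        rw [h3]
        field_simp
        linear_combination hz + h4
    have h2 := Filter.mem_of_superset h hsub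
    rw [Ultrafilter.mem_coe, Ultrafilter.finite_biUnion_mem_iff (Set.finite_Iio d)] at h2
    obtain ⟨r, -, hr⟩ := h2
    exact ⟨_, hr⟩
  -- the relations
  let L : AddSubgroup (I → ℤ) :=
    { carrier := {m | ∃ c : ℚ, {x : I → ℚ | ∃ z : ℤ, ∑ i, (m i : ℚ) * x i - c = z} ∈ F}
      zero_mem' := ⟨0, Filter.mem_of_superset Filter.univ_mem fun x _ => ⟨0, by simp⟩⟩
      add_mem' := by
        rintro m m' ⟨c, hc⟩ ⟨c', hc'⟩
        refine ⟨c + c', Filter.mem_of_superset (Filter.inter_mem hc hc') ?_⟩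
        rintro x ⟨⟨z, hz⟩, ⟨z', hz'⟩⟩
        refine ⟨z + z', ?_⟩
        simp only [Pi.add_apply]
        push_cast
        rw [← hz, ← hz']
        simp only [add_mul, Finset.sum_add_distrib]
        ring
      neg_mem' := by
        rintro m ⟨c, hc⟩
        refine ⟨-c, Filter.mem_of_superset hc ?_⟩
        rintro x ⟨z, hz⟩
        refine ⟨-z, ?_⟩
        simp only [Pi.neg_apply]
        push_cast
        rw [← hz]
        simp only [neg_mul, Finset.sum_neg_distrib]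
        ring }
  have hLmem : ∀ m, m ∈ L ↔
      ∃ c : ℚ, {x : I → ℚ | ∃ z : ℤ, ∑ i, (m i : ℚ) * x i - c = z} ∈ F := fun m => Iff.rfl
  have hsat : ∀ (d : ℤ) (m : I → ℤ), d ≠ 0 → d • m ∈ L → m ∈ L := by
    intro d m hd hm
    have hm' : (d.natAbs : ℤ) • m ∈ L := by
      rcases Int.natAbs_eq d with h | h
      · rw [← h]; exact hm
      · have h2 : (d.natAbs : ℤ) = -d := by omega
        rw [h2, neg_smul]; exact L.neg_mem hm
    rw [hLmem] at hm'
    obtain ⟨c, hc⟩ := hm'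
    rw [hLmem]
    refine hfin m d.natAbs c (Int.natAbs_pos.mpr hd) (Filter.mem_of_superset hc ?_)
    rintro x ⟨z, hz⟩
    refine ⟨z, ?_⟩
    rw [← hz]
    simp only [Pi.smul_apply, smul_eq_mul, Int.cast_mul, Int.cast_natCast]
    rw [Finset.mul_sum]
    congr 1
    refine Finset.sum_congr rfl fun i _ => ?_
    ring
  have hτ : ∀ m : I → ℤ, (∀ x ∈ 𝒳, ∃ z : ℤ, ∑ i, (m i : ℚ) * x i = z) → m ∈ L := by
    intro m hm
    rw [hLmem]
    refine ⟨0, Filter.mem_of_superset hX ?_⟩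
    intro x hx
    obtain ⟨z, hz⟩ := hm x hx
    exact ⟨z, by rw [hz, sub_zero]⟩
  -- finitely many generators
  obtain ⟨S, hS⟩ := (isNoetherian_def.mp (inferInstance : IsNoetherian ℤ (I → ℤ)))
    (AddSubgroup.toIntSubmodule L)
  have hSL : ∀ m ∈ S, m ∈ L := by
    intro m hm
    have : m ∈ AddSubgroup.toIntSubmodule L := by
      rw [← hS]; exact Submodule.subset_span hm
    exact this
  choose! c hc using fun m (hm : m ∈ L) => (hLmem m).mp hm
  have hSF : {x : I → ℚ | ∀ m ∈ S, ∃ z : ℤ, ∑ i, (m i : ℚ) * x i - c m = z} ∈ F := by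
    have : {x : I → ℚ | ∀ m ∈ S, ∃ z : ℤ, ∑ i, (m i : ℚ) * x i - c m = z} =
        ⋂ m ∈ S, {x : I → ℚ | ∃ z : ℤ, ∑ i, (m i : ℚ) * x i - c m = z} := by
      ext x; simp
    rw [this]
    exact (Filter.biInter_finset_mem S).mpr fun m hm => hc m (hSL m hm)
  obtain ⟨x₀, hx₀X, hx₀S⟩ := F.nonempty_of_mem (Filter.inter_mem hX hSF)
  have hcos : {x : I → ℚ | InCoset L x₀ (fun i => (x i : ℝ))} ∈ F := by
    refine Filter.mem_of_superset hSF fun x hx => ?_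
    show InCoset L x₀ (fun i => (x i : ℝ))
    rw [inCoset_rat]
    intro m hm
    have hm' : m ∈ Submodule.span ℤ (S : Set (I → ℤ)) := by
      rw [hS]; exact hm
    induction hm' using Submodule.span_induction with
    | mem m hmS =>
      obtain ⟨z, hz⟩ := hx m hmS
      obtain ⟨z', hz'⟩ := hx₀S m hmS
      refine ⟨z - z', ?_⟩
      push_cast
      rw [← hz, ← hz']
      simp only [mul_sub, Finset.sum_sub_distrib]
      ring
    | zero => exact ⟨0, by simp⟩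
    | add m m' h1 h2 ih1 ih2 =>
      have e1 : m ∈ L := by rw [hS] at h1; exact h1
      have e2 : m' ∈ L := by rw [hS] at h2; exact h2
      obtain ⟨z, hz⟩ := ih1 e1
      obtain ⟨z', hz'⟩ := ih2 e2
      refine ⟨z + z', ?_⟩
      push_cast
      rw [← hz, ← hz', ← Finset.sum_add_distrib]
      refine Finset.sum_congr rfl fun i _ => ?_
      simp only [Pi.add_apply]
      push_cast
      ring
    | smul a m h1 ih1 =>
      have e1 : m ∈ L := by rw [hS] at h1; exact h1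
      obtain ⟨z, hz⟩ := ih1 e1
      refine ⟨a * z, ?_⟩
      push_cast
      rw [← hz, Finset.mul_sum]
      refine Finset.sum_congr rfl fun i _ => ?_
      simp only [Pi.smul_apply, smul_eq_mul]
      push_cast
      ring
  have hgen : ∀ K Q : ℕ, {x : I → ℚ | ∀ m ∉ L, (∀ i, |m i| ≤ K) → ∀ q : ℕ, 0 < q → q ≤ Q →
      ¬ ∃ z : ℤ, (q : ℚ) * ∑ i, (m i : ℚ) * x i = z} ∈ F := by
    intro K Q
    have hbox : (Set.univ.pi fun _ : I => Set.Icc (-(K : ℤ)) K).Finite :=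
      Set.Finite.pi fun _ => Set.finite_Icc _ _
    have hsub : (⋂ m ∈ (Set.univ.pi fun _ : I => Set.Icc (-(K : ℤ)) K), ⋂ q ∈ Set.Iic Q,
        {x : I → ℚ | m ∉ L → 0 < q → ¬ ∃ z : ℤ, (q : ℚ) * ∑ i, (m i : ℚ) * x i = z}) ⊆
        {x : I → ℚ | ∀ m ∉ L, (∀ i, |m i| ≤ K) → ∀ q : ℕ, 0 < q → q ≤ Q →
          ¬ ∃ z : ℤ, (q : ℚ) * ∑ i, (m i : ℚ) * x i = z} := by
      intro x hx m hm hmK q hq hqQ
      rw [Set.mem_iInter₂] at hx
      have h1 := hx m (fun i _ => abs_le.mp (hmK i))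
      rw [Set.mem_iInter₂] at h1
      exact h1 q hqQ hm hq
    refine Filter.mem_of_superset ?_ hsub
    refine (Filter.biInter_mem hbox).mpr fun m _ => ?_
    refine (Filter.biInter_mem (Set.finite_Iic Q)).mpr fun q _ => ?_
    by_cases hm : m ∈ L
    · exact Filter.mem_of_superset Filter.univ_mem fun x _ h => absurd hm h
    · rcases Nat.eq_zero_or_pos q with hq | hq
      · exact Filter.mem_of_superset Filter.univ_mem fun x _ _ h => absurd hq h.ne'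
      · have h1 : {x : I → ℚ | ∃ z : ℤ, (q : ℚ) * ∑ i, (m i : ℚ) * x i - 0 = z} ∉ F :=
          fun h => hm (hfin m q 0 hq h)
        have h2 := Ultrafilter.compl_mem_iff_notMem.mpr h1
        refine Filter.mem_of_superset h2 fun x hx _ _ hz => hx ?_
        obtain ⟨z, hz⟩ := hz
        exact ⟨z, by rw [sub_zero]; exact hz⟩
  have hmem : ((L, x₀) : AddSubgroup (I → ℤ) × (I → ℚ)) ∈ 𝒯 := by
    refine ⟨hsat, hτ, hx₀X, fun t y hy δ hδ => ?_⟩
    choose K Q hKQ using fun s => equidist L x₀ (y s) (hy s) δ hδ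
    obtain ⟨x, ⟨hxX, hxC⟩, hxg⟩ := F.nonempty_of_mem
      (Filter.inter_mem (Filter.inter_mem hX hcos)
        (hgen (Finset.univ.sup K) (Finset.univ.sup Q)))
    refine ⟨x, hxX, hxC, fun s N hN hNx => ?_⟩
    refine hKQ s x (inCoset_rat.mp hxC) (fun m hm hmK q hq hqQ => ?_) N hN hNx
    refine hxg m hm (fun i => (hmK i).trans ?_) q hq (hqQ.trans (Finset.le_sup (Finset.mem_univ s)))
    exact_mod_cast Finset.le_sup (f := K) (Finset.mem_univ s)
  obtain ⟨x, h1, h2⟩ := F.nonempty_of_mem (Filter.inter_mem hcos (hT ⟨_, hmem⟩))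
  exact h2 h1

end Pool.Agent.W432.TC
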