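import Pool.Agent.W432.WB.Prime
import Pool.Agent.W432.TC.Final

set_option autoImplicit false

open Polynomial

namespace Pool.Agent.W432.WB

open Pool.Agent.W432.PC (T Tc wt lexLE)
open Pool.Agent.W432.TC

universe u

lemma hasExps_perm {F : Type*} [Field F] {m n : ℕ} {α : Fin m → F} {Q : Fin (n + 1) → F[X]}
    {lam : Fin m → Fin n → ℚ} {phi : Fin n → ℚ} (h : HasExps α Q lam phi)
    (σ : Fin m → Equiv.Perm (Fin n)) (τ : Equiv.Perm (Fin n)) :
    HasExps α Q (fun j l => lam j (σ j l)) (fun l => phi (τ l)) := by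
  refine ⟨fun j => ?_, ?_⟩
  · rw [h.1 j]
    congr 1
    exact (Equiv.prod_comp (σ j) (fun l => X - C ((lam j l : ℚ) : F))).symm
  · rw [h.2]
    exact (Equiv.prod_comp τ (fun l => X - C ((phi l : ℚ) : F))).symm

/-- The Weyl inequalities in terms of next lifts: a violation excludes a full basis of rational
solutions modulo all large primes `p` with `a p = -1` modulo `N`. -/
theorem weyl_next_op {F : Type u} [Field F] [CharZero F] {n r : ℕ} (hn : 0 < n)
    (b : Fin (r + 1) → ℤ[X]) (hb : b (Fin.last r) ≠ 0) (α : Fin n → F) (Q : Fin (r + 1) → F[X])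
    (hF : IsFuchs b α Q)
    (lam : Fin n → Fin r → ℚ) (phi : Fin r → ℚ) (hE : HasExps α Q lam phi)
    (N : ℕ) (hN : 0 < N) (hNlam : ∀ j l, ∃ m : ℤ, (N : ℚ) * lam j l = m)
    (hNphi : ∀ l, ∃ m : ℤ, (N : ℚ) * phi l = m) (a : ℤ)
    (v : Fin n → ℝ) (w : ℝ) (hvw : w < ∑ j, v j)
    (hlt : ∑ j, ∑ l, nextGe (v j) ((a : ℝ) * lam j l) < ∑ l, nextGt w ((a : ℝ) * phi l)) :
    ∃ P₀ : ℕ, ∀ p : ℕ, P₀ < p → (N : ℤ) ∣ a * p + 1 → ∀ _hp : Fact p.Prime, ¬ FullMod b p := by
  classical
  -- rank positive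
  have hr : 0 < r := by
    rcases Nat.eq_zero_or_pos r with rfl | h
    · simp at hlt
    · exact h
  set u₀ : ℚ := (((r - 1) * (n - 1) : ℕ) : ℚ) with hu₀
  choose σ hσ using fun j => exists_sort a (lam j)
  obtain ⟨τ, hτ⟩ := exists_sort a (fun l => phi l + u₀)
  set t : Fin n → Fin r → ℚ := fun j l => wt a (lam j (σ j l)) with ht
  set u : Fin r → ℚ := fun l => wt a (phi (τ l) + u₀) with hu
  have hup : ∀ j, ∑ l, nextGe (v j) ((a : ℝ) * lam j l) = ∑ l, nextGe (v j) (t j l) := by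
    intro j
    rw [← Equiv.sum_comp (σ j)]
    refine Finset.sum_congr rfl fun l _ => ?_
    obtain ⟨e, he⟩ := wt_eq a (lam j (σ j l))
    have he' : (a : ℝ) * lam j (σ j l) = (t j l : ℝ) + e := by
      have := congrArg (fun q : ℚ => (q : ℝ)) he
      push_cast at this
      exact this
    rw [he', nextGe_add_int]
  have hsup : ∑ l, nextGt w ((a : ℝ) * phi l) = ∑ l, nextGt w (u l) := by
    rw [← Equiv.sum_comp τ]
    refine Finset.sum_congr rfl fun l _ => ?_
    obtain ⟨e, he⟩ := wt_eq a (phi (τ l) + u₀)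
    have he' : (a : ℝ) * phi (τ l) = (u l : ℝ) + ((e - a * ((r - 1) * (n - 1) : ℕ) : ℤ) : ℝ) := by
      have := congrArg (fun q : ℚ => (q : ℝ)) he
      simp only [hu₀] at this
      push_cast at this
      simp only [hu, hu₀]
      push_cast
      linear_combination this
    rw [he', nextGt_add_int]
  simp only [hup, hsup] at hlt
  -- the trace relation
  have htr := fuchs hr hn hF.inj hF.last hF.deg hE.1 hE.2
  obtain ⟨D, hD⟩ : ∃ D : ℤ, ∑ j, ∑ l, t j l - ∑ l, u l = D := by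
    choose e he using fun j l => wt_eq a (lam j (σ j l))
    choose e' he' using fun l => wt_eq a (phi (τ l) + u₀)
    refine ⟨-(a * ∑ i, ((cw n r i : ℕ) : ℤ)) - (∑ j, ∑ l, e j l) + ∑ l, e' l, ?_⟩
    have h1 : ∀ j l, t j l = a * lam j (σ j l) - e j l := fun j l => by rw [he j l]; simp [ht]
    have h2 : ∀ l, u l = a * (phi (τ l) + u₀) - e' l := fun l => by rw [he' l]; simp [hu]
    simp only [h1, h2, Finset.sum_sub_distrib, ← Finset.mul_sum]
    have h3 : ∀ j, ∑ l, lam j (σ j l) = ∑ l, lam j l := fun j => Equiv.sum_comp (σ j) _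
    have h4 : ∑ l, (phi (τ l) + u₀) = ∑ l, (phi l + u₀) :=
      Equiv.sum_comp τ (fun l => phi l + u₀)
    rw [Finset.sum_congr rfl fun j _ => h3 j, h4, ← htr]
    push_cast
    ring
  -- the integers
  set K : Fin n → ℤ := fun j => ∑ l, ⌈v j - t j l⌉ with hK
  set L : ℤ := ∑ l, (⌊w - u l⌋ + 1) with hL
  have hKL : ∑ j, K j + D < L := by
    have h1 : ∑ j, ∑ l, nextGe (v j) (t j l) = ((∑ j, K j : ℤ) : ℝ) + ∑ j, ∑ l, (t j l : ℝ) := by
      simp only [hK, nextGe]
      push_cast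
      simp only [Finset.sum_add_distrib]
    have h2 : ∑ l, nextGt w (u l) = (L : ℝ) + ∑ l, (u l : ℝ) := by
      simp only [hL, nextGt]
      push_cast
      simp only [Finset.sum_add_distrib]
    have h3 : (∑ j, ∑ l, (t j l : ℝ)) - ∑ l, (u l : ℝ) = D := by
      have := congrArg (fun q : ℚ => (q : ℝ)) hD
      push_cast at this
      exact this
    rw [h1, h2] at hlt
    have h4 : ((∑ j, K j + D : ℤ) : ℝ) < (L : ℝ) := by push_cast; push_cast at hlt; linarith
    exact_mod_cast h4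
  have hr' : (0 : ℤ) < r := by exact_mod_cast hr
  have hdm : ∀ k : ℤ, k = (k / r) * r + (((k % r).toNat : ℕ) : ℤ) ∧ (k % r).toNat < r := by
    intro k
    have h1 := Int.emod_nonneg k hr'.ne'
    have h2 := Int.emod_lt_of_pos k hr'
    have h3 := Int.mul_ediv_add_emod k r
    constructor
    · rw [Int.toNat_of_nonneg h1]; linarith
    · omega
  let κ : Fin n → Fin r := fun j => ⟨(K j % r).toNat, (hdm _).2⟩
  let k : ℤ := ∑ j, K j + D
  let s : Fin r := ⟨(k % r).toNat, (hdm _).2⟩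
  have hmono : ∀ j l l', l ≤ l' → (t j l : ℝ) ≤ t j l' := by
    intro j l l' h
    have h1 : t j l ≤ t j l' := by
      rcases hσ j l l' h with h2 | h2
      · exact h2.le
      · exact h2.1.le
    exact_mod_cast h1
  have hmono' : ∀ l l', l ≤ l' → (u l : ℝ) ≤ u l' := by
    intro l l' h
    have h1 : u l ≤ u l' := by
      rcases hτ l l' h with h2 | h2
      · exact h2.le
      · exact h2.1.le
    exact_mod_cast h1
  have hwin : ∀ j l l', (t j l : ℝ) ≤ t j l' + 1 := by
    intro j l l'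
    have h1 : t j l ≤ t j l' + 1 := by
      have h2 := wt_le_one a (lam j (σ j l))
      have h3 := wt_nonneg a (lam j (σ j l'))
      simp only [ht]; linarith
    exact_mod_cast h1
  have hwin' : ∀ l l', (u l : ℝ) ≤ u l' + 1 := by
    intro l l'
    have h1 : u l ≤ u l' + 1 := by
      have h2 := wt_le_one a (phi (τ l) + u₀)
      have h3 := wt_nonneg a (phi (τ l') + u₀)
      simp only [hu]; linarith
    exact_mod_cast h1
  have hv : ∀ j, v j ≤ ((K j / r : ℤ) : ℝ) + t j (κ j) := fun j =>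
    win_lower (hmono j) (hwin j) (v := v j) (q := K j / r) (κ := κ j) (hdm (K j)).1
  have hw : ((k / r : ℤ) : ℝ) + u s ≤ w := by
    refine win_upper hmono' hwin' (w := w) (q := k / r) (s := s) ?_
    have h1 := (hdm k).1
    show k / r * r + (((k % r).toNat : ℕ) : ℤ) < L
    rw [← h1]
    exact hKL
  set q : ℤ := k / r - ∑ j, K j / r with hqdef
  have hlt2 : (q : ℝ) + u s < ∑ j, (t j (κ j) : ℝ) := by
    have h1 : ∑ j, v j ≤ ∑ j, (((K j / r : ℤ) : ℝ) + t j (κ j)) :=
      Finset.sum_le_sum fun j _ => hv j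
    rw [Finset.sum_add_distrib] at h1
    rw [hqdef]
    push_cast
    linarith
  have hlt3 : (q : ℚ) + wt a (phi (τ s) + u₀) < ∑ j, wt a (lam j (σ j (κ j))) := by
    have : ((((q : ℚ) + u s : ℚ)) : ℝ) < ((∑ j, t j (κ j) : ℚ) : ℝ) := by
      push_cast; exact hlt2
    exact_mod_cast this
  have hq : ∑ j, ∑ l, wt a (lam j (σ j l)) - ∑ l, wt a (phi (τ l) + u₀) +
      ∑ j, ((κ j : ℕ) : ℚ) = q * r + (s : ℕ) := by
    rw [hD]
    have h1 : ∀ j, ((κ j : ℕ) : ℤ) = K j - K j / r * r := fun j => by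
      have := (hdm (K j)).1
      show (((K j % r).toNat : ℕ) : ℤ) = _
      linarith
    have h2 : ((s : ℕ) : ℤ) = k - k / r * r := by
      have := (hdm k).1
      show (((k % r).toNat : ℕ) : ℤ) = _
      linarith
    have h3 : (D : ℤ) + ∑ j, ((κ j : ℕ) : ℤ) = q * r + ((s : ℕ) : ℤ) := by
      rw [Finset.sum_congr rfl fun j _ => h1 j, h2, hqdef, Finset.sum_sub_distrib,
        ← Finset.sum_mul]
      simp only [k]
      ring
    exact_mod_cast h3
  exact main_field hn hr b hb α Q hF (fun j l => lam j (σ j l)) (fun l => phi (τ l))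
    (hasExps_perm hE σ τ) N hN (fun j l => hNlam j (σ j l)) (fun l => hNphi (τ l)) a hσ hτ κ s q
    hq hlt3.le (fun h => absurd h hlt3.ne)

end Pool.Agent.W432.WB
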