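import Pool.Agent.W432.PC.Count

set_option autoImplicit false

open Polynomial

namespace Pool.Agent.W432.HK

open Pool.Agent.W432.PC (gpoly gpoly_coeff gpoly_natDegree_le derivative_gpoly)

section

variable {K : Type*} [Field K] {n p : ℕ} [Fact p.Prime] [CharP K p]

/-- Combinations of the `f j` with coefficients of derivative zero. -/
def V (f : Fin n → K[X]) : Set K[X] :=
  {y | ∃ c : Fin n → K[X], (∀ j, derivative (c j) = 0) ∧ y = ∑ j, c j * f j}

/-- A space of polynomials of dimension `n` over the constants takes orders in at least `n` residue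
classes modulo `p`, for every order function given by coefficients. -/
theorem classes (f : Fin n → K[X])
    (hind : ∀ c : Fin n → K[X], (∀ j, derivative (c j) = 0) → ∑ j, c j * f j = 0 → c = 0)
    (ord : K[X] → ℕ) (ℓ : ℕ → K[X] →ₗ[K] K) (h1 : ∀ y, y ≠ 0 → ord y ≤ y.natDegree)
    (h2 : ∀ y, y ≠ 0 → ℓ (ord y) y ≠ 0) :
    open scoped Classical in
    n ≤ (Finset.univ.filter fun c : ZMod p => ∃ y ∈ V f, y ≠ 0 ∧ ((ord y : ℕ) : ZMod p) = c).card := by
  classical
  have hp : 0 < p := (Fact.out : p.Prime).pos
  by_contra hlt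
  push Not at hlt
  set C := Finset.univ.filter fun c : ZMod p => ∃ y ∈ V f, y ≠ 0 ∧ ((ord y : ℕ) : ZMod p) = c
    with hC
  set d : ℕ := Finset.univ.sup fun j => (f j).natDegree with hd
  have hdj : ∀ j, (f j).natDegree ≤ d := fun j =>
    Finset.le_sup (f := fun j => (f j).natDegree) (Finset.mem_univ j)
  set M : ℕ := (n - 1) * d with hM
  let Y : (Fin n × Fin (M + 1) → K) →ₗ[K] K[X] :=
    { toFun := fun u => ∑ j, gpoly p (fun t : Fin (M + 1) => u (j, t)) * f j
      map_add' := by
        intro u v
        rw [← Finset.sum_add_distrib]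
        refine Finset.sum_congr rfl fun j _ => ?_
        rw [← add_mul]
        congr 1
        simp only [gpoly, Pi.add_apply, map_add, add_mul, Finset.sum_add_distrib]
      map_smul' := by
        intro a u
        rw [RingHom.id_apply, Finset.smul_sum]
        refine Finset.sum_congr rfl fun j _ => ?_
        rw [smul_eq_C_mul, ← mul_assoc]
        congr 1
        simp only [gpoly, Pi.smul_apply, smul_eq_mul, map_mul, Finset.mul_sum, mul_assoc] }
  let L : (Fin n × Fin (M + 1) → K) →ₗ[K] ({c // c ∈ C} × Fin (M + d + 1) → K) :=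
    LinearMap.pi fun x => (ℓ (x.1.1.val + p * x.2.val)).comp Y
  have hdim : Module.finrank K ({c // c ∈ C} × Fin (M + d + 1) → K) <
      Module.finrank K (Fin n × Fin (M + 1) → K) := by
    rw [Module.finrank_fintype_fun_eq_card, Module.finrank_fintype_fun_eq_card,
      Fintype.card_prod, Fintype.card_prod, Fintype.card_fin, Fintype.card_fin, Fintype.card_fin,
      Fintype.card_coe]
    have h3 : C.card ≤ n - 1 := by omega
    have h4 : 0 < n := by omega
    calc C.card * (M + d + 1) ≤ (n - 1) * (M + d + 1) := Nat.mul_le_mul_right _ h3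
      _ < n * (M + 1) := by
        obtain ⟨k, rfl⟩ : ∃ k, n = k + 1 := ⟨n - 1, by omega⟩
        simp only [Nat.add_sub_cancel] at hM ⊢
        nlinarith
  obtain ⟨u, hu, hu0⟩ := (Submodule.ne_bot_iff _).mp
    (LinearMap.ker_ne_bot_of_finrank_lt hdim (f := L))
  rw [LinearMap.mem_ker] at hu
  let g : Fin n → K[X] := fun j => gpoly p (fun t : Fin (M + 1) => u (j, t))
  set y : K[X] := ∑ j, g j * f j with hy
  have hyV : y ∈ V f := ⟨g, fun j => derivative_gpoly _, rfl⟩
  have hy0 : y ≠ 0 := by
    intro h0
    have h3 := hind g (fun j => derivative_gpoly _) h0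
    apply hu0
    ext1 ⟨j, t⟩
    have h4 := gpoly_coeff hp (fun t : Fin (M + 1) => u (j, t)) t
    have h5 : gpoly p (fun t : Fin (M + 1) => u (j, t)) = 0 := congrFun h3 j
    rw [h5] at h4
    exact h4.symm
  have hdeg : y.natDegree ≤ p * M + d := by
    rw [hy]
    refine natDegree_sum_le_of_forall_le _ _ fun j _ => ?_
    refine natDegree_mul_le.trans ?_
    have h3 : (g j).natDegree ≤ p * M := by
      refine gpoly_natDegree_le _ fun t => ?_
      exact Nat.mul_le_mul_left _ (by omega)
    have := hdj j
    omega
  have hcls : ((ord y : ℕ) : ZMod p) ∈ C := by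
    rw [hC, Finset.mem_filter]
    exact ⟨Finset.mem_univ _, y, hyV, hy0, rfl⟩
  have hval : ((ord y : ℕ) : ZMod p).val = ord y % p := ZMod.val_natCast _ _
  have ho := h1 y hy0
  have ht : ord y / p < M + d + 1 := by
    have h3 : ord y / p ≤ (p * M + d) / p := Nat.div_le_div_right (ho.trans hdeg)
    have h4 : (p * M + d) / p = M + d / p := Nat.mul_add_div hp M d
    have h5 : d / p ≤ d := Nat.div_le_self _ _
    omega
  have h3 := congrFun hu (⟨_, hcls⟩, ⟨ord y / p, ht⟩)
  have h4 : ((ord y : ℕ) : ZMod p).val + p * (ord y / p) = ord y := by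
    rw [hval]; exact Nat.mod_add_div _ _
  apply h2 y hy0
  have h5 : L u (⟨_, hcls⟩, ⟨ord y / p, ht⟩) =
      ℓ (((ord y : ℕ) : ZMod p).val + p * (ord y / p)) y := rfl
  rw [h4] at h5
  rw [← h5]
  exact h3

/-- Solutions form a space stable under combinations with constant coefficients. -/
lemma V_sol {f : Fin n → K[X]} {b : Fin (n + 1) → K[X]}
    (hf : ∀ j, ∑ k : Fin (n + 1), b k * derivative^[(k : ℕ)] (f j) = 0) {y : K[X]} (hy : y ∈ V f) :
    ∑ k : Fin (n + 1), b k * derivative^[(k : ℕ)] y = 0 := by
  obtain ⟨c, hc, rfl⟩ := hy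
  have h1 : ∀ (a g : K[X]) (i : ℕ), derivative a = 0 →
      derivative^[i] (a * g) = a * derivative^[i] g := by
    intro a g i ha
    induction i generalizing g with
    | zero => rfl
    | succ i ih =>
      rw [Function.iterate_succ_apply, derivative_mul, ha, zero_mul, zero_add, ih,
        ← Function.iterate_succ_apply]
  have h2 : ∀ k : ℕ, derivative^[k] (∑ j, c j * f j) = ∑ j, c j * derivative^[k] (f j) := by
    intro k
    rw [Polynomial.iterate_derivative_sum]
    exact Finset.sum_congr rfl fun j _ => h1 _ _ _ (hc j)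
  simp only [h2, Finset.mul_sum]
  rw [Finset.sum_comm]
  refine Finset.sum_eq_zero fun j _ => ?_
  have h3 := congrArg (fun x => c j * x) (hf j)
  simp only [mul_zero, Finset.mul_sum] at h3
  rw [← h3]
  exact Finset.sum_congr rfl fun k _ => by ring

/-- A nonzero Wronskian gives independence over the constants. -/
lemma ind_of_wronskian {f : Fin n → K[X]}
    (hdet : (Matrix.of fun j i : Fin n => derivative^[(i : ℕ)] (f j)).det ≠ 0)
    (c : Fin n → K[X]) (hc : ∀ j, derivative (c j) = 0) (h0 : ∑ j, c j * f j = 0) : c = 0 := by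
  have h1 : ∀ (a g : K[X]) (i : ℕ), derivative a = 0 →
      derivative^[i] (a * g) = a * derivative^[i] g := by
    intro a g i ha
    induction i generalizing g with
    | zero => rfl
    | succ i ih =>
      rw [Function.iterate_succ_apply, derivative_mul, ha, zero_mul, zero_add, ih,
        ← Function.iterate_succ_apply]
  apply Matrix.eq_zero_of_vecMul_eq_zero hdet
  ext1 i
  have h2 := congrArg (derivative^[(i : ℕ)]) h0
  rw [Polynomial.iterate_derivative_sum, Polynomial.iterate_derivative_zero] at h2
  simp only [Matrix.vecMul, dotProduct, Matrix.of_apply, Pi.zero_apply]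
  rw [← h2]
  exact Finset.sum_congr rfl fun j _ => (h1 _ _ _ (hc j)).symm

end

section lead

variable {K : Type*} [Field K] {n : ℕ}

/-- The leading term of an equation at a finite point. -/
lemma lead_loc {c : Fin (n + 1) → K[X]} {x₀ : K} {y : K[X]} (hy0 : y ≠ 0)
    (hy : ∑ k : Fin (n + 1), c k * ((X - C x₀) ^ (k : ℕ) * derivative^[(k : ℕ)] y) = 0) :
    ∑ k : Fin (n + 1), (c k).eval x₀ *
      (descPochhammer K k).eval ((y.rootMultiplicity x₀ : ℕ) : K) = 0 := by
  obtain ⟨z, hz⟩ := Polynomial.pow_rootMultiplicity_dvd y x₀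
  set e := y.rootMultiplicity x₀ with he
  set τ : K[X] := X - C x₀ with hτ
  have hτ0 : τ ≠ 0 := X_sub_C_ne_zero x₀
  have hτe : τ.eval x₀ = 0 := by simp [hτ]
  have hz0 : z.eval x₀ ≠ 0 := by
    have := Polynomial.eval_divByMonic_pow_rootMultiplicity_ne_zero (p := y) x₀ hy0
    rw [← he] at this
    have h2 : y /ₘ (X - C x₀) ^ e = z := by
      conv_lhs => rw [hz]
      exact mul_divByMonic_cancel_left z ((monic_X_sub_C x₀).pow e)
    rwa [h2] at this
  have key : ∀ k : ℕ, ∃ w : K[X], τ ^ k * derivative^[k] y = τ ^ e * w ∧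
      w.eval x₀ = (descPochhammer K k).eval (e : K) * z.eval x₀ := by
    intro k
    induction k with
    | zero => exact ⟨z, by rw [pow_zero, one_mul]; exact hz, by simp⟩
    | succ k ih =>
      obtain ⟨w, hw, hw0⟩ := ih
      refine ⟨((e : K[X]) - (k : K[X])) * w + τ * derivative w, ?_, ?_⟩
      · have hτ' : derivative τ = 1 := by simp [hτ]
        have h1 : ∀ (i : ℕ) (g : K[X]), τ * derivative (τ ^ i * g) =
            (i : K[X]) * (τ ^ i * g) + τ ^ (i + 1) * derivative g := by
          intro i g
          rw [derivative_mul, derivative_pow, hτ', mul_one]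
          cases i with
          | zero => simp
          | succ s =>
            simp only [Nat.add_sub_cancel]
            rw [show (C ((s + 1 : ℕ) : K) : K[X]) = ((s + 1 : ℕ) : K[X]) by simp]
            ring
        have h2 := h1 k (derivative^[k] y)
        rw [hw] at h2
        have h3 := h1 e w
        rw [Function.iterate_succ_apply']
        rw [h3] at h2
        linear_combination -h2
      · rw [eval_add, eval_mul, eval_mul, hτe, zero_mul, add_zero, hw0, descPochhammer_succ_right]
        simp only [eval_sub, eval_natCast, eval_mul, eval_X]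
        ring
  choose w hw hw0 using key
  have h1 : τ ^ e * ∑ k : Fin (n + 1), c k * w k = 0 := by
    rw [← hy, Finset.mul_sum]
    refine Finset.sum_congr rfl fun k _ => ?_
    rw [hw]; ring
  have h2 := (mul_eq_zero.mp h1).resolve_left (pow_ne_zero _ hτ0)
  have h3 := congrArg (Polynomial.eval x₀) h2
  rw [eval_finsetSum, eval_zero] at h3
  simp only [eval_mul, hw0] at h3
  have h4 : (∑ k : Fin (n + 1), (c k).eval x₀ *
      (descPochhammer K k).eval ((e : ℕ) : K)) * z.eval x₀ = 0 := by
    rw [← h3, Finset.sum_mul]
    exact Finset.sum_congr rfl fun k _ => by ring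
  exact (mul_eq_zero.mp h4).resolve_right hz0

/-- The leading term of an equation at infinity. -/
lemma lead_inf {g : Fin (n + 1) → K[X]} {D : ℕ} (hD : ∀ k, (g k).natDegree ≤ D) {y : K[X]}
    (hy0 : y ≠ 0)
    (hy : ∑ k : Fin (n + 1), g k * (X ^ (k : ℕ) * derivative^[(k : ℕ)] y) = 0) :
    ∑ k : Fin (n + 1), (g k).coeff D *
      (descPochhammer K k).eval ((y.natDegree : ℕ) : K) = 0 := by
  set d := y.natDegree with hd
  have hx : ∀ (i : ℕ) (q : K[X]), X * derivative (X ^ i * q) =
      (i : K[X]) * (X ^ i * q) + X ^ (i + 1) * derivative q := by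
    intro i q
    rw [derivative_mul, derivative_pow, derivative_X, mul_one]
    cases i with
    | zero => simp
    | succ s =>
      simp only [Nat.add_sub_cancel]
      rw [show (C ((s + 1 : ℕ) : K) : K[X]) = ((s + 1 : ℕ) : K[X]) by simp]
      ring
  have key : ∀ k : ℕ, (X ^ k * derivative^[k] y).natDegree ≤ d ∧
      (X ^ k * derivative^[k] y).coeff d =
        (descPochhammer K k).eval (d : K) * y.leadingCoeff := by
    intro k
    induction k with
    | zero =>
      refine ⟨by simp [hd], ?_⟩
      rw [pow_zero, one_mul, Function.iterate_zero, id_eq, descPochhammer_zero, eval_one, one_mul,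
        leadingCoeff]
    | succ k ih =>
      obtain ⟨h1, h2⟩ := ih
      have h3 : X ^ (k + 1) * derivative^[k + 1] y =
          X * derivative (X ^ k * derivative^[k] y) - C (k : K) * (X ^ k * derivative^[k] y) := by
        rw [hx, Function.iterate_succ_apply']
        simp
      set q := X ^ k * derivative^[k] y with hq
      have h4 : (X * derivative q).natDegree ≤ d := by
        by_cases h0 : derivative q = 0
        · rw [h0]; simp
        · rw [natDegree_mul X_ne_zero h0, natDegree_X]
          have h4 := natDegree_derivative_lt (p := q) (fun h00 => h0 (by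
            rw [eq_C_of_natDegree_eq_zero h00]; simp))
          omega
      have h5 : (X * derivative q).coeff d = (d : K) * q.coeff d := by
        cases hd' : d with
        | zero => simp
        | succ s =>
          rw [coeff_X_mul, coeff_derivative]
          push_cast
          ring
      rw [h3]
      refine ⟨(natDegree_sub_le _ _).trans (max_le h4 ((natDegree_C_mul_le _ _).trans h1)), ?_⟩
      rw [coeff_sub, coeff_C_mul, h5, h2, descPochhammer_succ_right]
      simp only [eval_sub, eval_natCast, eval_mul, eval_X]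
      ring
  have h1 := congrArg (fun q => q.coeff (D + d)) hy
  simp only [finsetSum_coeff, coeff_zero] at h1
  have h2 : ∀ k : Fin (n + 1), (g k * (X ^ (k : ℕ) * derivative^[(k : ℕ)] y)).coeff (D + d) =
      (g k).coeff D * ((descPochhammer K k).eval (d : K) * y.leadingCoeff) := by
    intro k
    rw [coeff_mul_add_eq_of_natDegree_le (hD k) (key k).1, (key k).2]
  simp only [h2] at h1
  have h4 : (∑ k : Fin (n + 1), (g k).coeff D *
      (descPochhammer K k).eval ((d : ℕ) : K)) * y.leadingCoeff = 0 := by
    rw [← h1, Finset.sum_mul]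
    exact Finset.sum_congr rfl fun k _ => by ring
  exact (mul_eq_zero.mp h4).resolve_right (leadingCoeff_ne_zero.mpr hy0)

end lead

section roots

variable {K : Type*} [Field K] {n : ℕ}

/-- A polynomial in the basis of falling factorials. -/
noncomputable def dsum (a : Fin (n + 1) → K) : K[X] :=
  ∑ k : Fin (n + 1), C (a k) * descPochhammer K k

lemma dsum_eval (a : Fin (n + 1) → K) (x : K) :
    (dsum a).eval x = ∑ k : Fin (n + 1), a k * (descPochhammer K k).eval x := by
  simp [dsum, eval_finsetSum]

lemma dsum_natDegree_le (a : Fin (n + 1) → K) {d : ℕ} (h : ∀ k : Fin (n + 1), d < k → a k = 0) :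
    (dsum a).natDegree ≤ d := by
  refine natDegree_sum_le_of_forall_le _ _ fun k _ => ?_
  by_cases hk : d < (k : ℕ)
  · rw [h k hk]; simp
  · refine (natDegree_C_mul_le _ _).trans ?_
    rw [descPochhammer_natDegree]
    omega

lemma dsum_coeff (a : Fin (n + 1) → K) (i : Fin (n + 1)) (h : ∀ k, i < k → a k = 0) :
    (dsum a).coeff i = a i := by
  unfold dsum
  rw [finsetSum_coeff, Finset.sum_eq_single i]
  · rw [coeff_C_mul]
    have h1 := (monic_descPochhammer K i).coeff_natDegree
    rw [descPochhammer_natDegree] at h1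
    rw [h1, mul_one]
  · intro k _ hk
    rw [coeff_C_mul]
    rcases lt_or_gt_of_ne hk with h1 | h1
    · rw [coeff_eq_zero_of_natDegree_lt, mul_zero]
      rw [descPochhammer_natDegree]
      exact h1
    · rw [h k h1, zero_mul]
  · intro h0; exact absurd (Finset.mem_univ i) h0

lemma dsum_ne_zero {a : Fin (n + 1) → K} (ha : a ≠ 0) : dsum a ≠ 0 := by
  classical
  have hne : (Finset.univ.filter fun k => a k ≠ 0).Nonempty := by
    obtain ⟨k, hk⟩ := Function.ne_iff.mp ha
    exact ⟨k, Finset.mem_filter.mpr ⟨Finset.mem_univ k, hk⟩⟩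
  set i := (Finset.univ.filter fun k => a k ≠ 0).max' hne with hi
  have h1 : a i ≠ 0 := (Finset.mem_filter.mp (Finset.max'_mem _ hne)).2
  have h2 : ∀ k, i < k → a k = 0 := by
    intro k hk
    by_contra hak
    exact absurd (Finset.le_max' _ k (Finset.mem_filter.mpr ⟨Finset.mem_univ k, hak⟩))
      (not_le.mpr hk)
  intro h0
  apply h1
  rw [← dsum_coeff a i h2, h0, coeff_zero]

/-- If a nonzero combination of falling factorials has at least `n` roots in the prime field, then
its top coefficient is nonzero and all its roots are in the prime field. -/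
theorem top_of_roots {p : ℕ} [Fact p.Prime] [CharP K p] {a : Fin (n + 1) → K} (ha : a ≠ 0)
    {S : Finset (ZMod p)} (hS : n ≤ S.card)
    (hroot : ∀ c ∈ S, (dsum a).eval (ZMod.castHom (dvd_refl p) K c) = 0) :
    a (Fin.last n) ≠ 0 ∧ ∀ x : K, (dsum a).eval x = 0 → ∃ c : ZMod p,
      ZMod.castHom (dvd_refl p) K c = x := by
  classical
  set ι : ZMod p →+* K := ZMod.castHom (dvd_refl p) K with hι
  have hinj : Function.Injective ι := ι.injective
  have hne := dsum_ne_zero ha
  have hsub : S.image ι ⊆ (dsum a).roots.toFinset := by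
    intro x hx
    obtain ⟨c, hc, rfl⟩ := Finset.mem_image.mp hx
    rw [Multiset.mem_toFinset, mem_roots hne]
    exact hroot c hc
  have hcard : S.card ≤ (dsum a).roots.toFinset.card := by
    rw [← Finset.card_image_of_injective S hinj]
    exact Finset.card_le_card hsub
  have hle : (dsum a).roots.toFinset.card ≤ (dsum a).natDegree :=
    (Multiset.toFinset_card_le _).trans (card_roots' _)
  have hdeg : (dsum a).natDegree ≤ n := dsum_natDegree_le a fun k hk => by
    have := k.isLt
    omega
  refine ⟨fun h0 => ?_, fun x hx => ?_⟩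
  · have hn : 0 < n := by
      rcases Nat.eq_zero_or_pos n with h | h
      · subst h
        exfalso
        apply ha
        ext1 k
        have : k = Fin.last 0 := Fin.ext (by have := k.isLt; simp only [Fin.val_last]; omega)
        rw [this, h0]; rfl
      · exact h
    have h1 : (dsum a).natDegree ≤ n - 1 := dsum_natDegree_le a fun k hk => by
      have : k = Fin.last n := by
        apply Fin.ext
        rw [Fin.val_last]
        have := k.isLt
        omega
      rw [this, h0]
    omega
  · have hx' : x ∈ (dsum a).roots.toFinset := by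
      rw [Multiset.mem_toFinset, mem_roots hne]
      exact hx
    have heq : S.image ι = (dsum a).roots.toFinset := by
      apply Finset.eq_of_subset_of_card_le hsub
      rw [Finset.card_image_of_injective S hinj]
      omega
    rw [← heq] at hx'
    obtain ⟨c, _, hc⟩ := Finset.mem_image.mp hx'
    exact ⟨c, hc⟩

end roots

end Pool.Agent.W432.HK
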