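import Pool.Agent.W432.HK.Ord
import Pool.Agent.W432.WB.Wron

set_option autoImplicit false

open Polynomial

namespace Pool.Agent.W432.HK

open Pool.Agent.W432.WB (FullMod)

section

variable {K : Type*} [Field K] {n p : ℕ} [Fact p.Prime] [CharP K p]

theorem sols {b : Fin (n + 1) → ℤ[X]} (h : FullMod b p)
    (hb : (b (Fin.last n)).map (Int.castRingHom K) ≠ 0) :
    ∃ f : Fin n → K[X], (∀ j, ∑ k : Fin (n + 1), (b k).map (Int.castRingHom K) *
        derivative^[(k : ℕ)] (f j) = 0) ∧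
      (Matrix.of fun j i : Fin n => derivative^[(i : ℕ)] (f j)).det ≠ 0 := by
  let ι : ZMod p →+* K := ZMod.castHom (dvd_refl p) K
  have hι : Function.Injective ι := ι.injective
  have hcomp : ι.comp (Int.castRingHom (ZMod p)) = Int.castRingHom K := RingHom.ext_int _ _
  have hb' : (b (Fin.last n)).map (Int.castRingHom (ZMod p)) ≠ 0 := by
    intro h0
    apply hb
    rw [← hcomp, ← Polynomial.map_map, h0, Polynomial.map_zero]
  obtain ⟨f, hf, hdet⟩ := h.exists_poly hb'
  have hiter : ∀ j i, (derivative^[i] (f j)).map ι = derivative^[i] ((f j).map ι) := by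
    intro j i
    rw [Polynomial.iterate_derivative_map]
  refine ⟨fun j => (f j).map ι, fun j => ?_, ?_⟩
  · have h1 := congrArg (Polynomial.map ι) (hf j)
    simp only [Polynomial.map_sum, Polynomial.map_mul, Polynomial.map_map, hcomp, hiter,
      Polynomial.map_zero] at h1
    exact h1
  · have h2 : (Matrix.of fun j i : Fin n => derivative^[(i : ℕ)] ((f j).map ι)) =
        (mapRingHom ι).mapMatrix (Matrix.of fun j i : Fin n => derivative^[(i : ℕ)] (f j)) := by
      ext1 j i
      simp only [Matrix.of_apply, RingHom.mapMatrix_apply, Matrix.map_apply, coe_mapRingHom]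
      rw [hiter]
    rw [h2, ← RingHom.map_det]
    intro h0
    exact hdet ((Polynomial.map_eq_zero_iff hι).mp h0)

lemma rootMultiplicity_le (x₀ : K) (y : K[X]) (hy : y ≠ 0) : y.rootMultiplicity x₀ ≤ y.natDegree := by
  obtain ⟨z, hz⟩ := Polynomial.pow_rootMultiplicity_dvd y x₀
  have hz0 : z ≠ 0 := by
    rintro rfl
    exact hy (by rw [hz, mul_zero])
  have h1 : y.natDegree = y.rootMultiplicity x₀ + z.natDegree := by
    conv_lhs => rw [hz]
    rw [natDegree_mul (pow_ne_zero _ (X_sub_C_ne_zero x₀)) hz0, natDegree_pow, natDegree_X_sub_C,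
      mul_one]
  omega

lemma taylor_coeff_ne (x₀ : K) (y : K[X]) (hy : y ≠ 0) :
    (taylor x₀ y).coeff (y.rootMultiplicity x₀) ≠ 0 := by
  obtain ⟨z, hz⟩ := Polynomial.pow_rootMultiplicity_dvd y x₀
  set e := y.rootMultiplicity x₀ with he
  have hz0 : z.eval x₀ ≠ 0 := by
    have := Polynomial.eval_divByMonic_pow_rootMultiplicity_ne_zero (p := y) x₀ hy
    rw [← he] at this
    have h2 : y /ₘ (X - C x₀) ^ e = z := by
      conv_lhs => rw [hz]
      exact mul_divByMonic_cancel_left z ((monic_X_sub_C x₀).pow e)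
    rwa [h2] at this
  have h1 : taylor x₀ y = X ^ e * taylor x₀ z := by
    conv_lhs => rw [hz]
    rw [taylor_mul, taylor_pow, map_sub, taylor_X, taylor_C, add_sub_cancel_right]
  rw [h1]
  have h2 : (X ^ e * taylor x₀ z).coeff (0 + e) = (taylor x₀ z).coeff 0 := coeff_X_pow_mul _ _ _
  rw [zero_add] at h2
  rw [h2, taylor_coeff_zero]
  exact hz0

/-- The indicial polynomial at a finite point modulo `p`. -/
theorem loc_point {b : Fin (n + 1) → K[X]} {f : Fin n → K[X]}
    (hf : ∀ j, ∑ k : Fin (n + 1), b k * derivative^[(k : ℕ)] (f j) = 0)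
    (hdet : (Matrix.of fun j i : Fin n => derivative^[(i : ℕ)] (f j)).det ≠ 0) {x₀ : K}
    {c : Fin (n + 1) → K[X]}
    (hc : ∀ y : K[X], ∑ k : Fin (n + 1), b k * derivative^[(k : ℕ)] y = 0 →
      ∑ k : Fin (n + 1), c k * ((X - C x₀) ^ (k : ℕ) * derivative^[(k : ℕ)] y) = 0)
    (hne : (fun k => (c k).eval x₀) ≠ 0) :
    (c (Fin.last n)).eval x₀ ≠ 0 ∧
      ∀ x : K, (dsum (fun k => (c k).eval x₀)).eval x = 0 → ∃ c : ZMod p,
        ZMod.castHom (dvd_refl p) K c = x := by
  classical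
  have h1 := classes (p := p) f (ind_of_wronskian hdet) (fun y => y.rootMultiplicity x₀)
    (fun o => (lcoeff K o).comp (taylor x₀)) (rootMultiplicity_le x₀)
    (fun y hy => taylor_coeff_ne x₀ y hy)
  refine top_of_roots hne h1 fun c' hc' => ?_
  rw [Finset.mem_filter] at hc'
  obtain ⟨-, y, hyV, hy0, hyc⟩ := hc'
  rw [dsum_eval, ← hyc, map_natCast]
  exact lead_loc hy0 (hc y (V_sol hf hyV))

/-- The indicial polynomial at infinity modulo `p`. -/
theorem inf_point {b : Fin (n + 1) → K[X]} {f : Fin n → K[X]}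
    (hf : ∀ j, ∑ k : Fin (n + 1), b k * derivative^[(k : ℕ)] (f j) = 0)
    (hdet : (Matrix.of fun j i : Fin n => derivative^[(i : ℕ)] (f j)).det ≠ 0)
    {g : Fin (n + 1) → K[X]} {D : ℕ} (hD : ∀ k, (g k).natDegree ≤ D)
    (hg : ∀ y : K[X], ∑ k : Fin (n + 1), b k * derivative^[(k : ℕ)] y = 0 →
      ∑ k : Fin (n + 1), g k * (X ^ (k : ℕ) * derivative^[(k : ℕ)] y) = 0)
    (hne : (fun k => (g k).coeff D) ≠ 0) :
    (g (Fin.last n)).coeff D ≠ 0 ∧
      ∀ x : K, (dsum (fun k => (g k).coeff D)).eval x = 0 → ∃ c : ZMod p,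
        ZMod.castHom (dvd_refl p) K c = x := by
  classical
  have h1 := classes (p := p) f (ind_of_wronskian hdet) (fun y => y.natDegree)
    (fun o => lcoeff K o) (fun _ _ => le_refl _)
    (fun y hy => leadingCoeff_ne_zero.mpr hy)
  refine top_of_roots hne h1 fun c' hc' => ?_
  rw [Finset.mem_filter] at hc'
  obtain ⟨-, y, hyV, hy0, hyc⟩ := hc'
  rw [dsum_eval, ← hyc, map_natCast]
  exact lead_inf hD hy0 (hg y (V_sol hf hyV))

end

end Pool.Agent.W432.HK
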