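import Pool.Agent.W432.HK.Final

set_option autoImplicit false

open Polynomial

namespace Pool.Agent.W432.HK

open Pool.Agent.W432.WB Pool.Agent.W432.TC

/-- There are `a` prime to `N` and a bound such that for all primes `p` above the bound with
`a p = -1` modulo `N` the reduction modulo `p` of `∑ b i * ∂ ^ i` does not have a full basis of
rational solutions. -/
def BadClass {n : ℕ} (b : Fin (n + 1) → ℤ[X]) (N : ℕ) : Prop :=
  ∃ a : ℤ, IsCoprime a (N : ℤ) ∧ ∃ P₀ : ℕ, ∀ p : ℕ, P₀ < p → (N : ℤ) ∣ a * p + 1 →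
    ∀ _hp : Fact p.Prime, ¬ FullMod b p

/-- The exponents as a point of the torus: `lam j l` at the finite points and `phi l` at infinity. -/
def expVec {m n : ℕ} (lam : Fin m → Fin n → ℚ) (phi : Fin n → ℚ) : ExponentIndex m n → ℝ :=
  fun i => ((Sum.elim (fun p => lam p.1 p.2) phi i : ℚ) : ℝ)

/-- The exponents have the common denominator `N`. -/
def CommonDen {m n : ℕ} (lam : Fin m → Fin n → ℚ) (phi : Fin n → ℚ) (N : ℕ) : Prop :=
  0 < N ∧ (∀ j l, ∃ z : ℤ, (N : ℚ) * lam j l = z) ∧ ∀ l, ∃ z : ℤ, (N : ℚ) * phi l = z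

/-- A torsion coset in the torus of exponents, given by a group of integral relations and a
rational point. -/
structure TorsionCoset (m n : ℕ) : Type where
  relations : AddSubgroup (ExponentIndex m n → ℤ)
  point : ExponentIndex m n → ℚ

/-- The real points of a torsion coset: all `z` such that `∑ i, k i * (z i - point i)` is an
integer for every relation `k`. -/
def TorsionCoset.Mem {m n : ℕ} (C : TorsionCoset m n) (z : ExponentIndex m n → ℝ) : Prop :=
  InCoset C.relations C.point z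

/-- The coset is connected: the group of relations is saturated. -/
def TorsionCoset.Connected {m n : ℕ} (C : TorsionCoset m n) : Prop :=
  ∀ (d : ℤ) (k : ExponentIndex m n → ℤ), d ≠ 0 → (fun i => d * k i) ∈ C.relations →
    k ∈ C.relations

/-- The codimension is at least `r`: there are `r` linearly independent relations. -/
def TorsionCoset.CodimGe {m n : ℕ} (C : TorsionCoset m n) (r : ℕ) : Prop :=
  ∃ k : Fin r → ExponentIndex m n → ℤ, (∀ s, k s ∈ C.relations) ∧
    ∀ c : Fin r → ℤ, (∀ i, ∑ s, c s * k s i = 0) → ∀ s, c s = 0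

lemma codimGe_of_finrank {m n : ℕ} {C : TorsionCoset m n} {r : ℕ}
    (h : r ≤ Module.finrank ℤ (AddSubgroup.toIntSubmodule C.relations)) : C.CodimGe r := by
  obtain ⟨f, hf⟩ := exists_linearIndependent_of_le_finrank h
  refine ⟨fun s => (f s : ExponentIndex m n → ℤ), fun s => (f s).2, fun c hc => ?_⟩
  rw [Fintype.linearIndependent_iff] at hf
  apply hf c
  apply Subtype.ext
  ext1 i
  rw [AddSubmonoidClass.coe_finsetSum, Finset.sum_apply]
  simpa using hc i

/-- `∑ b i * ∂ ^ i` is Fuchsian with finite singular points among the `α j`, with the rational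
exponents `lam j l` at `α j` and with the degrees `phi l` of the solutions at infinity. -/
def FuchsianWith {m n : ℕ} (b : Fin (n + 1) → ℤ[X]) (α : Fin m → AlgebraicClosure ℚ)
    (lam : Fin m → Fin n → ℚ) (phi : Fin n → ℚ) : Prop :=
  b (Fin.last n) ≠ 0 ∧ ∃ Q : Fin (n + 1) → (AlgebraicClosure ℚ)[X],
    IsFuchs b α Q ∧ HasExps α Q lam phi

/-- The leading coefficient is nonzero, the `α j` are distinct and all zeros of the leading
coefficient are among them. -/
def ZerosAmong {m n : ℕ} (b : Fin (n + 1) → ℤ[X]) (α : Fin m → AlgebraicClosure ℚ) : Prop :=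
  b (Fin.last n) ≠ 0 ∧ Function.Injective α ∧
    ∀ x, ((b (Fin.last n)).map (Int.castRingHom (AlgebraicClosure ℚ))).eval x = 0 → ∃ j, α j = x

theorem cosets_stmt (m n : ℕ) (hm : 1 ≤ m) (hn : 1 ≤ n) :
    ∃ 𝒟 : Finset (TorsionCoset m n),
      (∀ C ∈ 𝒟, C.Connected ∧ traceRelation m n ∈ C.relations ∧ C.CodimGe (n + 1) ∧
        ∀ z, C.Mem z → WeylBoth z) ∧
      ∀ (b : Fin (n + 1) → ℤ[X]) (α : Fin m → AlgebraicClosure ℚ),
        (∀ lam phi N, FuchsianWith b α lam phi → CommonDen lam phi N →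
          (∃ C ∈ 𝒟, C.Mem (expVec lam phi)) ∨ FullAlg b ∨ BadClass b N) ∧
        (ZerosAmong b α → Cond b → FullAlg b ∨
          ∃ lam phi, FuchsianWith b α lam phi ∧ ∃ C ∈ 𝒟, C.Mem (expVec lam phi)) := by
  classical
  obtain ⟨𝒟, h1, h2, h3⟩ := cosets_final (m := m) (n := n) hm hn
  have hin : ∀ z, (∃ C ∈ 𝒟, InCoset C.1 C.2 z) →
      ∃ C ∈ 𝒟.image fun C => (⟨C.1, C.2⟩ : TorsionCoset m n), C.Mem z := by
    rintro z ⟨C, hC, hz⟩
    exact ⟨⟨C.1, C.2⟩, Finset.mem_image_of_mem _ hC, hz⟩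
  refine ⟨𝒟.image fun C => ⟨C.1, C.2⟩, ?_, fun b α => ⟨?_, ?_⟩⟩
  · intro C' hC'
    obtain ⟨C, hC, rfl⟩ := Finset.mem_image.mp hC'
    exact ⟨fun d k hd hk => (h1 C hC).1 d k hd hk, (h1 C hC).2.1,
      codimGe_of_finrank (h1 C hC).2.2.1, (h1 C hC).2.2.2⟩
  · rintro lam phi N ⟨hb, Q, hF, hE⟩ hN
    rcases h2 b α Q lam phi N hb hF hE hN.1 hN.2.1 hN.2.2 with h | h
    · exact Or.inl (hin _ h)
    · exact Or.inr h
  · rintro ⟨hb, hα, hroot⟩ hc
    rcases h3 b α hb hα hroot hc with h | ⟨Q, lam, phi, hF, hE, hC⟩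
    · exact Or.inl h
    · exact Or.inr ⟨lam, phi, ⟨hb, Q, hF, hE⟩, hin _ hC⟩

end Pool.Agent.W432.HK
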